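import Pool.Agent.H37.ST.Uni
import Pool.Agent.H45.SN.Defs

set_option autoImplicit false

/-! Steklov, part B: the open regular polygon is the interior of the convex hull of its vertices.

`Pool.Agent.H45.SN.rv n = rg n` (`rfl`, the two functions `tn` are the same), `RR n = interior (convexHull ℝ (range (rg n)))`.
PROOF. `hull`: `⊆`: every vertex is in `bdr (rg n) = frontier (Up n) ⊆ closure (Up n)` (`up_frontier`), which is convex
(`up_convex`). `⊇`: let `z ∈ closure (Up n)`, `ζ_k = conj (om n ^ k) z`; `up_max` gives `k` with `|Im ζ_k| ≤ t Re ζ_k`, and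
`Re ζ_k ≤ 1` (`up_closure`); so `ζ_k = X + i t Y`, `|Y| ≤ X ≤ 1`, and
`z = (1 - X) 0 + ((X - Y)/2) (1 - i t) om^k + ((X + Y)/2) (1 + i t) om^k` is a convex combination of `0`, `rg n k`,
`rg n (k+1)` (`rg_eq`), and `0 = (1/n) ∑_{k<n} rg n k` (geometric sum, `om n ^ n = 1`, `om n ≠ 1`) is in the convex hull.
`RR_eq`: `interior (closure (Up n)) = Up n` (`Convex.interior_closure_eq_interior_of_nonempty_interior`, `up_open`). -/

open Complex MeasureTheory Set Finset

namespace Pool.Agent.H37.ST

open Pool.Agent.H32.Stek hiding om perim area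
open Pool.Agent.H32.Q4 hiding om
open Pool.Agent.H32.SG

variable {n : ℕ}

private lemma Brg_conj (n k : ℕ) : om n ^ k * (starRingEnd ℂ) (om n ^ k) = 1 := by
  rw [Complex.mul_conj, Complex.normSq_eq_norm_sq, norm_pow, norm_om]
  norm_num

private lemma Brg_sum (hn : 3 ≤ n) : ∑ k ∈ Finset.range n, rg n k = 0 := by
  have h1 : om n ≠ 1 := by
    intro h
    have h2 := om_eq hn
    rw [h, one_mul] at h2
    have h3 := congrArg Complex.im h2
    have h4 := tn_pos hn
    simp at h3
    linarith
  have h2 : (∑ k ∈ Finset.range n, om n ^ k) * (om n - 1) = 0 := by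
    rw [geom_sum_mul, om_pow (by omega), sub_self]
  have h3 := (mul_eq_zero.1 h2).resolve_right (sub_ne_zero.2 h1)
  unfold rg
  rw [← Finset.mul_sum, h3, mul_zero]

private lemma Brg_zero (hn : 3 ≤ n) : (0 : ℂ) ∈ convexHull ℝ (Set.range (rg n)) := by
  have hn0 : (0 : ℝ) < n := by exact_mod_cast (by omega : 0 < n)
  have h1 := (convex_convexHull ℝ (Set.range (rg n))).sum_mem (t := Finset.range n)
    (w := fun _ => (n : ℝ)⁻¹) (z := rg n) (fun i _ => (inv_pos.2 hn0).le)
    (by rw [Finset.sum_const, Finset.card_range, nsmul_eq_mul, mul_inv_cancel₀ hn0.ne'])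
    (fun i _ => subset_convexHull ℝ _ ⟨i, rfl⟩)
  rwa [← Finset.smul_sum, Brg_sum hn, smul_zero] at h1

theorem hull (hn : 3 ≤ n) : convexHull ℝ (Set.range (rg n)) = closure (Up n) := by
  apply Set.Subset.antisymm
  · refine convexHull_min ?_ (up_convex n).closure
    rintro _ ⟨j, rfl⟩
    refine frontier_subset_closure ?_
    rw [up_frontier hn]
    exact Set.mem_iUnion.2 ⟨j, left_mem_segment ℝ _ _⟩
  · intro z hz
    obtain ⟨k, hk, hk1⟩ := up_max hn z
    rw [up_closure] at hz
    have hk2 := hz k hk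
    set ζ : ℂ := (starRingEnd ℂ) (om n ^ k) * z with hζ
    have ht := tn_pos hn
    obtain ⟨Y, hY⟩ : ∃ Y : ℝ, ζ.im = tn n * Y := ⟨ζ.im / tn n, by field_simp⟩
    have hYX : |Y| ≤ ζ.re := by
      rw [hY, abs_mul, abs_of_pos ht] at hk1
      exact le_of_mul_le_mul_left hk1 ht
    obtain ⟨hY1, hY2⟩ := abs_le.1 hYX
    have hz1 : z = om n ^ k * ζ := by
      rw [hζ, ← mul_assoc, Brg_conj, one_mul]
    have hζ1 : ζ = (ζ.re : ℂ) + ((tn n * Y : ℝ) : ℂ) * I := by
      rw [← hY, Complex.re_add_im]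
    have h1 := (convex_convexHull ℝ (Set.range (rg n))).sum_mem (t := (Finset.univ : Finset (Fin 3)))
      (w := ![1 - ζ.re, (ζ.re - Y) / 2, (ζ.re + Y) / 2]) (z := ![0, rg n k, rg n (k + 1)])
      (fun i _ => by
        fin_cases i
        · change 0 ≤ 1 - ζ.re
          linarith
        · change 0 ≤ (ζ.re - Y) / 2
          linarith
        · change 0 ≤ (ζ.re + Y) / 2
          linarith)
      (by
        rw [Fin.sum_univ_three]
        change 1 - ζ.re + (ζ.re - Y) / 2 + (ζ.re + Y) / 2 = 1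
        ring)
      (fun i _ => by
        fin_cases i
        · exact Brg_zero hn
        · exact subset_convexHull ℝ _ ⟨k, rfl⟩
        · exact subset_convexHull ℝ _ ⟨k + 1, rfl⟩)
    rw [Fin.sum_univ_three] at h1
    have h2 : (1 - ζ.re) • (0 : ℂ) + ((ζ.re - Y) / 2) • rg n k + ((ζ.re + Y) / 2) • rg n (k + 1)
        = z := by
      rw [rg_eq hn, hz1, hζ1]
      unfold rg
      simp only [Complex.real_smul]
      simp only [Complex.add_re, Complex.ofReal_re, Complex.re_ofReal_mul, Complex.I_re, mul_zero,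
        add_zero]
      push_cast
      ring
    rw [← h2]
    exact h1

theorem RR_eq (hn : 3 ≤ n) : Pool.Agent.H45.SN.RR n = Up n := by
  have h0 : (0 : ℂ) ∈ Up n := fun j _ => by
    rw [mul_zero, Complex.zero_re]
    exact one_pos
  have h1 : Pool.Agent.H45.SN.rv n = rg n := rfl
  unfold Pool.Agent.H45.SN.RR
  rw [h1, hull hn, (up_convex n).interior_closure_eq_interior_of_nonempty_interior,
    (up_open n).interior_eq]
  rw [(up_open n).interior_eq]
  exact ⟨0, h0⟩

end Pool.Agent.H37.ST
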