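import Pool.Agent.H37.ST.DuA
import Pool.Agent.H45.SN.K2

set_option autoImplicit false

/-! Steklov, part B, I7b: the dual bound. `t = tn n`, `b = bb n`, `b' = bbd n`, `g_x, g_y` at `pt n r y`.

PROOF of `x_int`. `X = t (n b - y b')` : `X = t (t² (n/2 - 1) y² - n t²/6) i - t (n-1) (t³/3) y`,
`‖X‖² = t² ((n/2-1) t² y² - n t²/6)² + t² (n-1)² t⁶ y²/9`, `‖b'‖² = t⁴ y² + t⁶/9`; `∫ 1 = 2`, `∫ y² = 2/3`, `∫ y⁴ = 2/5`:
the sum is `2 t⁴ (1/3 + t² (14 - 4 n + n²)/45 + (n-1)² t⁴/27) = 2 t⁴ Qh n t`.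
PROOF of `dual`. `rv = r t g_y`, `rp = g_x + t y g_y`, so the integrand of `pairing` is `r^n (conj X · g_y - conj b' · g_x)`. Let
`T = -4 t² Ka` (real), `Q = ∫ (‖X‖² + ‖b'‖²) = 2 t⁴ Qh`. For real `l`:
`0 ≤ ∫_0^1 ∫ r t (‖g_y - l r^(n-1) X‖² + ‖g_x + l r^(n-1) b'‖²) = E0 n g - 2 l t T + l² t Q/(2 n)`
(`E0_ring`, `rd`; `∫_0^1 r^(2n-1) = 1/(2n)`; the middle term is `-2 l t Re ∫∫ r^n (conj X g_y - conj b' g_x)`). With
`l = 2 n T/Q`: `2 n t T² ≤ Q E0`, that is `32 n t⁵ Ka² ≤ 2 t⁴ Qh E0`. -/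

open Complex MeasureTheory Set Finset

namespace Pool.Agent.H37.ST

open Pool.Agent.H32.Stek hiding om perim area
open Pool.Agent.H32.Q4 hiding om
open Pool.Agent.H32.SG

private noncomputable def XX (n : ℕ) (y : ℝ) : ℂ := (tn n : ℂ) * (n * bb n y - y * bbd n y)

private theorem xx_eq (n : ℕ) (y : ℝ) : ‖XX n y‖ ^ 2 =
    tn n ^ 6 * (((n : ℝ) / 2 - 1) * y ^ 2 - n / 6) ^ 2 + ((n : ℝ) - 1) ^ 2 * tn n ^ 8 * y ^ 2 / 9 := by
  have h : XX n y = ((-(((n : ℝ) - 1) * tn n ^ 4 * y / 3) : ℝ) : ℂ) +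
      ((tn n ^ 3 * (((n : ℝ) / 2 - 1) * y ^ 2 - n / 6) : ℝ) : ℂ) * I := by
    unfold XX bb bbd
    push_cast
    ring
  rw [h, ← Complex.normSq_eq_norm_sq, Complex.normSq_add_mul_I]
  ring

private theorem bbd_eq (n : ℕ) (y : ℝ) : ‖bbd n y‖ ^ 2 = tn n ^ 4 * y ^ 2 + tn n ^ 6 / 9 := by
  have h : bbd n y = ((-(tn n ^ 3 / 3) : ℝ) : ℂ) + ((tn n ^ 2 * y : ℝ) : ℂ) * I := by
    unfold bbd
    push_cast
    ring
  rw [h, ← Complex.normSq_eq_norm_sq, Complex.normSq_add_mul_I]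
  ring

private theorem poly_int (a b c : ℝ) : ∫ y in (-1 : ℝ)..1, (a + b * y ^ 2 + c * y ^ 4) =
    2 * a + 2 / 3 * b + 2 / 5 * c := by
  have h : ∀ y ∈ Set.uIcc (-1 : ℝ) 1,
      HasDerivAt (fun y => a * y + b * y ^ 3 / 3 + c * y ^ 5 / 5) (a + b * y ^ 2 + c * y ^ 4) y := by
    intro y _
    have h1 := (hasDerivAt_id y).const_mul a
    have h2 := (((hasDerivAt_id y).pow 3).const_mul b).div_const 3
    have h3 := (((hasDerivAt_id y).pow 5).const_mul c).div_const 5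
    refine ((h1.add h2).add h3).congr_deriv ?_
    simp only [id]
    push_cast
    ring
  rw [intervalIntegral.integral_eq_sub_of_hasDerivAt h
    (Continuous.intervalIntegrable (by fun_prop) _ _)]
  ring

theorem x_int (n : ℕ) : ∫ y in (-1 : ℝ)..1,
    (‖(tn n : ℂ) * (n * bb n y - y * bbd n y)‖ ^ 2 + ‖bbd n y‖ ^ 2) =
      2 * tn n ^ 4 * Pool.Agent.H45.SN.Qh n (tn n) := by
  have h1 : ∀ y : ℝ, ‖(tn n : ℂ) * (n * bb n y - y * bbd n y)‖ ^ 2 + ‖bbd n y‖ ^ 2 =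
      (tn n ^ 6 * (n / 6) ^ 2 + tn n ^ 6 / 9) + (((n : ℝ) - 1) ^ 2 * tn n ^ 8 / 9 + tn n ^ 4 -
        2 * tn n ^ 6 * ((n : ℝ) / 2 - 1) * (n / 6)) * y ^ 2 +
        (tn n ^ 6 * ((n : ℝ) / 2 - 1) ^ 2) * y ^ 4 := by
    intro y
    have h2 := xx_eq n y
    unfold XX at h2
    rw [h2, bbd_eq]
    ring
  simp only [h1]
  rw [poly_int]
  unfold Pool.Agent.H45.SN.Qh
  ring

private theorem dbl_lin {f g h : ℝ × ℝ → ℝ} (hf : Continuous f) (hg : Continuous g)
    (hh : Continuous h) (a b : ℝ) :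
    ∫ r in (0 : ℝ)..1, ∫ y in (-1 : ℝ)..1, (f (r, y) + a * g (r, y) + b * h (r, y)) =
      (∫ r in (0 : ℝ)..1, ∫ y in (-1 : ℝ)..1, f (r, y)) +
        a * (∫ r in (0 : ℝ)..1, ∫ y in (-1 : ℝ)..1, g (r, y)) +
        b * (∫ r in (0 : ℝ)..1, ∫ y in (-1 : ℝ)..1, h (r, y)) := by
  have key : ∀ F : ℝ × ℝ → ℝ, Continuous F → Continuous fun r : ℝ => ∫ y in (-1 : ℝ)..1, F (r, y) :=
    fun F hF => intervalIntegral.continuous_parametric_intervalIntegral_of_continuous'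
      (f := fun r y => F (r, y)) hF (-1) 1
  have hin : ∀ F : ℝ × ℝ → ℝ, Continuous F → ∀ r : ℝ,
      IntervalIntegrable (fun y : ℝ => F (r, y)) volume (-1) 1 := fun F hF r =>
    (hF.comp (by fun_prop : Continuous fun y : ℝ => (r, y))).intervalIntegrable _ _
  have e1 : ∀ r : ℝ, ∫ y in (-1 : ℝ)..1, (f (r, y) + a * g (r, y) + b * h (r, y)) =
      (∫ y in (-1 : ℝ)..1, f (r, y)) + a * (∫ y in (-1 : ℝ)..1, g (r, y)) +
        b * (∫ y in (-1 : ℝ)..1, h (r, y)) := by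
    intro r
    rw [intervalIntegral.integral_add ((hin f hf r).add ((hin g hg r).const_mul a))
      ((hin h hh r).const_mul b), intervalIntegral.integral_add (hin f hf r)
      ((hin g hg r).const_mul a), intervalIntegral.integral_const_mul,
      intervalIntegral.integral_const_mul]
  simp only [e1]
  have i1 := (key f hf).intervalIntegrable (μ := volume) 0 1
  have i2 := (key g hg).intervalIntegrable (μ := volume) 0 1
  have i3 := (key h hh).intervalIntegrable (μ := volume) 0 1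
  rw [intervalIntegral.integral_add (i1.add (i2.const_mul a)) (i3.const_mul b),
    intervalIntegral.integral_add i1 (i2.const_mul a), intervalIntegral.integral_const_mul,
    intervalIntegral.integral_const_mul]

private theorem dbl_re {f : ℝ × ℝ → ℂ} (hf : Continuous f) :
    (∫ r in (0 : ℝ)..1, ∫ y in (-1 : ℝ)..1, f (r, y)).re =
      ∫ r in (0 : ℝ)..1, ∫ y in (-1 : ℝ)..1, (f (r, y)).re := by
  have hc : Continuous fun r : ℝ => ∫ y in (-1 : ℝ)..1, f (r, y) :=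
    intervalIntegral.continuous_parametric_intervalIntegral_of_continuous'
      (f := fun r y => f (r, y)) hf (-1) 1
  have h1 := Complex.reCLM.intervalIntegral_comp_comm (hc.intervalIntegrable (μ := volume) 0 1)
  have h2 : ∀ r : ℝ, ∫ y in (-1 : ℝ)..1, (f (r, y)).re = (∫ y in (-1 : ℝ)..1, f (r, y)).re := by
    intro r
    have hi : IntervalIntegrable (fun y : ℝ => f (r, y)) volume (-1) 1 :=
      (hf.comp (by fun_prop : Continuous fun y : ℝ => (r, y))).intervalIntegrable _ _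
    exact Complex.reCLM.intervalIntegral_comp_comm hi
  simp only [h2]
  exact h1.symm

private theorem nsq_sub' (a b : ℂ) (c : ℝ) :
    ‖a - c * b‖ ^ 2 = ‖a‖ ^ 2 - 2 * c * ((starRingEnd ℂ) b * a).re + c ^ 2 * ‖b‖ ^ 2 := by
  rw [← Complex.normSq_eq_norm_sq, ← Complex.normSq_eq_norm_sq, ← Complex.normSq_eq_norm_sq,
    Complex.normSq_apply, Complex.normSq_apply, Complex.normSq_apply]
  simp
  ring

theorem dual {n : ℕ} (hn : 3 ≤ n) {g : ℂ → ℂ} (hg : Tst n g) :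
    16 * n * tn n * Ka n g ^ 2 ≤ Pool.Agent.H45.SN.Qh n (tn n) * (Hn n g + Ht n g) := by
  have ht : 0 < tn n := tn_pos hn
  have hn0 : (0 : ℝ) < n := by
    have : (3 : ℝ) ≤ n := by exact_mod_cast hn
    linarith
  have hQ : 0 < Pool.Agent.H45.SN.Qh n (tn n) := by
    unfold Pool.Agent.H45.SN.Qh
    have h1 : 0 < 14 - 4 * (n : ℝ) + (n : ℝ) ^ 2 := by nlinarith [sq_nonneg ((n : ℝ) - 2)]
    positivity
  -- continuity
  have hG : Continuous fun z : ℝ × ℝ => fderiv ℝ g (pt n z.1 z.2) :=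
    (hg.c1.continuous_fderiv (by norm_num)).comp (pt_cont n)
  have hGx : Continuous fun z : ℝ × ℝ => fderiv ℝ g (pt n z.1 z.2) 1 := hG.clm_apply continuous_const
  have hGy : Continuous fun z : ℝ × ℝ => fderiv ℝ g (pt n z.1 z.2) I := hG.clm_apply continuous_const
  have hbc : Continuous fun z : ℝ × ℝ => bbd n z.2 := by
    unfold bbd
    fun_prop
  have hXc : Continuous fun z : ℝ × ℝ => XX n z.2 := by
    unfold XX bb bbd
    fun_prop
  -- the three functions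
  set A : ℝ × ℝ → ℝ := fun z =>
    z.1 * (tn n * (‖fderiv ℝ g (pt n z.1 z.2) 1‖ ^ 2 + ‖fderiv ℝ g (pt n z.1 z.2) I‖ ^ 2)) with hA
  set P : ℝ × ℝ → ℂ := fun z => ((z.1 ^ n : ℝ) : ℂ) *
    ((starRingEnd ℂ) (XX n z.2) * fderiv ℝ g (pt n z.1 z.2) I -
      (starRingEnd ℂ) (bbd n z.2) * fderiv ℝ g (pt n z.1 z.2) 1) with hP
  set C : ℝ × ℝ → ℝ := fun z => z.1 ^ (2 * n - 1) * (‖XX n z.2‖ ^ 2 + ‖bbd n z.2‖ ^ 2) with hC
  have cA : Continuous A := continuous_fst.mul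
    (continuous_const.mul ((hGx.norm.pow 2).add (hGy.norm.pow 2)))
  have cP : Continuous P := by
    refine Continuous.mul ?_ ((Continuous.mul ?_ hGy).sub (Continuous.mul ?_ hGx))
    · fun_prop
    · exact Complex.continuous_conj.comp hXc
    · exact Complex.continuous_conj.comp hbc
  have cPr : Continuous fun z => (P z).re := Complex.continuous_re.comp cP
  have cC : Continuous C := (continuous_fst.pow _).mul ((hXc.norm.pow 2).add (hbc.norm.pow 2))
  -- integrals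
  have iA : ∫ r in (0 : ℝ)..1, ∫ y in (-1 : ℝ)..1, A (r, y) = Hn n g + Ht n g := by
    have h1 := E0_ring (n := n) hg.c1
    unfold E0 rd at h1
    rw [h1]
  have iP : ∫ r in (0 : ℝ)..1, ∫ y in (-1 : ℝ)..1, (P (r, y)).re = -(4 * tn n ^ 2 * Ka n g) := by
    rw [← dbl_re cP]
    have h1 := pairing hn hg
    have h2 : ∫ r in (0 : ℝ)..1, ∫ y in (-1 : ℝ)..1,
      (((n * r ^ (n - 1) : ℝ) : ℂ) * (starRingEnd ℂ) (bb n y) * rv n g r y -
        ((r ^ n : ℝ) : ℂ) * (starRingEnd ℂ) (bbd n y) * rp n g r y) =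
        ∫ r in (0 : ℝ)..1, ∫ y in (-1 : ℝ)..1, P (r, y) := by
      refine intervalIntegral.integral_congr fun r _ => ?_
      refine intervalIntegral.integral_congr fun y _ => ?_
      have e1 : rv n g r y = ((r * tn n : ℝ) : ℂ) * fderiv ℝ g (pt n r y) I := by
        unfold rv
        rw [← Complex.real_smul, map_smul, Complex.real_smul]
      have e2 : rp n g r y = fderiv ℝ g (pt n r y) 1 +
          ((tn n * y : ℝ) : ℂ) * fderiv ℝ g (pt n r y) I := by
        unfold rp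
        have : pt n 1 y = 1 + (tn n * y) • I := by
          unfold pt
          rw [Complex.real_smul]
          simp
        rw [this, map_add, map_smul, Complex.real_smul]
      have e3 : r ^ n = r ^ (n - 1) * r := by
        rw [← pow_succ]
        congr 1
        omega
      simp only [hP]
      rw [e1, e2, e3]
      unfold XX
      simp only [map_mul, map_sub, Complex.conj_ofReal, map_natCast]
      push_cast
      ring
    rw [← h2, h1, Complex.ofReal_re]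
  have iC : ∫ r in (0 : ℝ)..1, ∫ y in (-1 : ℝ)..1, C (r, y) =
      1 / (2 * n) * (2 * tn n ^ 4 * Pool.Agent.H45.SN.Qh n (tn n)) := by
    have h1 : ∀ r : ℝ, ∫ y in (-1 : ℝ)..1, C (r, y) =
        r ^ (2 * n - 1) * (2 * tn n ^ 4 * Pool.Agent.H45.SN.Qh n (tn n)) := by
      intro r
      rw [← x_int n, ← intervalIntegral.integral_const_mul]
      rfl
    simp only [h1]
    rw [intervalIntegral.integral_mul_const, integral_pow]
    congr 1
    have h2 : 2 * n - 1 + 1 = 2 * n := by omega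
    have h3 : ((2 * n - 1 : ℕ) : ℝ) + 1 = 2 * n := by
      have := congrArg (fun k : ℕ => (k : ℝ)) h2
      push_cast at this
      exact this
    rw [h3, h2, one_pow, zero_pow (by omega), sub_zero]
  -- the inequality for every l
  have key : ∀ l : ℝ, 0 ≤ (Hn n g + Ht n g) + (-2 * l * tn n) * (-(4 * tn n ^ 2 * Ka n g)) +
      (l ^ 2 * tn n) * (1 / (2 * n) * (2 * tn n ^ 4 * Pool.Agent.H45.SN.Qh n (tn n))) := by
    intro l
    rw [← iA, ← iP, ← iC, ← dbl_lin cA cPr cC]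
    refine intervalIntegral.integral_nonneg zero_le_one fun r hr => ?_
    refine intervalIntegral.integral_nonneg (by norm_num) fun y _ => ?_
    have e3 : r ^ n = r ^ (n - 1) * r := by
      rw [← pow_succ]
      congr 1
      omega
    have e4 : r ^ (2 * n - 1) = (r ^ (n - 1)) ^ 2 * r := by
      rw [← pow_mul, ← pow_succ]
      congr 1
      omega
    have h1 := nsq_sub' (fderiv ℝ g (pt n r y) I) (XX n y) (l * r ^ (n - 1))
    have h2 := nsq_sub' (fderiv ℝ g (pt n r y) 1) (bbd n y) (-(l * r ^ (n - 1)))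
    have h3 : A (r, y) + (-2 * l * tn n) * (P (r, y)).re + (l ^ 2 * tn n) * C (r, y) =
        r * tn n * (‖fderiv ℝ g (pt n r y) I - ((l * r ^ (n - 1) : ℝ) : ℂ) * XX n y‖ ^ 2 +
          ‖fderiv ℝ g (pt n r y) 1 - ((-(l * r ^ (n - 1)) : ℝ) : ℂ) * bbd n y‖ ^ 2) := by
      rw [h1, h2]
      simp only [hA, hP, hC]
      rw [Complex.re_ofReal_mul, Complex.sub_re, e3, e4]
      ring
    rw [h3]
    have hr0 : 0 ≤ r := hr.1
    positivity
  have hk := key (-(4 * n * Ka n g) / (tn n ^ 2 * Pool.Agent.H45.SN.Qh n (tn n)))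
  set Q := Pool.Agent.H45.SN.Qh n (tn n) with hQdef
  have e5 : (Hn n g + Ht n g) + (-2 * (-(4 * n * Ka n g) / (tn n ^ 2 * Q)) * tn n) *
      (-(4 * tn n ^ 2 * Ka n g)) + ((-(4 * n * Ka n g) / (tn n ^ 2 * Q)) ^ 2 * tn n) *
      (1 / (2 * n) * (2 * tn n ^ 4 * Q)) =
      (Hn n g + Ht n g) - 16 * n * tn n * Ka n g ^ 2 / Q := by
    field_simp
    ring
  rw [e5] at hk
  have e6 : 16 * n * tn n * Ka n g ^ 2 / Q ≤ Hn n g + Ht n g := by linarith
  rw [div_le_iff₀ hQ] at e6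
  linarith

end Pool.Agent.H37.ST
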