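import Pool.Agent.H37.ST.RL
import Pool.Agent.H32.SG.EnX
import Pool.Agent.H45.SN.ND

set_option autoImplicit false

/-! Steklov, part B, I6 and I8: energy and side integral of `z + l g`, `g ∈ Tst`, `l` real. `t = tn n`.

PROOFS. `exp_E`: `F_x = 1 + l g_x`, `F_y = i + l g_y`: `E0 = 2 t + 2 l t JJ (Re g_x + Im g_y) + l² (Hn g + Ht g)`, and
`JJ Re g_x = -JJ Im g_y` is the first part of `jj_cross` (SG/EnX).
`exp_B`: `‖z + l g‖² = ‖z‖² + 2 l Re (conj z g) + l² ‖g‖²`, `z = 1 + i t Y`, `∫ conj z g = ∫ g - i t ∫ Y g = -i t (4 i Ka) = 4 t Ka` (`mom_eq`).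
`ka_sq`: `q1`, `q0` on the side: `24 Ka² = (3/2) ‖∫ Y g‖² = q1 ≤ q0 = 2 Mg` (`q2 ≥ 0` and mean zero).
`ring_g`: `ring_lemma` for `g`: `q1 = 24 Ka²`, `q2 = 2 Mg - 24 Ka²` (mean zero). -/

open Complex MeasureTheory Set Finset

namespace Pool.Agent.H37.ST

open Pool.Agent.H32.Stek hiding om perim area
open Pool.Agent.H32.Q4 hiding om
open Pool.Agent.H32.SG

variable {n : ℕ}

private lemma exp_jadd {f g : ℝ → ℝ → ℝ} (hf : Continuous (fun z : ℝ × ℝ => f z.1 z.2))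
    (hg : Continuous (fun z : ℝ × ℝ => g z.1 z.2)) :
    JJ (fun X Y => f X Y + g X Y) = JJ f + JJ g := by
  have jint : ∀ {f : ℝ → ℝ → ℝ}, Continuous (fun z : ℝ × ℝ => f z.1 z.2) →
      IntegrableOn (fun z : ℂ => f z.re z.im) EnD := by
    intro f hf
    have h : Continuous (fun z : ℂ => f z.re z.im) :=
      hf.comp (Complex.continuous_re.prodMk Complex.continuous_im)
    exact h.continuousOn.integrableOn_compact EnD_compact
  rw [← EnD_fubini hf, ← EnD_fubini hg, ← EnD_fubini (G := fun X Y => f X Y + g X Y) (hf.add hg)]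
  exact integral_add (jint hf) (jint hg)

private lemma exp_jmul (k : ℝ) (f : ℝ → ℝ → ℝ) : JJ (fun X Y => k * f X Y) = k * JJ f := by
  unfold JJ
  simp only [intervalIntegral.integral_const_mul]

private lemma exp_jone : JJ (fun _ _ => 1) = 1 := by
  unfold JJ
  have h : ∀ X : ℝ, ∫ _Y in (-X)..X, (1 : ℝ) = 2 * X := by
    intro X
    rw [intervalIntegral.integral_const, smul_eq_mul]
    ring
  simp only [h]
  rw [intervalIntegral.integral_const_mul, integral_id]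
  norm_num

private lemma exp_jcomb {f g : ℝ → ℝ → ℝ} (hf : Continuous (fun z : ℝ × ℝ => f z.1 z.2))
    (hg : Continuous (fun z : ℝ × ℝ => g z.1 z.2)) (l : ℝ) :
    JJ (fun X Y => 1 + (2 * l * f X Y + l ^ 2 * g X Y)) = 1 + (2 * l * JJ f + l ^ 2 * JJ g) := by
  have h1 : Continuous (fun z : ℝ × ℝ => 2 * l * f z.1 z.2) := continuous_const.mul hf
  have h2 : Continuous (fun z : ℝ × ℝ => l ^ 2 * g z.1 z.2) := continuous_const.mul hg
  rw [exp_jadd (f := fun _ _ => (1 : ℝ)) (g := fun X Y => 2 * l * f X Y + l ^ 2 * g X Y)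
    continuous_const (h1.add h2), exp_jadd (f := fun X Y => 2 * l * f X Y)
    (g := fun X Y => l ^ 2 * g X Y) h1 h2, exp_jmul, exp_jmul, exp_jone]

private lemma exp_fd {g : ℂ → ℂ} (hg : ContDiff ℝ 1 g) (l : ℝ) (z v : ℂ) :
    fderiv ℝ (fun z => z + (l : ℂ) * g z) z v = v + l * fderiv ℝ g z v := by
  have h1 : HasFDerivAt g (fderiv ℝ g z) z := (hg.differentiable one_ne_zero z).hasFDerivAt
  have h2 : HasFDerivAt (fun z => z + (l : ℂ) * g z)
      (ContinuousLinearMap.id ℝ ℂ + (l : ℂ) • fderiv ℝ g z) z :=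
    (hasFDerivAt_id z).add (h1.const_mul (l : ℂ))
  rw [h2.fderiv]
  simp

private lemma exp_sq (c a : ℂ) (l : ℝ) (hc : ‖c‖ = 1) :
    ‖c + l * a‖ ^ 2 = 1 + (2 * l * (c.re * a.re + c.im * a.im) + l ^ 2 * ‖a‖ ^ 2) := by
  have h1 : c.re ^ 2 + c.im ^ 2 = 1 := by
    have h2 : ‖c‖ ^ 2 = 1 := by rw [hc, one_pow]
    rw [← h2, ← Complex.normSq_eq_norm_sq, Complex.normSq_apply]
    ring
  rw [← Complex.normSq_eq_norm_sq, ← Complex.normSq_eq_norm_sq, Complex.normSq_apply,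
    Complex.normSq_apply]
  simp only [Complex.add_re, Complex.add_im, Complex.mul_re, Complex.mul_im, Complex.ofReal_re,
    Complex.ofReal_im, zero_mul, sub_zero, add_zero]
  linear_combination h1

private lemma exp_rf (g : ℂ → ℂ) : rf n g 1 = fun Y => g (1 + (tn n * Y : ℝ) * I) := by
  funext Y
  unfold rf pt
  rw [Complex.ofReal_one, one_mul]

private lemma exp_qs {g : ℂ → ℂ} (hg : Tst n g) : q1 (rf n g 1) = 24 * Ka n g ^ 2 ∧
    q2 (rf n g 1) = 2 * Mg n g - 24 * Ka n g ^ 2 := by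
  have h1 : q1 (rf n g 1) = 24 * Ka n g ^ 2 := by
    rw [exp_rf]
    unfold q1
    rw [mom_eq hg, norm_mul, norm_mul, Complex.norm_I, Complex.norm_real, mul_pow, mul_pow]
    rw [Real.norm_eq_abs, sq_abs]
    norm_num
    ring
  refine ⟨h1, ?_⟩
  unfold q2
  rw [h1]
  have h2 : q0 (rf n g 1) = 2 * Mg n g := by
    rw [exp_rf]
    unfold q0 Mg
    ring
  have h3 : ∫ y in (-1 : ℝ)..1, rf n g 1 y = 0 := by
    rw [exp_rf]
    exact hg.mean
  rw [h2, h3]
  simp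

theorem exp_E (hn : 3 ≤ n) {g : ℂ → ℂ} (hg : Tst n g) (l : ℝ) :
    E0 n (fun z => z + l * g z) = 2 * tn n + l ^ 2 * (Hn n g + Ht n g) := by
  have cdg : Continuous (fderiv ℝ g) := hg.c1.continuous_fderiv one_ne_zero
  have cpt : Continuous (fun z : ℝ × ℝ => ((z.1 : ℂ) + (tn n * z.2 : ℝ) * I)) := by fun_prop
  have cgx : Continuous (fun z : ℝ × ℝ => fderiv ℝ g ((z.1 : ℂ) + (tn n * z.2 : ℝ) * I) 1) :=
    (cdg.comp cpt).clm_apply continuous_const
  have cgy : Continuous (fun z : ℝ × ℝ => fderiv ℝ g ((z.1 : ℂ) + (tn n * z.2 : ℝ) * I) I) :=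
    (cdg.comp cpt).clm_apply continuous_const
  have h1 : JJ (fun X Y => ‖fderiv ℝ (fun z => z + (l : ℂ) * g z) (X + (tn n * Y : ℝ) * I) 1‖ ^ 2) =
      1 + (2 * l * JJ (fun X Y => (fderiv ℝ g (X + (tn n * Y : ℝ) * I) 1).re) +
        l ^ 2 * JJ (fun X Y => ‖fderiv ℝ g (X + (tn n * Y : ℝ) * I) 1‖ ^ 2)) := by
    rw [← exp_jcomb (f := fun X Y => (fderiv ℝ g (X + (tn n * Y : ℝ) * I) 1).re)
      (g := fun X Y => ‖fderiv ℝ g (X + (tn n * Y : ℝ) * I) 1‖ ^ 2)
      (Complex.continuous_re.comp cgx) (cgx.norm.pow 2) l]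
    congr 1
    funext X Y
    rw [exp_fd hg.c1, exp_sq _ _ _ norm_one, Complex.one_re, Complex.one_im, one_mul, zero_mul,
      add_zero]
  have h2 : JJ (fun X Y => ‖fderiv ℝ (fun z => z + (l : ℂ) * g z) (X + (tn n * Y : ℝ) * I) I‖ ^ 2) =
      1 + (2 * l * JJ (fun X Y => (fderiv ℝ g (X + (tn n * Y : ℝ) * I) I).im) +
        l ^ 2 * JJ (fun X Y => ‖fderiv ℝ g (X + (tn n * Y : ℝ) * I) I‖ ^ 2)) := by
    rw [← exp_jcomb (f := fun X Y => (fderiv ℝ g (X + (tn n * Y : ℝ) * I) I).im)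
      (g := fun X Y => ‖fderiv ℝ g (X + (tn n * Y : ℝ) * I) I‖ ^ 2)
      (Complex.continuous_im.comp cgy) (cgy.norm.pow 2) l]
    congr 1
    funext X Y
    rw [exp_fd hg.c1, exp_sq _ _ _ Complex.norm_I, Complex.I_re, Complex.I_im, one_mul, zero_mul,
      zero_add]
  have h3 := (jj_cross hn hg).1
  unfold E0 Hn Ht
  rw [h1, h2, h3]
  ring

theorem exp_B {g : ℂ → ℂ} (hg : Tst n g) (l : ℝ) :
    B1 n (fun z => z + l * g z) = 2 * Pool.Agent.H45.SN.yo (tn n) + 8 * tn n * Ka n g * l +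
      l ^ 2 * (2 * Mg n g) := by
  have hgc := hg.c1.continuous
  have cpt : Continuous (fun Y : ℝ => (1 : ℂ) + (tn n * Y : ℝ) * I) := by fun_prop
  have cg : Continuous (fun Y : ℝ => g (1 + (tn n * Y : ℝ) * I)) := hgc.comp cpt
  have cre : Continuous (fun Y : ℝ => (g (1 + (tn n * Y : ℝ) * I)).re) :=
    Complex.continuous_re.comp cg
  have cim : Continuous (fun Y : ℝ => (g (1 + (tn n * Y : ℝ) * I)).im) :=
    Complex.continuous_im.comp cg
  have hint : ∀ f : ℝ → ℝ, Continuous f → IntervalIntegrable f volume (-1) 1 :=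
    fun f hf => hf.intervalIntegrable _ _
  have m1 : ∫ Y in (-1 : ℝ)..1, (g (1 + (tn n * Y : ℝ) * I)).re = 0 := by
    have hi : IntervalIntegrable (fun Y : ℝ => g (1 + (tn n * Y : ℝ) * I)) volume (-1) 1 :=
      cg.intervalIntegrable _ _
    have := intervalIntegral.intervalIntegral_re hi
    simp only [hg.mean, map_zero] at this
    exact this
  have m2 : ∫ Y in (-1 : ℝ)..1, Y * (g (1 + (tn n * Y : ℝ) * I)).im = 4 * Ka n g := by
    unfold Ka
    ring
  have m3 : ∫ Y in (-1 : ℝ)..1, ‖g (1 + (tn n * Y : ℝ) * I)‖ ^ 2 = 2 * Mg n g := by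
    unfold Mg
    ring
  have m4 : ∫ Y in (-1 : ℝ)..1, (1 + tn n ^ 2 * Y ^ 2) = 2 * Pool.Agent.H45.SN.yo (tn n) := by
    have e : ∫ Y in (-1 : ℝ)..1, (1 + tn n ^ 2 * Y ^ 2) =
        (∫ Y in (-1 : ℝ)..1, (1 : ℝ)) + ∫ Y in (-1 : ℝ)..1, tn n ^ 2 * Y ^ 2 :=
      intervalIntegral.integral_add (hint _ continuous_const) (hint _ (by fun_prop))
    rw [e, intervalIntegral.integral_const_mul, integral_pow, intervalIntegral.integral_const]
    unfold Pool.Agent.H45.SN.yo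
    norm_num
    ring
  have hp : ∀ Y : ℝ, ‖(1 + (tn n * Y : ℝ) * I : ℂ) + l * g (1 + (tn n * Y : ℝ) * I)‖ ^ 2 =
      (1 + tn n ^ 2 * Y ^ 2) + (2 * l * (g (1 + (tn n * Y : ℝ) * I)).re +
        (2 * l * tn n * (Y * (g (1 + (tn n * Y : ℝ) * I)).im) +
          l ^ 2 * ‖g (1 + (tn n * Y : ℝ) * I)‖ ^ 2)) := by
    intro Y
    generalize g (1 + (tn n * Y : ℝ) * I) = a
    rw [← Complex.normSq_eq_norm_sq, ← Complex.normSq_eq_norm_sq, Complex.normSq_apply,
      Complex.normSq_apply]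
    simp only [Complex.add_re, Complex.add_im, Complex.mul_re, Complex.mul_im, Complex.ofReal_re,
      Complex.ofReal_im, Complex.I_re, Complex.I_im, Complex.one_re, Complex.one_im]
    ring
  have c1 : Continuous (fun Y : ℝ => 1 + tn n ^ 2 * Y ^ 2) := by fun_prop
  have c2 : Continuous (fun Y : ℝ => 2 * l * (g (1 + (tn n * Y : ℝ) * I)).re) :=
    continuous_const.mul cre
  have c3 : Continuous (fun Y : ℝ => 2 * l * tn n * (Y * (g (1 + (tn n * Y : ℝ) * I)).im)) :=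
    continuous_const.mul (continuous_id.mul cim)
  have c4 : Continuous (fun Y : ℝ => l ^ 2 * ‖g (1 + (tn n * Y : ℝ) * I)‖ ^ 2) :=
    continuous_const.mul (cg.norm.pow 2)
  have c5 : Continuous (fun Y : ℝ => 2 * l * tn n * (Y * (g (1 + (tn n * Y : ℝ) * I)).im) +
      l ^ 2 * ‖g (1 + (tn n * Y : ℝ) * I)‖ ^ 2) := c3.add c4
  have c6 : Continuous (fun Y : ℝ => 2 * l * (g (1 + (tn n * Y : ℝ) * I)).re +
      (2 * l * tn n * (Y * (g (1 + (tn n * Y : ℝ) * I)).im) +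
      l ^ 2 * ‖g (1 + (tn n * Y : ℝ) * I)‖ ^ 2)) := c2.add c5
  unfold B1
  simp only [hp]
  rw [intervalIntegral.integral_add (hint _ c1) (hint _ c6),
    intervalIntegral.integral_add (hint _ c2) (hint _ c5),
    intervalIntegral.integral_add (hint _ c3) (hint _ c4),
    intervalIntegral.integral_const_mul, intervalIntegral.integral_const_mul,
    intervalIntegral.integral_const_mul, m1, m2, m3, m4]
  ring

theorem ka_sq {g : ℂ → ℂ} (hg : Tst n g) : 24 * Ka n g ^ 2 ≤ 2 * Mg n g := by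
  have hc : Continuous (rf n g 1) := by
    rw [exp_rf]
    exact hg.c1.continuous.comp (by fun_prop)
  have h1 := q2_nonneg hc
  rw [(exp_qs hg).2] at h1
  linarith

theorem ring_g (hn : 3 ≤ n) {g : ℂ → ℂ} (hg : Tst n g) :
    24 * √2 * Real.cos (Real.pi / n) * Ka n g ^ 2 +
      Real.cos (Real.pi / n) * √6 * (2 * Mg n g - 24 * Ka n g ^ 2) ≤ Hn n g + Ht n g := by
  have h := ring_lemma hn hg.c1
  rw [(exp_qs hg).1, (exp_qs hg).2] at h
  unfold E0 at h
  linarith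

/-- class one -/
theorem tst_cls {g : ℂ → ℂ} (hg : Tst n g) (l : ℝ) : Cls n 1 (fun z => z + l * g z) := by
  refine ⟨contDiff_id.add (contDiff_const.mul hg.c1), fun z => ?_⟩
  simp only [hg.rot]
  ring

end Pool.Agent.H37.ST
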