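import Pool.Agent.H37.ST.SelA

set_option autoImplicit false

/-! Steklov, part B, I5: normalisation. `t = tn n`, `d = cos (π/n)`.

PROOF. `b = (1/2) ∫ f (1 + i t Y) dY` is real (sharp symmetry, `Y ↦ -Y`) and not `0` (`mean0`: otherwise
`E0 ≥ d √2 B1 ≥ c t B1`). `g = f/b - z` is in `Tst` (mean: `(1/2) ∫ (1 + i t Y) dY = 1`). `z + g z = f z / b`, so
`E0 = E0 f/b²`, `B1 = B1 f/b²`. -/

open Complex MeasureTheory Set Finset

namespace Pool.Agent.H37.ST

open Pool.Agent.H32.Stek hiding om perim area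
open Pool.Agent.H32.Q4 hiding om
open Pool.Agent.H32.SG

variable {n : ℕ}

private lemma nrm_JJ (c : ℝ) (F : ℝ → ℝ → ℝ) : JJ (fun X Y => c * F X Y) = c * JJ F := by
  simp only [JJ, intervalIntegral.integral_const_mul]

private lemma nrm_fd {f : ℂ → ℂ} (hf : ContDiff ℝ 1 f) (a : ℝ) (z v : ℂ) :
    ‖fderiv ℝ (fun z => (a : ℂ) * f z) z v‖ ^ 2 = a ^ 2 * ‖fderiv ℝ f z v‖ ^ 2 := by
  have hd : DifferentiableAt ℝ f z := (hf.differentiable one_ne_zero) z
  have h : HasFDerivAt (fun z => (a : ℂ) * f z) ((a : ℂ) • fderiv ℝ f z) z :=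
    hd.hasFDerivAt.const_mul (a : ℂ)
  rw [h.fderiv]
  have h2 : ((a : ℂ) • fderiv ℝ f z) v = (a : ℂ) * fderiv ℝ f z v := rfl
  rw [h2, norm_mul, mul_pow, Complex.norm_real, Real.norm_eq_abs, sq_abs]

private lemma nrm_E0 {f : ℂ → ℂ} (hf : ContDiff ℝ 1 f) (a : ℝ) :
    E0 n (fun z => (a : ℂ) * f z) = a ^ 2 * E0 n f := by
  unfold E0 Hn Ht
  simp only [nrm_fd hf, nrm_JJ]
  ring

private lemma nrm_B1 (f : ℂ → ℂ) (a : ℝ) :
    B1 n (fun z => (a : ℂ) * f z) = a ^ 2 * B1 n f := by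
  unfold B1
  rw [← intervalIntegral.integral_const_mul]
  refine intervalIntegral.integral_congr fun Y _ => ?_
  simp only [norm_mul, mul_pow, Complex.norm_real, Real.norm_eq_abs, sq_abs]

private lemma nrm_line : Continuous fun Y : ℝ => (1 : ℂ) + (tn n * Y : ℝ) * I := by
  fun_prop

private lemma nrm_conj {f : ℂ → ℂ}
    (hs : ∀ z, f ((starRingEnd ℂ) z) = (starRingEnd ℂ) (f z)) :
    (starRingEnd ℂ) (∫ Y in (-1 : ℝ)..1, f (1 + (tn n * Y : ℝ) * I)) =
      ∫ Y in (-1 : ℝ)..1, f (1 + (tn n * Y : ℝ) * I) := by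
  have h1 : (starRingEnd ℂ) (∫ Y in (-1 : ℝ)..1, f (1 + (tn n * Y : ℝ) * I)) =
      ∫ Y in (-1 : ℝ)..1, (starRingEnd ℂ) (f (1 + (tn n * Y : ℝ) * I)) := by
    rw [intervalIntegral.integral_of_le (by norm_num), intervalIntegral.integral_of_le (by norm_num)]
    exact integral_conj.symm
  have h2 : ∀ Y : ℝ, (starRingEnd ℂ) (f (1 + (tn n * Y : ℝ) * I)) =
      (fun Y : ℝ => f (1 + (tn n * Y : ℝ) * I)) (-Y) := by
    intro Y
    rw [← hs]
    congr 1
    rw [map_add, map_one, map_mul, Complex.conj_ofReal, Complex.conj_I]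
    push_cast
    ring
  rw [h1]
  simp only [h2]
  rw [intervalIntegral.integral_comp_neg fun Y : ℝ => f (1 + (tn n * Y : ℝ) * I), neg_neg]

private lemma nrm_one : ∫ Y in (-1 : ℝ)..1, ((1 : ℂ) + (tn n * Y : ℝ) * I) = 2 := by
  have h1 : ∫ Y in (-1 : ℝ)..1, ((1 : ℂ) + (tn n * Y : ℝ) * I) =
      (∫ _ in (-1 : ℝ)..1, (1 : ℂ)) + ∫ Y in (-1 : ℝ)..1, ((tn n * Y : ℝ) : ℂ) * I :=
    intervalIntegral.integral_add (Continuous.intervalIntegrable (by fun_prop) _ _)
      (Continuous.intervalIntegrable (by fun_prop) _ _)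
  rw [h1, intervalIntegral.integral_mul_const, intervalIntegral.integral_ofReal,
    intervalIntegral.integral_const_mul, integral_id, intervalIntegral.integral_const]
  norm_num

theorem nrm (hn : 3 ≤ n) {f : ℂ → ℂ} (hf : Cls n 1 f)
    (hs : ∀ z, f ((starRingEnd ℂ) z) = (starRingEnd ℂ) (f z)) {c : ℝ}
    (hc : c ≤ Real.cos (Real.pi / n) * √2 / tn n) (h : E0 n f < c * (tn n * B1 n f)) :
    ∃ g, Tst n g ∧ E0 n (fun z => z + g z) < c * (tn n * B1 n (fun z => z + g z)) := by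
  have hcont : Continuous fun Y : ℝ => f (1 + (tn n * Y : ℝ) * I) :=
    hf.c1.continuous.comp nrm_line
  set M : ℂ := ∫ Y in (-1 : ℝ)..1, f (1 + (tn n * Y : ℝ) * I) with hM
  have ht := tn_pos hn
  have hB : 0 ≤ B1 n f := by
    unfold B1
    exact intervalIntegral.integral_nonneg (by norm_num) fun Y _ => sq_nonneg _
  have hMr : (M.re : ℂ) = M := by
    have h1 : (starRingEnd ℂ) M = M := nrm_conj hs
    exact Complex.conj_eq_iff_re.1 h1
  have hM0 : M ≠ 0 := by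
    intro h0
    have h1 := mean0 hn hf.c1 h0
    have h2 : c * (tn n * B1 n f) ≤ Real.cos (Real.pi / n) * √2 * B1 n f := by
      have h3 : c * tn n ≤ Real.cos (Real.pi / n) * √2 := (le_div_iff₀ ht).1 hc
      calc c * (tn n * B1 n f) = c * tn n * B1 n f := by ring
        _ ≤ _ := mul_le_mul_of_nonneg_right h3 hB
    linarith
  set a : ℝ := (M.re / 2)⁻¹ with ha
  have hMre : M.re ≠ 0 := by
    intro h0
    rw [h0, Complex.ofReal_zero] at hMr
    exact hM0 hMr.symm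
  have ha0 : a ≠ 0 := inv_ne_zero (div_ne_zero hMre two_ne_zero)
  have haM : (a : ℂ) * M = 2 := by
    rw [← hMr, ← Complex.ofReal_mul]
    have : a * M.re = 2 := by
      rw [ha]
      field_simp
    rw [this]
    norm_num
  have hsum : (fun z => z + ((a : ℂ) * f z - z)) = fun z => (a : ℂ) * f z := by
    funext z
    ring
  refine ⟨fun z => (a : ℂ) * f z - z, ⟨?_, ?_, ?_, ?_⟩, ?_⟩
  · exact (contDiff_const.mul hf.c1).sub contDiff_id
  · intro z
    have := hf.rot z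
    rw [pow_one] at this
    show (a : ℂ) * f (Pool.Agent.H32.SG.om n * z) - Pool.Agent.H32.SG.om n * z = _
    rw [this]
    ring
  · intro z
    show (a : ℂ) * f ((starRingEnd ℂ) z) - (starRingEnd ℂ) z = _
    rw [hs, map_sub, map_mul, Complex.conj_ofReal]
  · have h1 : ∫ Y in (-1 : ℝ)..1, ((a : ℂ) * f (1 + (tn n * Y : ℝ) * I) -
        (1 + (tn n * Y : ℝ) * I)) = (a : ℂ) * M - 2 := by
      have hc1 : Continuous fun Y : ℝ => (a : ℂ) * f (1 + (tn n * Y : ℝ) * I) :=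
        continuous_const.mul hcont
      rw [intervalIntegral.integral_sub (hc1.intervalIntegrable _ _)
        (nrm_line.intervalIntegrable _ _), intervalIntegral.integral_const_mul, nrm_one]
    exact h1.trans (by rw [haM, sub_self])
  · rw [hsum, nrm_E0 hf.c1, nrm_B1]
    have ha2 : 0 < a ^ 2 := by positivity
    calc a ^ 2 * E0 n f < a ^ 2 * (c * (tn n * B1 n f)) := mul_lt_mul_of_pos_left h ha2
      _ = _ := by ring

end Pool.Agent.H37.ST
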