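import Pool.Agent.H37.ST.D

set_option autoImplicit false

/-! Steklov, part B, I5: sharp symmetrisation. `t = tn n`.

PROOF of `shp`. `f♯ z = conj (f (conj z))` is of class one (`f (om⁻¹ w) = om⁻¹ f w`, `conj om = om⁻¹`), `C¹` (`Complex.conjCLE`), with
`fderiv f♯ z v = conj (fderiv f (conj z) (conj v))`, so `E0 f♯ = E0 f`, `B1 f♯ = B1 f` (`Y ↦ -Y`; `JJ` is symmetric under `Y ↦ -Y`).
`g1 = (f + f♯)/2`, `g2 = (f - f♯)/(2 i)` are sharp symmetric and of class one; by the parallelogram identity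
`E0 g1 + E0 g2 = (E0 f + E0 f♯)/2 = E0 f`, the same for `B1` (all integrands are continuous). So one of them satisfies the strict inequality. -/

open Complex MeasureTheory Set Finset

namespace Pool.Agent.H37.ST

open Pool.Agent.H32.Stek hiding om perim area
open Pool.Agent.H32.Q4 hiding om
open Pool.Agent.H32.SG

variable {n : ℕ}

private theorem Shp_in {h1 h2 k : ℝ → ℝ} (c1 : Continuous h1) (c2 : Continuous h2)
    (ck : Continuous k) (h : ∀ Y, h1 Y + h2 Y = (k Y + k (-Y)) / 2) (a : ℝ) :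
    (∫ Y in (-a)..a, h1 Y) + ∫ Y in (-a)..a, h2 Y = ∫ Y in (-a)..a, k Y := by
  rw [← intervalIntegral.integral_add (c1.intervalIntegrable _ _) (c2.intervalIntegrable _ _)]
  simp only [h]
  have hk2 : Continuous fun Y : ℝ => k (-Y) := ck.comp continuous_neg
  rw [intervalIntegral.integral_div, intervalIntegral.integral_add (ck.intervalIntegrable _ _)
    (hk2.intervalIntegrable _ _)]
  have h3 := intervalIntegral.integral_comp_neg (a := -a) (b := a) k
  rw [neg_neg] at h3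
  rw [h3]
  ring

private theorem Shp_outc {h : ℝ → ℝ → ℝ} (c : Continuous fun z : ℝ × ℝ => h z.1 z.2) :
    Continuous fun X : ℝ => ∫ Y in (-X)..X, h X Y := by
  have e : (fun X : ℝ => ∫ Y in (-X)..X, h X Y) =
      fun X : ℝ => (∫ Y in (0 : ℝ)..X, h X Y) - ∫ Y in (0 : ℝ)..(-X), h X Y := by
    funext X
    have hX : Continuous (h X) := c.comp (continuous_const.prodMk continuous_id)
    rw [intervalIntegral.integral_interval_sub_left (hX.intervalIntegrable _ _)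
      (hX.intervalIntegrable _ _)]
  rw [e]
  have c' : Continuous (Function.uncurry h) := c
  exact (intervalIntegral.continuous_parametric_intervalIntegral_of_continuous c' continuous_id).sub
    (intervalIntegral.continuous_parametric_intervalIntegral_of_continuous c' continuous_neg)

private theorem Shp_JJ {h1 h2 k : ℝ → ℝ → ℝ} (c1 : Continuous fun z : ℝ × ℝ => h1 z.1 z.2)
    (c2 : Continuous fun z : ℝ × ℝ => h2 z.1 z.2) (ck : Continuous fun z : ℝ × ℝ => k z.1 z.2)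
    (h : ∀ X Y, h1 X Y + h2 X Y = (k X Y + k X (-Y)) / 2) : JJ h1 + JJ h2 = JJ k := by
  unfold JJ
  rw [← intervalIntegral.integral_add ((Shp_outc c1).intervalIntegrable _ _)
    ((Shp_outc c2).intervalIntegrable _ _)]
  refine intervalIntegral.integral_congr fun X _ => ?_
  exact Shp_in (c1.comp (continuous_const.prodMk continuous_id))
    (c2.comp (continuous_const.prodMk continuous_id))
    (ck.comp (continuous_const.prodMk continuous_id)) (h X) X

private theorem Shp_par {c1 c2 : ℂ} (h1 : ‖c1‖ = 1 / 2) (h2 : ‖c2‖ = 1 / 2) (A B : ℂ) :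
    ‖c1 * (A + B)‖ ^ 2 + ‖c2 * (A - B)‖ ^ 2 = (‖A‖ ^ 2 + ‖B‖ ^ 2) / 2 := by
  have h := parallelogram_law_with_norm ℝ A B
  rw [norm_mul, norm_mul, h1, h2]
  linarith

private theorem Shp_conj (X t Y : ℝ) : (starRingEnd ℂ) ((X : ℂ) + ((t * Y : ℝ) : ℂ) * I) =
    (X : ℂ) + ((t * (-Y) : ℝ) : ℂ) * I := by
  apply Complex.ext <;> simp

theorem shp (hn : 3 ≤ n) {f : ℂ → ℂ} (hf : Cls n 1 f) {c : ℝ} (h : E0 n f < c * (tn n * B1 n f)) :
    ∃ g, Cls n 1 g ∧ (∀ z, g ((starRingEnd ℂ) z) = (starRingEnd ℂ) (g z)) ∧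
      E0 n g < c * (tn n * B1 n g) := by
  obtain ⟨fs, hfs⟩ : ∃ fs : ℂ → ℂ, fs = fun z => (starRingEnd ℂ) (f ((starRingEnd ℂ) z)) :=
    ⟨_, rfl⟩
  have hd := fun z => (hf.c1.differentiable (by norm_num) z).hasFDerivAt
  have hfd : Continuous (fderiv ℝ f) := hf.c1.continuous_fderiv (by norm_num)
  have hfs1 : ContDiff ℝ 1 fs := by
    rw [hfs]
    exact (Complex.conjCLE : ℂ →L[ℝ] ℂ).contDiff.comp
      (hf.c1.comp (Complex.conjCLE : ℂ →L[ℝ] ℂ).contDiff)
  have hfsd : ∀ z, HasFDerivAt fs ((Complex.conjCLE : ℂ →L[ℝ] ℂ).comp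
      ((fderiv ℝ f ((starRingEnd ℂ) z)).comp (Complex.conjCLE : ℂ →L[ℝ] ℂ))) z := by
    intro z
    rw [hfs]
    exact (Complex.conjCLE : ℂ →L[ℝ] ℂ).hasFDerivAt.comp z
      ((hd _).comp z (Complex.conjCLE : ℂ →L[ℝ] ℂ).hasFDerivAt)
  obtain ⟨a1, ha1⟩ : ∃ a : ℂ, a = 2⁻¹ := ⟨_, rfl⟩
  obtain ⟨a2, ha2⟩ : ∃ a : ℂ, a = (2 * I)⁻¹ := ⟨_, rfl⟩
  have na1 : ‖a1‖ = 1 / 2 := by rw [ha1]; simp
  have na2 : ‖a2‖ = 1 / 2 := by rw [ha2]; simp
  obtain ⟨g1, hg1⟩ : ∃ g : ℂ → ℂ, g = fun z => a1 * (f z + fs z) := ⟨_, rfl⟩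
  obtain ⟨g2, hg2⟩ : ∃ g : ℂ → ℂ, g = fun z => a2 * (f z - fs z) := ⟨_, rfl⟩
  have c1 : ContDiff ℝ 1 g1 := by
    rw [hg1]
    exact contDiff_const.mul (hf.c1.add hfs1)
  have c2 : ContDiff ℝ 1 g2 := by
    rw [hg2]
    exact contDiff_const.mul (hf.c1.sub hfs1)
  have d1 : ∀ z v, fderiv ℝ g1 z v = a1 * (fderiv ℝ f z v +
      (starRingEnd ℂ) (fderiv ℝ f ((starRingEnd ℂ) z) ((starRingEnd ℂ) v))) := by
    intro z v
    have h1 := ((hd z).add (hfsd z)).const_mul a1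
    have h2 : (fun y => a1 * (f + fs) y) = g1 := by
      rw [hg1]
      rfl
    rw [h2] at h1
    rw [h1.fderiv]
    rfl
  have d2 : ∀ z v, fderiv ℝ g2 z v = a2 * (fderiv ℝ f z v -
      (starRingEnd ℂ) (fderiv ℝ f ((starRingEnd ℂ) z) ((starRingEnd ℂ) v))) := by
    intro z v
    have h1 := ((hd z).sub (hfsd z)).const_mul a2
    have h2 : (fun y => a2 * (f - fs) y) = g2 := by
      rw [hg2]
      rfl
    rw [h2] at h1
    rw [h1.fderiv]
    rfl
  -- class one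
  have hom0 : om n ≠ 0 := by
    rw [← norm_pos_iff, norm_om]
    exact one_pos
  have homc : (starRingEnd ℂ) (om n) * om n = 1 := by
    rw [mul_comm, Complex.mul_conj, Complex.normSq_eq_norm_sq, norm_om]
    norm_num
  have hfsr : ∀ z, fs (om n * z) = om n ^ 1 * fs z := by
    intro z
    rw [hfs]
    simp only [map_mul, pow_one]
    have h1 := hf.rot ((starRingEnd ℂ) (om n) * (starRingEnd ℂ) z)
    rw [← mul_assoc, mul_comm (om n), homc, one_mul, pow_one] at h1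
    rw [h1, map_mul, ← mul_assoc, mul_comm (om n), homc, one_mul]
  have r1 : ∀ z, g1 (om n * z) = om n ^ 1 * g1 z := by
    intro z
    rw [hg1]
    simp only
    rw [hf.rot, hfsr]
    ring
  have r2 : ∀ z, g2 (om n * z) = om n ^ 1 * g2 z := by
    intro z
    rw [hg2]
    simp only
    rw [hf.rot, hfsr]
    ring
  -- symmetry
  have s1 : ∀ z, g1 ((starRingEnd ℂ) z) = (starRingEnd ℂ) (g1 z) := by
    intro z
    rw [hg1, hfs, ha1]
    simp only [map_mul, map_add, Complex.conj_conj, map_inv₀, map_ofNat]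
    ring
  have s2 : ∀ z, g2 ((starRingEnd ℂ) z) = (starRingEnd ℂ) (g2 z) := by
    intro z
    rw [hg2, hfs, ha2]
    simp only [map_mul, map_sub, Complex.conj_conj, map_inv₀, map_ofNat, Complex.conj_I]
    have h1 : (2 * -I : ℂ)⁻¹ = -(2 * I)⁻¹ := by
      rw [mul_neg, inv_neg]
    rw [h1]
    ring
  -- energies
  have key : ∀ v : ℂ, (starRingEnd ℂ) v = v ∨ (starRingEnd ℂ) v = -v →
      JJ (fun X Y => ‖fderiv ℝ g1 (X + (tn n * Y : ℝ) * I) v‖ ^ 2) +
        JJ (fun X Y => ‖fderiv ℝ g2 (X + (tn n * Y : ℝ) * I) v‖ ^ 2) =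
        JJ (fun X Y => ‖fderiv ℝ f (X + (tn n * Y : ℝ) * I) v‖ ^ 2) := by
    intro v hv
    have hc : ∀ F : ℂ → ℂ, ContDiff ℝ 1 F →
        Continuous fun z : ℝ × ℝ => ‖fderiv ℝ F (z.1 + (tn n * z.2 : ℝ) * I) v‖ ^ 2 := by
      intro F hF
      have h1 : Continuous (fderiv ℝ F) := hF.continuous_fderiv (by norm_num)
      have h2 : Continuous fun z : ℝ × ℝ => (z.1 : ℂ) + ((tn n * z.2 : ℝ) : ℂ) * I := by fun_prop
      exact (((h1.comp h2).clm_apply continuous_const).norm).pow 2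
    refine Shp_JJ (hc g1 c1) (hc g2 c2) (hc f hf.c1) fun X Y => ?_
    rw [d1, d2, Shp_par na1 na2, Complex.norm_conj, Shp_conj]
    rcases hv with hv | hv
    · rw [hv]
    · rw [hv, map_neg, norm_neg]
  have hE : E0 n g1 + E0 n g2 = E0 n f := by
    unfold E0 Hn Ht
    rw [← key 1 (Or.inl (map_one _)), ← key I (Or.inr Complex.conj_I)]
    ring
  have hB : B1 n g1 + B1 n g2 = B1 n f := by
    unfold B1
    have hc : ∀ F : ℂ → ℂ, ContDiff ℝ 1 F →
        Continuous fun Y : ℝ => ‖F (1 + (tn n * Y : ℝ) * I)‖ ^ 2 := by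
      intro F hF
      have h1 := hF.continuous
      fun_prop
    refine Shp_in (hc g1 c1) (hc g2 c2) (hc f hf.c1) (fun Y => ?_) 1
    rw [hg1, hg2]
    simp only
    rw [Shp_par na1 na2, hfs]
    simp only
    rw [Complex.norm_conj]
    have h1 := Shp_conj 1 (tn n) Y
    rw [Complex.ofReal_one] at h1
    rw [h1]
  rw [← hE, ← hB] at h
  by_cases hh : E0 n g1 < c * (tn n * B1 n g1)
  · exact ⟨g1, ⟨c1, r1⟩, s1, hh⟩
  · refine ⟨g2, ⟨c2, r2⟩, s2, ?_⟩
    rw [not_lt] at hh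
    have e : c * (tn n * (B1 n g1 + B1 n g2)) =
      c * (tn n * B1 n g1) + c * (tn n * B1 n g2) := by ring
    rw [e] at h
    linarith

end Pool.Agent.H37.ST
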