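import Pool.Agent.H37.ST.SelC
import Pool.Agent.H37.ST.Shp
import Pool.Agent.H37.ST.Nrm
import Pool.Agent.H37.ST.Exp
import Pool.Agent.H37.ST.DuB

set_option autoImplicit false

/-! Steklov, part B, I8: compactness. `t = tn n`, `d = cos (π/n)`, `s = sig n (rg n) (Up n)`.

Near minimisers: `e = δ/(i+1)`, `s + e ≤ s + δ < d √2/t` (`sig_le_yo`, `K_leg`); `sel`, `shp`, `nrm`.
Bounds: `exp_E`, `exp_B` with `l = 1`: `2 t + H ≤ c t (2 yo + 8 t k + 2 M)`; `ring_g` and `ka_sq` give `H ≥ 2 √2 d M` and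
`k² ≤ M/12`; so `(1 - c t/(√2 d)) H ≤ c t (2 yo + 8 t √(M/12))`, `M ≤ H/(2 √2 d)`: `H` is bounded. -/

open Complex MeasureTheory Set Finset Filter Topology

namespace Pool.Agent.H37.ST

open Pool.Agent.H32.Stek hiding om perim area
open Pool.Agent.H32.Q4 hiding om
open Pool.Agent.H32.SG

variable {n : ℕ}

private theorem cmp_JJ_nonneg {F : ℝ → ℝ → ℝ} (h : ∀ X Y, 0 ≤ F X Y) : 0 ≤ JJ F := by
  unfold JJ
  refine intervalIntegral.integral_nonneg zero_le_one fun X hX => ?_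
  exact intervalIntegral.integral_nonneg (by linarith [hX.1]) fun Y _ => h X Y

theorem Hn_nonneg (hn : 3 ≤ n) (g : ℂ → ℂ) : 0 ≤ Hn n g :=
  mul_nonneg (tn_pos hn).le (cmp_JJ_nonneg fun _ _ => by positivity)

theorem Ht_nonneg (hn : 3 ≤ n) (g : ℂ → ℂ) : 0 ≤ Ht n g :=
  mul_nonneg (tn_pos hn).le (cmp_JJ_nonneg fun _ _ => by positivity)

theorem Mg_nonneg (g : ℂ → ℂ) : 0 ≤ Mg n g := by
  unfold Mg
  refine mul_nonneg (by norm_num) (intervalIntegral.integral_nonneg (by norm_num) fun Y _ => ?_)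
  positivity

theorem B1_nonneg (g : ℂ → ℂ) : 0 ≤ B1 n g :=
  intervalIntegral.integral_nonneg (by norm_num) fun Y _ => by positivity

private theorem cmp_cos (hn : 3 ≤ n) : 0 < Real.cos (Real.pi / n) := by
  have hpi := Real.pi_pos
  have hn0 : (0 : ℝ) < n := by exact_mod_cast (by omega : 0 < n)
  have hn3 : (3 : ℝ) ≤ n := by exact_mod_cast hn
  have h1 : Real.pi / n < Real.pi / 2 := by
    rw [div_lt_div_iff_of_pos_left hpi hn0 (by norm_num)]
    linarith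
  have h2 : 0 < Real.pi / n := by positivity
  exact Real.cos_pos_of_mem_Ioo ⟨by linarith, h1⟩

/-- lower bounds of the energy of `g` -/
theorem ring_g1 (hn : 3 ≤ n) {g : ℂ → ℂ} (hg : Tst n g) :
    Real.cos (Real.pi / n) * √2 * (2 * Mg n g) ≤ Hn n g + Ht n g ∧
      Real.cos (Real.pi / n) * √2 * (24 * Ka n g ^ 2) ≤ Hn n g + Ht n g := by
  have h1 := ring_g hn hg
  have h2 := ka_sq hg
  have hd := cmp_cos hn
  have h26 : √(2 : ℝ) ≤ √6 := Real.sqrt_le_sqrt (by norm_num)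
  have h20 : (0 : ℝ) ≤ √2 := Real.sqrt_nonneg 2
  have h3 : Real.cos (Real.pi / n) * √2 * (2 * Mg n g - 24 * Ka n g ^ 2) ≤
      Real.cos (Real.pi / n) * √6 * (2 * Mg n g - 24 * Ka n g ^ 2) :=
    mul_le_mul_of_nonneg_right (mul_le_mul_of_nonneg_left h26 hd.le) (by linarith)
  have h4 : 0 ≤ Real.cos (Real.pi / n) * √2 * (2 * Mg n g - 24 * Ka n g ^ 2) :=
    mul_nonneg (mul_nonneg hd.le h20) (by linarith)
  constructor
  · have : Real.cos (Real.pi / n) * √2 * (2 * Mg n g) = 24 * √2 * Real.cos (Real.pi / n) * Ka n g ^ 2 +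
      Real.cos (Real.pi / n) * √2 * (2 * Mg n g - 24 * Ka n g ^ 2) := by ring
    linarith
  · have : Real.cos (Real.pi / n) * √2 * (24 * Ka n g ^ 2) =
      24 * √2 * Real.cos (Real.pi / n) * Ka n g ^ 2 := by ring
    linarith

private theorem cmp_seq (hn : 5 ≤ n) {δ : ℝ} (hδ : 0 < δ)
    (hc : sig n (rg n) (Up n) + δ ≤ Real.cos (Real.pi / n) * √2 / tn n) : ∃ g, Tst n g ∧
      2 * tn n + (Hn n g + Ht n g) ≤ (sig n (rg n) (Up n) + δ) * (tn n *
        (2 * Pool.Agent.H45.SN.yo (tn n) + 8 * tn n * Ka n g + 2 * Mg n g)) := by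
  have hn3 : 3 ≤ n := by omega
  obtain ⟨f, hf1, hf2⟩ := sel hn hδ
  obtain ⟨f', hf3, hf4, hf5⟩ := shp hn3 hf1 hf2
  obtain ⟨g, hg1, hg2⟩ := nrm hn3 hf3 hf4 hc hf5
  refine ⟨g, hg1, ?_⟩
  have e1 : (fun z => z + g z) = fun z => z + ((1 : ℝ) : ℂ) * g z := by
    funext z
    simp
  rw [e1, exp_E hn3 hg1, exp_B hg1] at hg2
  refine le_of_eq_of_le ?_ (hg2.le.trans (le_of_eq ?_))
  · ring
  · ring

/-- limit data of the regular polygon -/
theorem lim_data (hn : 5 ≤ n) : ∃ (g : ℕ → ℂ → ℂ) (hn' ht M k : ℝ), (∀ i, Tst n (g i)) ∧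
    Tendsto (fun i => Hn n (g i)) atTop (𝓝 hn') ∧ Tendsto (fun i => Ht n (g i)) atTop (𝓝 ht) ∧
    Tendsto (fun i => Mg n (g i)) atTop (𝓝 M) ∧ Tendsto (fun i => Ka n (g i)) atTop (𝓝 k) ∧
    2 * tn n + (hn' + ht) ≤ sig n (rg n) (Up n) * (tn n *
      (2 * Pool.Agent.H45.SN.yo (tn n) + 8 * tn n * k + 2 * M)) := by
  have hn3 : 3 ≤ n := by omega
  have ht0 := tn_pos hn3
  have hd0 := cmp_cos hn3
  have hs0 := sig_pos hn
  have hs1 := sig_le_yo hn3
  have hleg := Pool.Agent.H45.SN.K_leg hn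
  have htt : Pool.Agent.H45.SN.tn n = tn n := rfl
  rw [htt] at hleg
  have hyo : 1 ≤ Pool.Agent.H45.SN.yo (tn n) := by
    unfold Pool.Agent.H45.SN.yo
    have := sq_nonneg (tn n)
    linarith
  have h20 : (0 : ℝ) < √2 := Real.sqrt_pos.2 (by norm_num)
  have hmain := fun (δ : ℝ) (hδ : 0 < δ)
    (hc : sig n (rg n) (Up n) + δ ≤ Real.cos (Real.pi / n) * √2 / tn n) => cmp_seq hn hδ hc
  have hsc : sig n (rg n) (Up n) < Real.cos (Real.pi / n) * √2 / tn n := by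
    refine lt_of_le_of_lt ?_ hleg
    rw [le_div_iff₀ (by linarith)]
    exact hs1
  set s := sig n (rg n) (Up n) with hs
  set t := tn n with ht
  set d := Real.cos (Real.pi / n) with hd
  set yo := Pool.Agent.H45.SN.yo t with hyod
  set c := d * √2 / t with hc
  have hct : c * t = d * √2 := by
    rw [hc]
    field_simp
  obtain ⟨δ, hδ0, hδ1⟩ : ∃ δ, 0 < δ ∧ s + δ < c := ⟨(c - s) / 2, by linarith, by linarith⟩
  -- the sequence
  have hε : ∀ i : ℕ, 0 < δ / ((i : ℝ) + 1) ∧ δ / ((i : ℝ) + 1) ≤ δ := by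
    intro i
    have hi : (0 : ℝ) ≤ i := Nat.cast_nonneg i
    refine ⟨by positivity, ?_⟩
    rw [div_le_iff₀ (by positivity)]
    nlinarith
  have hex : ∀ i : ℕ, ∃ g, Tst n g ∧ 2 * t + (Hn n g + Ht n g) ≤ (s + δ / ((i : ℝ) + 1)) * (t *
        (2 * yo + 8 * t * Ka n g + 2 * Mg n g)) := fun i =>
    hmain _ (hε i).1 (by linarith [(hε i).2])
  choose g hg1 hg2 using hex
  -- the bound
  set K : ℝ := 8 * (s + δ) * t ^ 2 with hK
  set θ : ℝ := (s + δ) / c with hθ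
  have hc0 : 0 < c := by linarith
  have hθ1 : θ < 1 := by
    rw [hθ, div_lt_one hc0]
    exact hδ1
  have hθ0 : 0 < θ := div_pos (by linarith) hc0
  set η : ℝ := (1 - θ) * (12 * (d * √2)) with hη
  have hη0 : 0 < η := by
    rw [hη]
    have : 0 < 1 - θ := by linarith
    positivity
  set C : ℝ := 2 * (2 * (s + δ) * t * yo + K ^ 2 / (4 * η)) / (1 - θ) with hC
  have hbd : ∀ i, Hn n (g i) + Ht n (g i) ≤ C := by
    intro i
    obtain ⟨r1, r2⟩ := ring_g1 hn3 (hg1 i)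
    have h1 := hg2 i
    have hMg := Mg_nonneg (n := n) (g i)
    have hB : 0 ≤ 2 * yo + 8 * t * Ka n (g i) + 2 * Mg n (g i) := by
      have h2 := exp_B (hg1 i) 1
      have h3 := B1_nonneg (n := n) (fun z => z + ((1 : ℝ) : ℂ) * g i z)
      rw [h2] at h3
      linarith
    have h2 : (s + δ / ((i : ℝ) + 1)) * (t * (2 * yo + 8 * t * Ka n (g i) + 2 * Mg n (g i))) ≤
        (s + δ) * (t * (2 * yo + 8 * t * Ka n (g i) + 2 * Mg n (g i))) :=
      mul_le_mul_of_nonneg_right (by linarith [(hε i).2]) (mul_nonneg ht0.le hB)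
    have h3 : (s + δ) * t * (2 * Mg n (g i)) ≤ θ * (Hn n (g i) + Ht n (g i)) := by
      have e : (s + δ) * t * (2 * Mg n (g i)) = θ * (d * √2 * (2 * Mg n (g i))) := by
        rw [← hct, hθ]
        field_simp
      rw [e]
      exact mul_le_mul_of_nonneg_left r1 hθ0.le
    have h4 : K * Ka n (g i) ≤ η * Ka n (g i) ^ 2 + K ^ 2 / (4 * η) := by
      have h5 : 0 ≤ (2 * η * Ka n (g i) - K) ^ 2 / (4 * η) := by positivity
      have h6 : (2 * η * Ka n (g i) - K) ^ 2 / (4 * η) =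
          η * Ka n (g i) ^ 2 - K * Ka n (g i) + K ^ 2 / (4 * η) := by
        field_simp
        ring
      linarith
    have h5 : η * Ka n (g i) ^ 2 ≤ (1 - θ) / 2 * (Hn n (g i) + Ht n (g i)) := by
      have e : η * Ka n (g i) ^ 2 = (1 - θ) / 2 * (d * √2 * (24 * Ka n (g i) ^ 2)) := by
        rw [hη]
        ring
      rw [e]
      exact mul_le_mul_of_nonneg_left r2 (by linarith)
    have h6 : (1 - θ) / 2 * (Hn n (g i) + Ht n (g i)) ≤ 2 * (s + δ) * t * yo + K ^ 2 / (4 * η) := by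
      have e : (s + δ) * (t * (2 * yo + 8 * t * Ka n (g i) + 2 * Mg n (g i))) =
          2 * (s + δ) * t * yo + K * Ka n (g i) + (s + δ) * t * (2 * Mg n (g i)) := by
        rw [hK]
        ring
      nlinarith
    rw [hC, le_div_iff₀ (by linarith)]
    linarith
  have hC0 : 0 ≤ C := by
    have h1 := hbd 0
    have h2 := Hn_nonneg hn3 (g 0)
    have h3 := Ht_nonneg hn3 (g 0)
    linarith
  have hdd : 0 < d * √2 := by positivity
  -- compactness
  have hmem : ∀ i, (Hn n (g i), Ht n (g i), Mg n (g i), Ka n (g i)) ∈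
      Set.Icc ((0, 0, 0, -(C / (d * √2) + 1)) : ℝ × ℝ × ℝ × ℝ)
        (C, C, C / (d * √2), C / (d * √2) + 1) := by
    intro i
    obtain ⟨r1, r2⟩ := ring_g1 hn3 (hg1 i)
    have h1 := hbd i
    have h2 := Hn_nonneg hn3 (g i)
    have h3 := Ht_nonneg hn3 (g i)
    have h4 := Mg_nonneg (n := n) (g i)
    have h5 : Mg n (g i) ≤ C / (d * √2) := by
      rw [le_div_iff₀ hdd]
      nlinarith
    have h6 : Ka n (g i) ^ 2 ≤ C / (d * √2) := by
      rw [le_div_iff₀ hdd]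
      nlinarith [sq_nonneg (Ka n (g i))]
    have h7 : 0 ≤ C / (d * √2) := by positivity
    have h8 : |Ka n (g i)| ≤ C / (d * √2) + 1 := by
      rcases le_total |Ka n (g i)| 1 with h9 | h9
      · linarith
      · have : |Ka n (g i)| ≤ |Ka n (g i)| ^ 2 := by nlinarith
        rw [sq_abs] at this
        linarith
    obtain ⟨h9, h10⟩ := abs_le.1 h8
    exact ⟨⟨h2, h3, h4, h9⟩, ⟨by linarith, by linarith, h5, h10⟩⟩
  obtain ⟨a, _, φ, hφ, hlim⟩ := isCompact_Icc.tendsto_subseq hmem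
  have l1 : Tendsto (fun i => Hn n (g (φ i))) atTop (𝓝 a.1) := (continuous_fst.tendsto a).comp hlim
  have l2 : Tendsto (fun i => Ht n (g (φ i))) atTop (𝓝 a.2.1) :=
    ((continuous_fst.comp continuous_snd).tendsto a).comp hlim
  have l3 : Tendsto (fun i => Mg n (g (φ i))) atTop (𝓝 a.2.2.1) :=
    ((continuous_fst.comp (continuous_snd.comp continuous_snd)).tendsto a).comp hlim
  have l4 : Tendsto (fun i => Ka n (g (φ i))) atTop (𝓝 a.2.2.2) :=
    ((continuous_snd.comp (continuous_snd.comp continuous_snd)).tendsto a).comp hlim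
  refine ⟨fun i => g (φ i), a.1, a.2.1, a.2.2.1, a.2.2.2, fun i => hg1 _, l1, l2, l3, l4, ?_⟩
  have l5 : Tendsto (fun i : ℕ => δ / (((φ i : ℕ) : ℝ) + 1)) atTop (𝓝 0) := by
    have h1 : Tendsto (fun i : ℕ => δ / ((i : ℝ) + 1)) atTop (𝓝 0) := by
      have := tendsto_one_div_add_atTop_nhds_zero_nat (𝕜 := ℝ)
      have h2 := this.const_mul δ
      rw [mul_zero] at h2
      refine h2.congr fun i => ?_
      ring
    exact h1.comp hφ.tendsto_atTop
  have r1 : Tendsto (fun i => 2 * t + (Hn n (g (φ i)) + Ht n (g (φ i)))) atTop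
      (𝓝 (2 * t + (a.1 + a.2.1))) := (l1.add l2).const_add _
  have r2 : Tendsto (fun i => (s + δ / (((φ i : ℕ) : ℝ) + 1)) * (t *
      (2 * yo + 8 * t * Ka n (g (φ i)) + 2 * Mg n (g (φ i))))) atTop
      (𝓝 ((s + 0) * (t * (2 * yo + 8 * t * a.2.2.2 + 2 * a.2.2.1)))) :=
    (l5.const_add s).mul ((((l4.const_mul (8 * t)).const_add (2 * yo)).add
      (l3.const_mul 2)).const_mul t)
  rw [add_zero] at r2
  exact le_of_tendsto_of_tendsto' r1 r2 fun i => hg2 (φ i)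

end Pool.Agent.H37.ST
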