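import Pool.Agent.H45.SN.K5

set_option autoImplicit false

/-! Steklov, part B, I9: the constants (real algebra, uses `K_one`, `K_two`, `K_leg` of SN/K5). `t = tn n`, `d = cos (π/n)`,
`a0 = 2 n t - s (2 n t yo)`, `e2 t = t √(1+t²)/√6 = t/(d √6)` (`√(1+t²) = 1/d`).

PROOF. `a0 ≥ 0` (`s yo ≤ 1`). `A = a0/(s t³)`: `1/s = yo + A t²/(2n)`, `k = A t/(4n)`.
Case `a0 = 0`: then `k = 0`, `A = 0`, `n H = 2 n t s M`; `h3` gives `H ≥ d √6 2 M ≥ 2 √2 d M`, and `s < d √2/t` (`K_leg`, `s ≤ 1/yo`), so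
`2 √2 d M ≤ H = 2 t s M` forces `M = 0`, `H = 0`; `b = 1/n`.
Case `a0 > 0`: `b = H/a0`. `n b ≥ 1` from `n H - a0 = 2 n t s M ≥ 0`. `h3` times `e2 = t/(d √6)`, with `2 t M = (H - a0/n)/s`:
`e2 H ≥ (H - a0/n)/s - 24 t k² (1 - 1/√3)`, and `24 t k² = 24 t A² t²/(16 n²) = (3/2) A a0/(n² s)`; divide by `a0`:
`b (1/s - e2) ≤ (1 + k0 A/n)/(n s)` (`k0 = (3/2)(1 - 1/√3)`). So `n b s (1/s - e2) ≤ 1 + k0 A/n` (*).
`h4`: `A² t³/n ≤ Qh b a0 = Qh b A s t³`, `A ≤ n b s Qh`. With (*) (`1/s > e2`: `e2 < yo` by `K_two` with `A = 0`…):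
`A (1/s - e2) ≤ Qh (1 + k0 A/n)`, which is the hypothesis of `K_one`; so `1.7 A ≤ yo³`. Then (*) and `1/s ≥ yo`:
`n b (yo - e2) ≤ n b (1/s - e2) yo s ... ≤ (1 + k0 A/n) yo` (as `n b (1 - e2 s) ≤ 1 + k0 A/n` and `1 - e2 s ≥ 1 - e2/yo`), and `K_two`
gives `n b ≤ 1.63`. -/

namespace Pool.Agent.H37.ST

open Pool.Agent.H45.SN

private lemma Cst_e2 {n : ℕ} (hn : 5 ≤ n) :
    0 < Real.cos (Real.pi / n) ∧ e2 (tn n) * (Real.cos (Real.pi / n) * √6) = tn n := by
  have hn0 : (5 : ℝ) ≤ n := by exact_mod_cast hn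
  have hφ : 0 < Real.pi / n := by
    have := Real.pi_pos
    positivity
  have hφ2 : Real.pi / n < Real.pi / 2 :=
    div_lt_div_of_pos_left Real.pi_pos (by norm_num) (by linarith)
  have hd : 0 < Real.cos (Real.pi / n) := Real.cos_pos_of_mem_Ioo ⟨by linarith, hφ2⟩
  refine ⟨hd, ?_⟩
  have h6 : (0 : ℝ) < √6 := Real.sqrt_pos.2 (by norm_num)
  have h1 : √(1 + tn n ^ 2) = 1 / Real.cos (Real.pi / n) := by
    rw [Real.sqrt_eq_iff_mul_self_eq (by positivity) (by positivity)]
    unfold tn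
    rw [Real.tan_eq_sin_div_cos]
    have := Real.sin_sq_add_cos_sq (Real.pi / n)
    field_simp
    linarith
  unfold e2
  rw [h1]
  field_simp

/-- the real algebra in the case `s y < 1`, `u = 1 - s y` -/
private lemma Cst_core {N t y d s H M k e Q K : ℝ} (hN : 5 ≤ N) (ht : 0 < t) (hd : 0 < d)
    (hs : 0 < s) (hu : 0 < 1 - s * y) (he : e * (d * √6) = t) (hM : 0 ≤ M)
    (hK : K = 3 / 2 * (1 - 1 / √3)) (h1 : 1 - s * y = 2 * t * s * k)
    (h2 : H = 2 * t * s * M + 2 * t * (1 - s * y))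
    (h3 : 24 * √2 * d * k ^ 2 + d * √6 * (2 * M - 24 * k ^ 2) ≤ H)
    (h4 : 16 * N * t * k ^ 2 ≤ Q * H) :
    1 ≤ H / (2 * t * (1 - s * y)) ∧
      H / (2 * t * (1 - s * y)) * (1 - s * e) ≤ 1 + K * (2 * N * (1 - s * y) / (s * t ^ 2)) / N ∧
      2 * N * (1 - s * y) / (s * t ^ 2) ≤ s * (H / (2 * t * (1 - s * y))) * Q := by
  generalize 1 - s * y = u at hu h1 h2 ⊢
  have hN0 : 0 < N := by linarith
  have hk : k = u / (2 * t * s) := by
    rw [eq_div_iff (by positivity)]
    linarith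
  obtain ⟨β, hβ⟩ : ∃ β, β = H / (2 * t * u) := ⟨_, rfl⟩
  rw [← hβ]
  have hH : H = 2 * t * u * β := by
    rw [hβ]
    field_simp
  have hM' : s * M = u * (β - 1) := by
    have : 2 * t * (s * M) = 2 * t * (u * (β - 1)) := by linarith
    exact mul_left_cancel₀ (by positivity) this
  have hβ1 : 1 ≤ β := by
    by_contra hcon
    rw [not_le] at hcon
    have e1 : u * (β - 1) < 0 := mul_neg_of_pos_of_neg hu (by linarith)
    have e2 : 0 ≤ s * M := mul_nonneg hs.le hM
    linarith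
  refine ⟨hβ1, ?_, ?_⟩
  · have h6 : (0 : ℝ) < √6 := Real.sqrt_pos.2 (by norm_num)
    have h3' : (0 : ℝ) < √3 := Real.sqrt_pos.2 (by norm_num)
    have h26 : √2 = √6 * (1 / √3) := by
      have : √6 = √2 * √3 := by
        rw [← Real.sqrt_mul (by norm_num)]
        norm_num
      rw [this]
      field_simp
    have h33 : 1 / √3 = 1 - 2 / 3 * K := by
      rw [hK]
      ring
    have e1 : d * √6 * (2 * M - 16 * K * k ^ 2) ≤ H := by
      have : d * √6 * (2 * M - 16 * K * k ^ 2) =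
          24 * √2 * d * k ^ 2 + d * √6 * (2 * M - 24 * k ^ 2) := by
        rw [h26, h33]
        ring
      rw [this]
      exact h3
    have he0 : 0 < e := by
      by_contra hcon
      rw [not_lt] at hcon
      have := mul_nonpos_of_nonpos_of_nonneg hcon (by positivity : 0 ≤ d * √6)
      linarith
    have e2 : t * (2 * M - 16 * K * k ^ 2) ≤ e * H := by
      have := mul_le_mul_of_nonneg_left e1 he0.le
      have e3 : e * (d * √6 * (2 * M - 16 * K * k ^ 2)) = t * (2 * M - 16 * K * k ^ 2) := by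
        rw [← he]
        ring
      rw [e3] at this
      exact this
    have e4 : s * (t * (2 * M - 16 * K * k ^ 2)) ≤ s * (e * H) :=
      mul_le_mul_of_nonneg_left e2 hs.le
    have e5 : s * (t * (2 * M - 16 * K * k ^ 2)) =
        2 * t * u * ((β - 1) - K * (2 * N * u / (s * t ^ 2)) / N) := by
      have : s * (t * (2 * M - 16 * K * k ^ 2)) = 2 * t * (s * M) - 16 * K * s * t * k ^ 2 := by
        ring
      rw [this, hM', hk]
      field_simp
      ring
    rw [e5, hH] at e4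
    have e6 : 2 * t * u * ((β - 1) - K * (2 * N * u / (s * t ^ 2)) / N) ≤
        2 * t * u * (s * e * β) := by linarith
    have e7 := le_of_mul_le_mul_left e6 (by positivity)
    linarith
  · have e1 : 16 * N * t * k ^ 2 = 2 * t * u * (2 * N * u / (s * t ^ 2) / s) := by
      rw [hk]
      field_simp
      ring
    rw [e1, hH] at h4
    have e2 : 2 * t * u * (2 * N * u / (s * t ^ 2) / s) ≤ 2 * t * u * (Q * β) := by linarith
    have e3 := le_of_mul_le_mul_left e2 (by positivity)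
    rw [div_le_iff₀ hs] at e3
    linarith

theorem cst {n : ℕ} (hn : 5 ≤ n) {s H M k : ℝ} (hs : 0 < s) (hs1 : s * yo (tn n) ≤ 1)
    (hM : 0 ≤ M) (hH : 0 ≤ H)
    (h1 : 2 * n * tn n - s * (2 * n * tn n * yo (tn n)) = 4 * n * tn n ^ 2 * s * k)
    (h2 : n * H - 2 * n * tn n * s * M = 4 * n * tn n ^ 2 * s * k)
    (h3 : 24 * √2 * Real.cos (Real.pi / n) * k ^ 2 +
      Real.cos (Real.pi / n) * √6 * (2 * M - 24 * k ^ 2) ≤ H)
    (h4 : 16 * n * tn n * k ^ 2 ≤ Qh n (tn n) * H) :
    ∃ A b : ℝ, 0 ≤ A ∧ 1.7 * A ≤ yo (tn n) ^ 3 ∧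
      A * s * tn n ^ 3 = 2 * n * tn n - s * (2 * n * tn n * yo (tn n)) ∧
      k = A * tn n / (4 * n) ∧ H = b * (A * s * tn n ^ 3) ∧ 1 ≤ n * b ∧ n * b ≤ 1.63 := by
  have hn5 : (5 : ℝ) ≤ n := by exact_mod_cast hn
  have hn0 : (0 : ℝ) < n := by linarith
  have ht := nt_pos hn
  obtain ⟨hd, he⟩ := Cst_e2 hn
  have hy : 1 ≤ yo (tn n) := by
    unfold yo
    have := sq_nonneg (tn n)
    linarith
  have h1' : 1 - s * yo (tn n) = 2 * tn n * s * k := by
    have : 2 * n * tn n * (1 - s * yo (tn n)) = 2 * n * tn n * (2 * tn n * s * k) := by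
      linear_combination h1
    exact mul_left_cancel₀ (by positivity) this
  have h2' : H = 2 * tn n * s * M + 2 * tn n * (1 - s * yo (tn n)) := by
    rw [h1']
    have : (n : ℝ) * H = n * (2 * tn n * s * M + 2 * tn n * (2 * tn n * s * k)) := by
      linear_combination h2
    exact mul_left_cancel₀ hn0.ne' this
  have hu0 : 0 ≤ 1 - s * yo (tn n) := by linarith
  rcases hu0.eq_or_lt with hu | hu
  · have hk : k = 0 := by
      rw [← hu] at h1'
      have : 2 * tn n * s * k = 2 * tn n * s * 0 := by linarith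
      exact mul_left_cancel₀ (by positivity) this
    rw [← hu, mul_zero, add_zero] at h2'
    have hM0 : M = 0 := by
      have hleg := K_leg hn
      rw [lt_div_iff₀ ht, div_mul_eq_mul_div, one_mul, div_lt_iff₀ (by linarith)] at hleg
      have e1 : s * tn n < Real.cos (Real.pi / n) * √2 := by
        have e2 := mul_lt_mul_of_pos_left hleg hs
        have e3 : s * (Real.cos (Real.pi / n) * √2 * yo (tn n)) = Real.cos (Real.pi / n) * √2 := by
          linear_combination (Real.cos (Real.pi / n) * √2) * hu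
        rw [e3] at e2
        exact e2
      rw [hk, h2'] at h3
      have h26 : √2 < √6 := Real.sqrt_lt_sqrt (by norm_num) (by norm_num)
      have e4 : Real.cos (Real.pi / n) * √2 < Real.cos (Real.pi / n) * √6 :=
        mul_lt_mul_of_pos_left h26 hd
      by_contra hcon
      have hMp : 0 < M := lt_of_le_of_ne hM (Ne.symm hcon)
      have e5 : s * tn n * M < Real.cos (Real.pi / n) * √6 * M :=
        mul_lt_mul_of_pos_right (e1.trans e4) hMp
      linarith
    refine ⟨0, 1 / n, le_rfl, ?_, ?_, ?_, ?_, ?_, ?_⟩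
    · rw [mul_zero]
      positivity
    · linear_combination (2 * n * tn n) * hu
    · rw [hk]
      ring
    · rw [h2', hM0]
      ring
    · rw [mul_one_div_cancel hn0.ne']
    · rw [mul_one_div_cancel hn0.ne']
      norm_num
  · have hQ : 0 < Qh n (tn n) := by
      unfold Qh
      have q1 : (0 : ℝ) ≤ 14 - 4 * n + (n : ℝ) ^ 2 := by nlinarith [sq_nonneg ((n : ℝ) - 2)]
      have q2 : 0 ≤ tn n ^ 2 * (14 - 4 * n + (n : ℝ) ^ 2) / 45 := by positivity
      have q3 : 0 ≤ ((n : ℝ) - 1) ^ 2 * tn n ^ 4 / 27 := by positivity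
      linarith
    obtain ⟨c1, c2, c3⟩ := Cst_core (K := k0) (Q := Qh n (tn n)) (N := n) hn5 ht hd hs hu he hM
      rfl h1' h2' h3 h4
    obtain ⟨β, hβ⟩ : ∃ β, β = H / (2 * tn n * (1 - s * yo (tn n))) := ⟨_, rfl⟩
    obtain ⟨A, hA⟩ : ∃ A, A = 2 * n * (1 - s * yo (tn n)) / (s * tn n ^ 2) := ⟨_, rfl⟩
    rw [← hβ] at c1 c2 c3
    rw [← hA] at c2 c3
    have hA0 : 0 ≤ A := by
      rw [hA]
      positivity
    have h0 := K_two hn le_rfl (by rw [mul_zero]; positivity)
    have hey : e2 (tn n) < yo (tn n) := by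
      have : (1 + k0 * 0 / n) * yo (tn n) = yo (tn n) := by
        rw [mul_zero, zero_div, add_zero, one_mul]
      rw [this] at h0
      linarith
    have he0 : 0 < e2 (tn n) := by
      by_contra hcon
      rw [not_lt] at hcon
      have := mul_nonpos_of_nonpos_of_nonneg hcon
        (by positivity : 0 ≤ Real.cos (Real.pi / n) * √6)
      linarith
    have hse : 0 < 1 - s * e2 (tn n) := by
      have := mul_lt_mul_of_pos_left hey hs
      linarith
    have hsA : s * (yo (tn n) + A * tn n ^ 2 / (2 * n)) = 1 := by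
      rw [hA]
      field_simp
      ring
    have hK1 : A * (yo (tn n) + A * tn n ^ 2 / (2 * n) - e2 (tn n) - k0 * Qh n (tn n) / n) ≤
        Qh n (tn n) := by
      have k1 : A * (1 - s * e2 (tn n)) ≤ s * β * Qh n (tn n) * (1 - s * e2 (tn n)) :=
        mul_le_mul_of_nonneg_right c3 hse.le
      have k2 : s * Qh n (tn n) * (β * (1 - s * e2 (tn n))) ≤
          s * Qh n (tn n) * (1 + k0 * A / n) :=
        mul_le_mul_of_nonneg_left c2 (by positivity)
      have k3 : s * (A * (yo (tn n) + A * tn n ^ 2 / (2 * n) - e2 (tn n))) ≤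
          s * (Qh n (tn n) * (1 + k0 * A / n)) := by
        have : s * (A * (yo (tn n) + A * tn n ^ 2 / (2 * n) - e2 (tn n))) =
            A * (1 - s * e2 (tn n)) := by
          linear_combination A * hsA
        rw [this]
        linarith
      have k4 := le_of_mul_le_mul_left k3 hs
      have k5 : A * (k0 * Qh n (tn n) / n) = Qh n (tn n) * (k0 * A / n) := by ring
      linarith
    have hA1 := K_one hn hA0 hK1
    have hK2 := K_two hn hA0 hA1
    have hβ2 : β ≤ 1.63 := by
      have m1 : β * (yo (tn n) - e2 (tn n)) ≤ 1.63 * (yo (tn n) - e2 (tn n)) := by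
        refine le_trans ?_ hK2
        have m2 := mul_le_mul_of_nonneg_right c2 (by linarith : 0 ≤ yo (tn n))
        have m3 : β * (yo (tn n) - e2 (tn n)) ≤ β * (1 - s * e2 (tn n)) * yo (tn n) := by
          have m4 : 0 ≤ β * e2 (tn n) * (1 - s * yo (tn n)) :=
            mul_nonneg (mul_nonneg (by linarith) he0.le) hu.le
          linarith
        exact m3.trans m2
      exact le_of_mul_le_mul_right m1 (by linarith)
    have hAs : A * s * tn n ^ 3 = 2 * n * tn n * (1 - s * yo (tn n)) := by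
      rw [hA]
      field_simp
    have hnb : (n : ℝ) * (β / n) = β := by field_simp
    refine ⟨A, β / n, hA0, hA1, ?_, ?_, ?_, ?_, ?_⟩
    · rw [hAs]
      ring
    · rw [hA]
      have hk : k = (1 - s * yo (tn n)) / (2 * tn n * s) := by
        rw [eq_div_iff (by positivity)]
        linarith
      rw [hk]
      field_simp
      ring
    · rw [hAs]
      have hH : H = 2 * tn n * (1 - s * yo (tn n)) * β := by
        rw [hβ]
        field_simp
      rw [hH]
      field_simp
    · rw [hnb]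
      exact c1
    · rw [hnb]
      exact hβ2

end Pool.Agent.H37.ST
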