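import Pool.Agent.H37.ST.EnR

set_option autoImplicit false

/-! Steklov, part B, I5 converse: functions of class one are admissible.

PROOFS. `sum_om`: geometric sum, `om n ^ n = 1`, `om n ≠ 1`. For `F` of class one: `F (om^k z) = om^k F z`,
`fderiv ℝ F (om^k z) (om^k v) = om^k fderiv ℝ F z v` (differentiate `z ↦ F (om^k z)`), and for `u = re ∘ F`, `w = im ∘ F`:
`(fderiv u (·) v)² + (fderiv w (·) v)² = ‖fderiv F (·) v‖²`. So `en_up` gives `en u + en w = n E0 n F`; `bd_rg`:
`bd u = Re ((∑ om^k) t ∫ F) = 0`, the same for `w`, `bd u² + bd w² = n t B1 n F`.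
`sig_le`: if `bd u² > 0` then `sig ≤ en u / bd u²` (`csInf_le`, bounded below by `0`), and if `bd u² ≤ 0` the left side is `≤ 0 ≤ en u`
(`sig ≥ 0`: `Real.sInf_nonneg`). `cvs`: add the two, divide by `n`. -/

open Complex MeasureTheory Set Finset

namespace Pool.Agent.H37.ST

open Pool.Agent.H32.Stek hiding om perim area
open Pool.Agent.H32.Q4 hiding om
open Pool.Agent.H32.SG

variable {n : ℕ}

theorem sum_om (hn : 3 ≤ n) : ∑ k ∈ Finset.range n, om n ^ k = 0 := by
  have h := Complex.isPrimitiveRoot_exp n (by omega)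
  exact h.geom_sum_eq_zero (by omega)

theorem cls_pow {f : ℂ → ℂ} {m : ℕ} (hf : Cls n m f) (k : ℕ) (z : ℂ) :
    f (om n ^ k * z) = om n ^ (m * k) * f z := by
  induction k with
  | zero => simp
  | succ k ih =>
    have h1 : om n ^ (k + 1) * z = om n * (om n ^ k * z) := by ring
    rw [h1, hf.rot, ih]
    ring

private theorem cvs_en_nonneg (Om : Set ℂ) (u : ℂ → ℝ) : 0 ≤ en Om u := by
  unfold en
  exact integral_nonneg fun z => by positivity

private theorem cvs_sig_nonneg : 0 ≤ sig n (rg n) (Up n) := by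
  unfold sig
  apply Real.sInf_nonneg
  rintro s ⟨u, _, _, h3, rfl⟩
  exact div_nonneg (cvs_en_nonneg _ _) h3.le

theorem sig_le {u : ℂ → ℝ} (hu : ContDiff ℝ 1 u) (h0 : bd n (rg n) u = 0) :
    sig n (rg n) (Up n) * bd n (rg n) (fun z => u z ^ 2) ≤ en (Up n) u := by
  rcases lt_or_ge 0 (bd n (rg n) (fun z => u z ^ 2)) with h | h
  · have h1 : sig n (rg n) (Up n) ≤ en (Up n) u / bd n (rg n) (fun z => u z ^ 2) := by
      apply csInf_le
      · refine ⟨0, ?_⟩
        rintro s ⟨v, _, _, h3, rfl⟩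
        exact div_nonneg (cvs_en_nonneg _ _) h3.le
      · exact ⟨u, hu, h0, h, rfl⟩
    rwa [le_div_iff₀ h] at h1
  · exact (mul_nonpos_of_nonneg_of_nonpos cvs_sig_nonneg h).trans (cvs_en_nonneg _ _)

private theorem cvs_inn {h1 h2 k : ℝ → ℝ → ℝ} (c1 : Continuous fun z : ℝ × ℝ => h1 z.1 z.2)
    (c2 : Continuous fun z : ℝ × ℝ => h2 z.1 z.2) (h : ∀ X Y, h1 X Y + h2 X Y = k X Y) (X : ℝ) :
    (∫ Y in (-X)..X, h1 X Y) + ∫ Y in (-X)..X, h2 X Y = ∫ Y in (-X)..X, k X Y := by
  have d1 : Continuous (h1 X) := c1.comp (continuous_const.prodMk continuous_id)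
  have d2 : Continuous (h2 X) := c2.comp (continuous_const.prodMk continuous_id)
  rw [← intervalIntegral.integral_add (d1.intervalIntegrable _ _) (d2.intervalIntegrable _ _)]
  refine intervalIntegral.integral_congr fun Y _ => ?_
  exact h X Y

private theorem cvs_outc {h : ℝ → ℝ → ℝ} (c : Continuous fun z : ℝ × ℝ => h z.1 z.2) :
    Continuous fun X : ℝ => ∫ Y in (-X)..X, h X Y := by
  have e : (fun X : ℝ => ∫ Y in (-X)..X, h X Y) =
      fun X : ℝ => (∫ Y in (0 : ℝ)..X, h X Y) - ∫ Y in (0 : ℝ)..(-X), h X Y := by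
    funext X
    have hX : Continuous (h X) := c.comp (continuous_const.prodMk continuous_id)
    rw [intervalIntegral.integral_interval_sub_left (hX.intervalIntegrable _ _)
      (hX.intervalIntegrable _ _)]
  rw [e]
  have c' : Continuous (Function.uncurry h) := c
  exact (intervalIntegral.continuous_parametric_intervalIntegral_of_continuous c' continuous_id).sub
    (intervalIntegral.continuous_parametric_intervalIntegral_of_continuous c' continuous_neg)

private theorem cvs_JJ {h1 h2 k : ℝ → ℝ → ℝ} (c1 : Continuous fun z : ℝ × ℝ => h1 z.1 z.2)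
    (c2 : Continuous fun z : ℝ × ℝ => h2 z.1 z.2) (h : ∀ X Y, h1 X Y + h2 X Y = k X Y) :
    JJ h1 + JJ h2 = JJ k := by
  unfold JJ
  rw [← intervalIntegral.integral_add ((cvs_outc c1).intervalIntegrable _ _)
    ((cvs_outc c2).intervalIntegrable _ _)]
  exact intervalIntegral.integral_congr fun X _ => cvs_inn c1 c2 h X

private theorem cvs_fderiv {F : ℂ → ℂ} (hF : Cls n 1 F) (k : ℕ) (z v : ℂ) :
    fderiv ℝ F (om n ^ k * z) (om n ^ k * v) = om n ^ k * fderiv ℝ F z v := by
  have hd := hF.c1.differentiable (by norm_num)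
  have h1 : HasFDerivAt (fun z => om n ^ k * z)
      ((ContinuousLinearMap.mul ℝ ℂ) (om n ^ k)) z :=
    ((ContinuousLinearMap.mul ℝ ℂ) (om n ^ k)).hasFDerivAt
  have h2 : HasFDerivAt (fun z => F (om n ^ k * z))
      ((fderiv ℝ F (om n ^ k * z)).comp ((ContinuousLinearMap.mul ℝ ℂ) (om n ^ k))) z :=
    (hd (om n ^ k * z)).hasFDerivAt.comp z h1
  have h3 : HasFDerivAt (fun z => om n ^ k * F z)
      (((ContinuousLinearMap.mul ℝ ℂ) (om n ^ k)).comp (fderiv ℝ F z)) z :=
    ((ContinuousLinearMap.mul ℝ ℂ) (om n ^ k)).hasFDerivAt.comp z (hd z).hasFDerivAt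
  have h4 : (fun z => F (om n ^ k * z)) = fun z => om n ^ k * F z := by
    funext z
    rw [cls_pow hF, one_mul]
  rw [h4] at h2
  have h5 := h2.unique h3
  have h6 := congrArg (fun L : ℂ →L[ℝ] ℂ => L v) h5
  exact h6

private theorem cvs_norm_pow (k : ℕ) : ‖om n ^ k‖ = 1 := by
  rw [norm_pow, norm_om, one_pow]

/-- real and imaginary part of an interval integral -/
private theorem cvs_re {G : ℝ → ℂ} (hG : Continuous G) :
    ∫ Y in (-1 : ℝ)..1, (G Y).re = (∫ Y in (-1 : ℝ)..1, G Y).re :=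
  Complex.reCLM.intervalIntegral_comp_comm (hG.intervalIntegrable _ _)

private theorem cvs_im {G : ℝ → ℂ} (hG : Continuous G) :
    ∫ Y in (-1 : ℝ)..1, (G Y).im = (∫ Y in (-1 : ℝ)..1, G Y).im :=
  Complex.imCLM.intervalIntegral_comp_comm (hG.intervalIntegrable _ _)

theorem cvs (hn : 3 ≤ n) {F : ℂ → ℂ} (hF : Cls n 1 F) :
    sig n (rg n) (Up n) * (tn n * B1 n F) ≤ E0 n F := by
  have hFc := hF.c1.continuous
  have hfd : Continuous (fderiv ℝ F) := hF.c1.continuous_fderiv (by norm_num)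
  have hd := hF.c1.differentiable (by norm_num)
  have hu : ContDiff ℝ 1 (fun z => (F z).re) := Complex.reCLM.contDiff.comp hF.c1
  have hw : ContDiff ℝ 1 (fun z => (F z).im) := Complex.imCLM.contDiff.comp hF.c1
  have hud : ∀ z v, fderiv ℝ (fun z => (F z).re) z v = (fderiv ℝ F z v).re := by
    intro z v
    have h1 : HasFDerivAt (fun z => (F z).re) (Complex.reCLM.comp (fderiv ℝ F z)) z :=
      Complex.reCLM.hasFDerivAt.comp z (hd z).hasFDerivAt
    rw [h1.fderiv]
    rfl
  have hwd : ∀ z v, fderiv ℝ (fun z => (F z).im) z v = (fderiv ℝ F z v).im := by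
    intro z v
    have h1 : HasFDerivAt (fun z => (F z).im) (Complex.imCLM.comp (fderiv ℝ F z)) z :=
      Complex.imCLM.hasFDerivAt.comp z (hd z).hasFDerivAt
    rw [h1.fderiv]
    rfl
  have hcl : Continuous fun Y : ℝ => F (1 + (tn n * Y : ℝ) * I) :=
    hFc.comp (by fun_prop)
  obtain ⟨A, hA⟩ : ∃ A : ℂ, A = ∫ Y in (-1 : ℝ)..1, F (1 + (tn n * Y : ℝ) * I) := ⟨_, rfl⟩
  -- boundary integrals
  have hmul : ∀ k : ℕ, ∫ Y in (-1 : ℝ)..1, F (om n ^ k * (1 + (tn n * Y : ℝ) * I)) =
      om n ^ k * A := by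
    intro k
    rw [hA, ← intervalIntegral.integral_const_mul]
    refine intervalIntegral.integral_congr fun Y _ => ?_
    show F (om n ^ k * (1 + (tn n * Y : ℝ) * I)) = om n ^ k * F (1 + (tn n * Y : ℝ) * I)
    rw [cls_pow hF, one_mul]
  have hck : ∀ k : ℕ, Continuous fun Y : ℝ => F (om n ^ k * (1 + (tn n * Y : ℝ) * I)) :=
    fun k => hFc.comp (by fun_prop)
  have b1 : bd n (rg n) (fun z => (F z).re) = 0 := by
    rw [bd_rg hn]
    have e : ∀ k ∈ Finset.range n, tn n * ∫ Y in (-1 : ℝ)..1,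
        (F (om n ^ k * (1 + (tn n * Y : ℝ) * I))).re = tn n * (om n ^ k * A).re := by
      intro k _
      rw [cvs_re (hck k), hmul k]
    rw [Finset.sum_congr rfl e, ← Finset.mul_sum, ← Complex.re_sum, ← Finset.sum_mul, sum_om hn]
    simp
  have b2 : bd n (rg n) (fun z => (F z).im) = 0 := by
    rw [bd_rg hn]
    have e : ∀ k ∈ Finset.range n, tn n * ∫ Y in (-1 : ℝ)..1,
        (F (om n ^ k * (1 + (tn n * Y : ℝ) * I))).im = tn n * (om n ^ k * A).im := by
      intro k _
      rw [cvs_im (hck k), hmul k]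
    rw [Finset.sum_congr rfl e, ← Finset.mul_sum, ← Complex.im_sum, ← Finset.sum_mul, sum_om hn]
    simp
  have b3 : bd n (rg n) (fun z => (F z).re ^ 2) + bd n (rg n) (fun z => (F z).im ^ 2) =
      n * (tn n * B1 n F) := by
    rw [bd_rg hn, bd_rg hn, ← Finset.sum_add_distrib]
    have e : ∀ k ∈ Finset.range n, (tn n * ∫ Y in (-1 : ℝ)..1,
        (F (om n ^ k * (1 + (tn n * Y : ℝ) * I))).re ^ 2) + (tn n * ∫ Y in (-1 : ℝ)..1,
        (F (om n ^ k * (1 + (tn n * Y : ℝ) * I))).im ^ 2) = tn n * B1 n F := by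
      intro k _
      rw [← mul_add]
      congr 1
      unfold B1
      have i1 : IntervalIntegrable (fun Y : ℝ =>
          (F (om n ^ k * (1 + (tn n * Y : ℝ) * I))).re ^ 2) volume (-1) 1 :=
        ((Complex.continuous_re.comp (hck k)).pow 2).intervalIntegrable _ _
      have i2 : IntervalIntegrable (fun Y : ℝ =>
          (F (om n ^ k * (1 + (tn n * Y : ℝ) * I))).im ^ 2) volume (-1) 1 :=
        ((Complex.continuous_im.comp (hck k)).pow 2).intervalIntegrable _ _
      rw [← intervalIntegral.integral_add i1 i2]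
      refine intervalIntegral.integral_congr fun Y _ => ?_
      show (F (om n ^ k * (1 + (tn n * Y : ℝ) * I))).re ^ 2 +
        (F (om n ^ k * (1 + (tn n * Y : ℝ) * I))).im ^ 2 = ‖F (1 + (tn n * Y : ℝ) * I)‖ ^ 2
      have e1 : F (om n ^ k * (1 + (tn n * Y : ℝ) * I)) =
          om n ^ k * F (1 + (tn n * Y : ℝ) * I) := by rw [cls_pow hF, one_mul]
      have e2 : ∀ c : ℂ, c.re ^ 2 + c.im ^ 2 = ‖c‖ ^ 2 := by
        intro c
        rw [Complex.sq_norm, Complex.normSq_apply]
        ring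
      rw [e2, e1, norm_mul, cvs_norm_pow, one_mul]
    rw [Finset.sum_congr rfl e, Finset.sum_const, Finset.card_range, nsmul_eq_mul]
  -- energies
  have en1 : en (Up n) (fun z => (F z).re) + en (Up n) (fun z => (F z).im) = n * E0 n F := by
    rw [en_up hn hu, en_up hn hw, ← Finset.sum_add_distrib]
    have e : ∀ k ∈ Finset.range n, (tn n * JJ (fun X Y =>
        fderiv ℝ (fun z => (F z).re) (om n ^ k * (X + (tn n * Y : ℝ) * I)) (om n ^ k) ^ 2 +
        fderiv ℝ (fun z => (F z).re) (om n ^ k * (X + (tn n * Y : ℝ) * I)) (om n ^ k * I) ^ 2)) +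
        (tn n * JJ (fun X Y =>
        fderiv ℝ (fun z => (F z).im) (om n ^ k * (X + (tn n * Y : ℝ) * I)) (om n ^ k) ^ 2 +
        fderiv ℝ (fun z => (F z).im) (om n ^ k * (X + (tn n * Y : ℝ) * I)) (om n ^ k * I) ^ 2)) =
        E0 n F := by
      intro k _
      have cz : Continuous fun z : ℝ × ℝ => om n ^ k * ((z.1 : ℂ) + (tn n * z.2 : ℝ) * I) := by
        fun_prop
      have cz1 : Continuous fun z : ℝ × ℝ => ((z.1 : ℂ) + (tn n * z.2 : ℝ) * I) := by
        fun_prop
      have cd : ∀ v : ℂ, Continuous fun z : ℝ × ℝ =>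
          fderiv ℝ F (om n ^ k * ((z.1 : ℂ) + (tn n * z.2 : ℝ) * I)) v :=
        fun v => (hfd.comp cz).clm_apply continuous_const
      have cd1 : ∀ v : ℂ, Continuous fun z : ℝ × ℝ =>
          fderiv ℝ F ((z.1 : ℂ) + (tn n * z.2 : ℝ) * I) v :=
        fun v => (hfd.comp cz1).clm_apply continuous_const
      have e2 : ∀ c : ℂ, c.re ^ 2 + c.im ^ 2 = ‖c‖ ^ 2 := by
        intro c
        rw [Complex.sq_norm, Complex.normSq_apply]
        ring
      unfold E0 Hn Ht
      rw [← mul_add, ← mul_add]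
      congr 1
      rw [cvs_JJ (k := fun X Y => ‖fderiv ℝ F (X + (tn n * Y : ℝ) * I) 1‖ ^ 2 +
          ‖fderiv ℝ F (X + (tn n * Y : ℝ) * I) I‖ ^ 2),
        cvs_JJ (k := fun X Y => ‖fderiv ℝ F (X + (tn n * Y : ℝ) * I) 1‖ ^ 2 +
          ‖fderiv ℝ F (X + (tn n * Y : ℝ) * I) I‖ ^ 2)]
      · exact (cd1 1).norm.pow 2
      · exact (cd1 I).norm.pow 2
      · intro X Y
        rfl
      · simp only [hud]
        exact ((Complex.continuous_re.comp (cd _)).pow 2).add
          ((Complex.continuous_re.comp (cd _)).pow 2)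
      · simp only [hwd]
        exact ((Complex.continuous_im.comp (cd _)).pow 2).add
          ((Complex.continuous_im.comp (cd _)).pow 2)
      · intro X Y
        simp only [hud, hwd]
        have f1 : fderiv ℝ F (om n ^ k * (X + (tn n * Y : ℝ) * I)) (om n ^ k) =
            om n ^ k * fderiv ℝ F (X + (tn n * Y : ℝ) * I) 1 := by
          have := cvs_fderiv hF k (X + (tn n * Y : ℝ) * I) 1
          rwa [mul_one] at this
        have f2 := cvs_fderiv hF k (X + (tn n * Y : ℝ) * I) I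
        have g1 := e2 (fderiv ℝ F (om n ^ k * (X + (tn n * Y : ℝ) * I)) (om n ^ k))
        have g2 := e2 (fderiv ℝ F (om n ^ k * (X + (tn n * Y : ℝ) * I)) (om n ^ k * I))
        have n1 : ‖fderiv ℝ F (om n ^ k * (X + (tn n * Y : ℝ) * I)) (om n ^ k)‖ =
            ‖fderiv ℝ F (X + (tn n * Y : ℝ) * I) 1‖ := by
          rw [f1, norm_mul, cvs_norm_pow, one_mul]
        have n2 : ‖fderiv ℝ F (om n ^ k * (X + (tn n * Y : ℝ) * I)) (om n ^ k * I)‖ =
            ‖fderiv ℝ F (X + (tn n * Y : ℝ) * I) I‖ := by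
          rw [f2, norm_mul, cvs_norm_pow, one_mul]
        rw [n1] at g1
        rw [n2] at g2
        linarith
    rw [Finset.sum_congr rfl e, Finset.sum_const, Finset.card_range, nsmul_eq_mul]
  have s1 := sig_le hu b1
  have s2 := sig_le hw b2
  have h1 : n * (sig n (rg n) (Up n) * (tn n * B1 n F)) ≤ n * E0 n F := by
    rw [← en1]
    calc n * (sig n (rg n) (Up n) * (tn n * B1 n F))
        = sig n (rg n) (Up n) * (n * (tn n * B1 n F)) := by ring
      _ = sig n (rg n) (Up n) * (bd n (rg n) (fun z => (F z).re ^ 2) +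
          bd n (rg n) (fun z => (F z).im ^ 2)) := by rw [b3]
      _ ≤ _ := by
        rw [mul_add]
        exact add_le_add s1 s2
  exact le_of_mul_le_mul_left h1 (by exact_mod_cast (by omega : 0 < n))

end Pool.Agent.H37.ST
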