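import Pool.Agent.H32.SG.Omg

set_option autoImplicit false

/-! # The regular polygon: definitions (part B of the Steklov project)

`t = tn n = tan (π / n)`, `om n = exp (2 π i / n) = (1 + i t)/(1 - i t)`. The regular polygon has inradius
one; side `k` is `{om n ^ k (1 + i s) : |s| ≤ t}`; the triangle over side `0` is
`{X + i t Y : |Y| ≤ X ≤ 1}`; ring coordinates `pt n r y = r (1 + i t y)`, `0 ≤ r ≤ 1`, `|y| ≤ 1`. -/

open Complex MeasureTheory Set Finset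

namespace Pool.Agent.H37.ST

open Pool.Agent.H32.Stek hiding om perim area
open Pool.Agent.H32.Q4 hiding om
open Pool.Agent.H32.SG

/-- vertices of the regular polygon of inradius one -/
noncomputable def rg (n : ℕ) (j : ℕ) : ℂ := (1 - tn n * I) * om n ^ j

/-- the open regular polygon of inradius one -/
def Up (n : ℕ) : Set ℂ := {z | ∀ j < n, ((starRingEnd ℂ) (om n ^ j) * z).re < 1}

/-- ring coordinates -/
noncomputable def pt (n : ℕ) (r y : ℝ) : ℂ := (r : ℂ) * (1 + (tn n * y : ℝ) * I)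

/-- `C¹` functions of class `m` -/
structure Cls (n m : ℕ) (f : ℂ → ℂ) : Prop where
  c1 : ContDiff ℝ 1 f
  rot : ∀ z, f (om n * z) = om n ^ m * f z

/-- energy on the triangle over side `0` -/
noncomputable def E0 (n : ℕ) (f : ℂ → ℂ) : ℝ := Hn n f + Ht n f

/-- square integral over side `0`, in the coordinate `Y` (`ds = t dY`) -/
noncomputable def B1 (n : ℕ) (f : ℂ → ℂ) : ℝ := ∫ Y in (-1 : ℝ)..1, ‖f (1 + (tn n * Y : ℝ) * I)‖ ^ 2

/-- energy density on the ring `r` -/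
noncomputable def rd (n : ℕ) (f : ℂ → ℂ) (r : ℝ) : ℝ :=
  ∫ y in (-1 : ℝ)..1, r * (tn n * (‖fderiv ℝ f (pt n r y) 1‖ ^ 2 + ‖fderiv ℝ f (pt n r y) I‖ ^ 2))

/-- restriction to the ring -/
noncomputable def rf (n : ℕ) (f : ℂ → ℂ) (r y : ℝ) : ℂ := f (pt n r y)

/-- its derivative with respect to `r` -/
noncomputable def rp (n : ℕ) (f : ℂ → ℂ) (r y : ℝ) : ℂ := fderiv ℝ f (pt n r y) (pt n 1 y)

/-- its derivative with respect to `y` -/
noncomputable def rv (n : ℕ) (f : ℂ → ℂ) (r y : ℝ) : ℂ := fderiv ℝ f (pt n r y) ((r * tn n : ℝ) * I)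

/-! quadratic forms on functions on `[-1, 1]` and their real bilinear forms -/

noncomputable def q0 (u : ℝ → ℂ) : ℝ := ∫ y in (-1 : ℝ)..1, ‖u y‖ ^ 2

noncomputable def q1 (u : ℝ → ℂ) : ℝ := 3 / 2 * ‖∫ y in (-1 : ℝ)..1, (y : ℂ) * u y‖ ^ 2

noncomputable def q2 (u : ℝ → ℂ) : ℝ := q0 u - ‖∫ y in (-1 : ℝ)..1, u y‖ ^ 2 / 2 - q1 u

noncomputable def b0 (p u : ℝ → ℂ) : ℝ := ∫ y in (-1 : ℝ)..1, ((starRingEnd ℂ) (p y) * u y).re

noncomputable def b1 (p u : ℝ → ℂ) : ℝ := 3 / 2 * ((starRingEnd ℂ) (∫ y in (-1 : ℝ)..1, (y : ℂ) * p y) *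
  (∫ y in (-1 : ℝ)..1, (y : ℂ) * u y)).re

noncomputable def b2 (p u : ℝ → ℂ) : ℝ := b0 p u - ((starRingEnd ℂ) (∫ y in (-1 : ℝ)..1, p y) *
  (∫ y in (-1 : ℝ)..1, u y)).re / 2 - b1 p u

end Pool.Agent.H37.ST
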