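import Pool.Agent.H37.ST.Upr

set_option autoImplicit false

/-! Steklov, part B: the regular polygon is the union of `n` triangles.

PROOF. `ζ_k = conj (om n ^ k) z`, `T_k = {|Im ζ_k| < t Re ζ_k, Re ζ_k < 1}` is the interior of the triangle
`tri 0 (om^k (1 - i t)) (om^k (1 + i t))` (`EnD_image`, `EnD`, of Q4/En with `P = om^k`, `W = i t om^k`: the triangle is
`{|Im ζ_k| ≤ t Re ζ_k, Re ζ_k ≤ 1}`); the difference is a null set (`Convex.addHaar_frontier`).
Cover: `Up n ⊆ ⋃ k, triangle k` (`up_max`). Conversely `T_k ⊆ Up n` and `T_j ∩ T_k = ∅` for `j ≠ k` (`dis_cone`, indices mod `n`).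
Then `∫_{Up n} F = ∑ ∫_{T_k} F` (`MeasureTheory.integral_biUnion_finset` or similar; a.e. equal sets).
`area_up`: `F = 1` and `volume (triangle) = t` (`EnD_image`, `EnL_det`, `cr (om^k) (i t om^k) = t`, `volume EnD = 1`:
`EnD_fubini` with `G = 1`). -/

open Complex MeasureTheory Set Finset

namespace Pool.Agent.H37.ST

open Pool.Agent.H32.Stek hiding om perim area
open Pool.Agent.H32.Q4 hiding om
open Pool.Agent.H32.SG

variable {n : ℕ}

private theorem disx_conj (n k : ℕ) : (starRingEnd ℂ) (om n ^ k) * om n ^ k = 1 := by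
  have h := Complex.normSq_eq_conj_mul_self (z := om n ^ k)
  rw [← h, Complex.normSq_eq_norm_sq, norm_pow, norm_om]
  norm_num

private theorem disx_rot (hn : 0 < n) {j k : ℕ} (hj : j < n) (hk : k < n) : ∃ m < n,
    (starRingEnd ℂ) (om n ^ k) * om n ^ j = om n ^ m ∧ (m = 0 → j = k) := by
  refine ⟨(j + (n - k)) % n, Nat.mod_lt _ hn, ?_, fun h => ?_⟩
  · have h1 : om n ^ k * om n ^ (j + (n - k)) = om n ^ j := by
      have h2 : k + (j + (n - k)) = j + n := by omega
      rw [← pow_add, h2, pow_add, om_pow hn, mul_one]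
    rw [← pow_eq_pow_mod (j + (n - k)) (om_pow hn)]
    calc (starRingEnd ℂ) (om n ^ k) * om n ^ j
        = ((starRingEnd ℂ) (om n ^ k) * om n ^ k) * om n ^ (j + (n - k)) := by rw [← h1]; ring
      _ = _ := by rw [disx_conj, one_mul]
  · have h2 : (j + n) % n = k := by
      have h3 : j + n = (j + (n - k)) + k := by omega
      rw [h3, Nat.add_mod, h, zero_add, Nat.mod_mod, Nat.mod_eq_of_lt hk]
    rw [Nat.add_mod_right, Nat.mod_eq_of_lt hj] at h2
    exact h2

/-- the open triangles -/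
private def disx_T (n k : ℕ) : Set ℂ :=
  {z | |((starRingEnd ℂ) (om n ^ k) * z).im| < tn n * ((starRingEnd ℂ) (om n ^ k) * z).re ∧
    ((starRingEnd ℂ) (om n ^ k) * z).re < 1}

private theorem disx_open (n k : ℕ) : IsOpen (disx_T n k) := by
  have h1 : IsOpen {z : ℂ | |((starRingEnd ℂ) (om n ^ k) * z).im|
      < tn n * ((starRingEnd ℂ) (om n ^ k) * z).re} := isOpen_lt (by fun_prop) (by fun_prop)
  have h2 : IsOpen {z : ℂ | ((starRingEnd ℂ) (om n ^ k) * z).re < 1} :=
    isOpen_lt (by fun_prop) (by fun_prop)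
  exact h1.inter h2

private theorem disx_lt (hn : 3 ≤ n) {j k : ℕ} (hj : j < n) (hk : k < n) (hjk : j ≠ k) {z : ℂ}
    (hz : z ∈ disx_T n k) :
    ((starRingEnd ℂ) (om n ^ j) * z).re < ((starRingEnd ℂ) (om n ^ k) * z).re := by
  obtain ⟨m, hm, hm1, hm2⟩ := disx_rot (by omega : 0 < n) hk hj
  have hm0 : 1 ≤ m := by
    rcases Nat.eq_zero_or_pos m with h | h
    · exact absurd (hm2 h).symm hjk
    · exact h
  have h1 := dis_cone hn hz.1 hm0 hm
  rw [← hm1] at h1
  have h2 : (starRingEnd ℂ) (om n ^ j) * om n ^ k * ((starRingEnd ℂ) (om n ^ k) * z)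
      = (starRingEnd ℂ) (om n ^ j) * (((starRingEnd ℂ) (om n ^ k) * om n ^ k) * z) := by ring
  rw [h2, disx_conj, one_mul] at h1
  exact h1

private theorem disx_sub (hn : 3 ≤ n) {k : ℕ} (hk : k < n) : disx_T n k ⊆ Up n := by
  intro z hz j hj
  by_cases h : j = k
  · rw [h]
    exact hz.2
  · exact (disx_lt hn hj hk h hz).trans hz.2

private theorem disx_tri (hn : 3 ≤ n) (k : ℕ) (z : ℂ) :
    z ∈ tri 0 (om n ^ k - om n ^ k * (tn n * I)) (om n ^ k + om n ^ k * (tn n * I)) ↔
    |((starRingEnd ℂ) (om n ^ k) * z).im| ≤ tn n * ((starRingEnd ℂ) (om n ^ k) * z).re ∧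
      ((starRingEnd ℂ) (om n ^ k) * z).re ≤ 1 := by
  have htn := tn_pos hn
  have key : ∀ x y : ℝ, (starRingEnd ℂ) (om n ^ k) *
      ((x : ℂ) * om n ^ k + (y : ℂ) * (om n ^ k * (tn n * I))) = x + (y * tn n : ℝ) * I := by
    intro x y
    have h1 : (starRingEnd ℂ) (om n ^ k) *
        ((x : ℂ) * om n ^ k + (y : ℂ) * (om n ^ k * (tn n * I)))
        = ((starRingEnd ℂ) (om n ^ k) * om n ^ k) * (x + (y * tn n) * I) := by ring
    rw [h1, disx_conj, one_mul]
    push_cast
    ring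
  rw [← EnD_image]
  constructor
  · rintro ⟨w, ⟨hw1, hw2⟩, rfl⟩
    rw [EnL_apply, key]
    have e1 : ((w.re : ℂ) + ((w.im * tn n : ℝ) : ℂ) * I).re = w.re := by simp
    have e2 : ((w.re : ℂ) + ((w.im * tn n : ℝ) : ℂ) * I).im = w.im * tn n := by simp
    rw [e1, e2, abs_mul, abs_of_pos htn, mul_comm]
    exact ⟨mul_le_mul_of_nonneg_left hw1 htn.le, hw2⟩
  · rintro ⟨h1, h2⟩
    set ζ := (starRingEnd ℂ) (om n ^ k) * z with hζ
    refine ⟨⟨ζ.re, ζ.im / tn n⟩, ⟨?_, h2⟩, ?_⟩
    · show |ζ.im / tn n| ≤ ζ.re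
      rw [abs_div, abs_of_pos htn, div_le_iff₀ htn, mul_comm]
      exact h1
    · rw [EnL_apply]
      show (ζ.re : ℂ) * om n ^ k + ((ζ.im / tn n : ℝ) : ℂ) * (om n ^ k * (tn n * I)) = z
      have htc : (tn n : ℂ) ≠ 0 := by exact_mod_cast htn.ne'
      have h3 : (ζ.re : ℂ) * om n ^ k + ((ζ.im / tn n : ℝ) : ℂ) * (om n ^ k * (tn n * I))
          = om n ^ k * (ζ.re + ζ.im * I) := by
        push_cast
        field_simp
      rw [h3, Complex.re_add_im, hζ, ← mul_assoc, mul_comm (om n ^ k), disx_conj, one_mul]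

/-- the lines are null sets -/
private theorem disx_null (n k : ℕ) {a b : ℝ} (hab : a ^ 2 + b ^ 2 ≠ 0) (c : ℝ) :
    ∀ᵐ z : ℂ, a * ((starRingEnd ℂ) (om n ^ k) * z).re
      + b * ((starRingEnd ℂ) (om n ^ k) * z).im ≠ c := by
  let L : ℂ →ₗ[ℝ] ℝ :=
    (a • Complex.reLm + b • Complex.imLm).comp (LinearMap.mulLeft ℝ ((starRingEnd ℂ) (om n ^ k)))
  have hL : ∀ z, L z = a * ((starRingEnd ℂ) (om n ^ k) * z).re
      + b * ((starRingEnd ℂ) (om n ^ k) * z).im := fun z => rfl
  have hw : L (om n ^ k * (a + b * I)) = a ^ 2 + b ^ 2 := by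
    rw [hL, ← mul_assoc, disx_conj, one_mul]
    simp
    ring
  have hker : LinearMap.ker L ≠ ⊤ := by
    intro h
    have h1 : om n ^ k * (a + b * I) ∈ LinearMap.ker L := by
      rw [h]
      trivial
    rw [LinearMap.mem_ker, hw] at h1
    exact hab h1
  have h0 := Measure.addHaar_submodule (volume : Measure ℂ) (LinearMap.ker L) hker
  set z₀ : ℂ := (c / (a ^ 2 + b ^ 2)) • (om n ^ k * (a + b * I)) with hz₀
  have hLz : L z₀ = c := by
    rw [hz₀, map_smul, hw, smul_eq_mul]
    field_simp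
  have hset : {z : ℂ | ¬ (a * ((starRingEnd ℂ) (om n ^ k) * z).re
      + b * ((starRingEnd ℂ) (om n ^ k) * z).im ≠ c)} =
      (fun z => z + -z₀) ⁻¹' (LinearMap.ker L : Set ℂ) := by
    ext z
    have h1 : z ∈ (fun z => z + -z₀) ⁻¹' (LinearMap.ker L : Set ℂ) ↔ L (z + -z₀) = 0 := Iff.rfl
    rw [h1, map_add, map_neg, hLz, hL]
    constructor
    · intro h
      have h2 := not_not.1 h
      linarith
    · intro h
      exact not_not.2 (by linarith)
  rw [ae_iff, hset, measure_preimage_add_right]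
  exact h0

private theorem disx_ae (hn : 3 ≤ n) : ∀ᵐ z : ℂ, ∀ k : ℕ,
    (|((starRingEnd ℂ) (om n ^ k) * z).im| ≤ tn n * ((starRingEnd ℂ) (om n ^ k) * z).re ∧
      ((starRingEnd ℂ) (om n ^ k) * z).re ≤ 1) → z ∈ disx_T n k := by
  rw [ae_all_iff]
  intro k
  have htn := tn_pos hn
  filter_upwards [disx_null n k (a := -tn n) (b := 1) (by positivity) 0,
    disx_null n k (a := tn n) (b := 1) (by positivity) 0,
    disx_null n k (a := 1) (b := 0) (by norm_num) 1] with z h1 h2 h3 h4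
  refine ⟨lt_of_le_of_ne h4.1 fun h => ?_, lt_of_le_of_ne h4.2 fun h => h3 ?_⟩
  · rcases abs_choice ((starRingEnd ℂ) (om n ^ k) * z).im with h5 | h5
    · rw [h5] at h
      exact h1 (by linarith)
    · rw [h5] at h
      exact h2 (by linarith)
  · rw [h]
    ring

private theorem disx_compact (P Q R : ℂ) : IsCompact (tri P Q R) :=
  (Set.toFinite _).isCompact_convexHull ℝ

private theorem disx_T_tri (hn : 3 ≤ n) (k : ℕ) : disx_T n k =ᵐ[volume]
    tri 0 (om n ^ k - om n ^ k * (tn n * I)) (om n ^ k + om n ^ k * (tn n * I)) := by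
  filter_upwards [disx_ae hn] with z hz
  apply propext
  constructor
  · intro h
    exact (disx_tri hn k z).2 ⟨h.1.le, h.2.le⟩
  · intro h
    exact hz k ((disx_tri hn k z).1 h)

private theorem disx_Up (hn : 3 ≤ n) :
    Up n =ᵐ[volume] ⋃ k ∈ Finset.range n, disx_T n k := by
  filter_upwards [disx_ae hn] with z hz
  apply propext
  constructor
  · intro h
    obtain ⟨k, hk, hk'⟩ := up_max hn z
    exact mem_iUnion₂.2 ⟨k, Finset.mem_range.2 hk, hz k ⟨hk', (h k hk).le⟩⟩
  · intro h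
    obtain ⟨k, hk, hk'⟩ := mem_iUnion₂.1 h
    exact disx_sub hn (Finset.mem_range.1 hk) hk'

private theorem disx_area (hn : 3 ≤ n) (k : ℕ) :
    ∫ _z in tri 0 (om n ^ k - om n ^ k * (tn n * I)) (om n ^ k + om n ^ k * (tn n * I)), (1 : ℝ)
      = tn n := by
  have htn := tn_pos hn
  have hcr : cr (om n ^ k) (om n ^ k * (tn n * I)) = tn n := by
    have h1 := disx_conj n k
    have h2 := congrArg Complex.re h1
    rw [Complex.mul_re, Complex.conj_re, Complex.conj_im, Complex.one_re] at h2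
    unfold cr
    simp only [Complex.mul_re, Complex.mul_im, Complex.ofReal_re, Complex.ofReal_im,
      Complex.I_re, Complex.I_im]
    linear_combination tn n * h2
  have hcr0 : cr (om n ^ k) (om n ^ k * (tn n * I)) ≠ 0 := by
    rw [hcr]
    exact htn.ne'
  rw [← EnD_image, integral_image_eq_integral_abs_det_fderiv_smul volume
    EnD_compact.isClosed.measurableSet
    (fun z _ => (EnL (om n ^ k) (om n ^ k * (tn n * I))).hasFDerivAt.hasFDerivWithinAt)
    (EnL_inj hcr0).injOn, EnL_det, hcr, abs_of_pos htn]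
  have h3 : ∫ z in EnD, tn n • (1 : ℝ) = tn n * ∫ z in EnD, (1 : ℝ) := by
    rw [← integral_const_mul]
    rfl
  have h4 : ∫ z in EnD, (1 : ℝ) = 1 := by
    have h5 := EnD_fubini (G := fun _ _ => 1) continuous_const
    rw [h5]
    unfold JJ
    simp only [intervalIntegral.integral_const, smul_eq_mul, mul_one]
    have h6 : ∀ X : ℝ, X - -X = 2 * X := fun X => by ring
    simp only [h6]
    rw [intervalIntegral.integral_const_mul, integral_id]
    norm_num
  rw [h3, h4, mul_one]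

theorem up_int (hn : 3 ≤ n) {F : ℂ → ℝ} (hF : Continuous F) :
    ∫ z in Up n, F z = ∑ k ∈ Finset.range n,
      ∫ z in tri 0 (om n ^ k - om n ^ k * (tn n * I)) (om n ^ k + om n ^ k * (tn n * I)), F z := by
  rw [setIntegral_congr_set (disx_Up hn), integral_biUnion_finset]
  · exact Finset.sum_congr rfl fun k _ => setIntegral_congr_set (disx_T_tri hn k)
  · intro k _
    exact (disx_open n k).measurableSet
  · intro j hj k hk hjk
    have hj' : j < n := by simpa using hj
    have hk' : k < n := by simpa using hk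
    refine Set.disjoint_left.2 fun z hz1 hz2 => ?_
    have h1 := disx_lt hn hj' hk' hjk hz2
    have h2 := disx_lt hn hk' hj' hjk.symm hz1
    linarith
  · intro k _
    have h1 : IntegrableOn F
        (tri 0 (om n ^ k - om n ^ k * (tn n * I)) (om n ^ k + om n ^ k * (tn n * I))) :=
      hF.continuousOn.integrableOn_compact (disx_compact _ _ _)
    exact h1.mono_set fun z hz => (disx_tri hn k z).2 ⟨hz.1.le, hz.2.le⟩

theorem area_up (hn : 3 ≤ n) : area (Up n) = n * tn n := by
  have h1 := up_int hn (F := fun _ => (1 : ℝ)) continuous_const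
  rw [Finset.sum_congr rfl fun k _ => disx_area hn k, Finset.sum_const, Finset.card_range,
    nsmul_eq_mul] at h1
  rw [← h1]
  unfold area
  simp [Measure.real]

end Pool.Agent.H37.ST
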