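import Pool.Agent.H37.ST.Rng
import Pool.Agent.H32.SG.EnX

set_option autoImplicit false

/-! Steklov, part B, I7a: the pairing with `Ψ = r^n b(y)`, `b = bb n`, `b' = bbd n`, `t = tn n`.

PROOF. (i) `b 1 = om n * b (-1)`: `b 1 = (t²/3) i (1 + i t)`, `b (-1) = (t²/3) i (1 - i t)`, `om_eq` (SG/Omg).
(ii) for each `r`: by parts in `y` (`rf_deriv_y`), `∫ conj b rv = [conj b rf]_{-1}^1 - ∫ conj b' rf`, and the bracket is zero:
`rf n g r 1 = g (r (1 + i t)) = om n * rf n g r (-1)`, `conj om om = 1`.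
(iii) for each `y`: by parts in `r` (`rf_deriv_r`), `∫_0^1 r^n rp dr = rf n g 1 y - ∫_0^1 n r^(n-1) rf dr`.
(iv) swap the order of integration (`intervalIntegral_integral_interval_swap` or `MeasureTheory.intervalIntegral_integral...`; continuous
integrands) in the second term. The double integrals of `n r^(n-1) conj b' rf` cancel and there remains
`- ∫ conj b' (y) rf n g 1 y dy = - ∫ (-i t² y - t³/3) g (1 + i t y) dy = i t² ∫ y g = i t² 4 i Ka = -4 t² Ka`
(mean zero and `mom_eq` of SG/EnX). -/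

open Complex MeasureTheory Set Finset

namespace Pool.Agent.H37.ST

open Pool.Agent.H32.Stek hiding om perim area
open Pool.Agent.H32.Q4 hiding om
open Pool.Agent.H32.SG

/-- `b` and its derivative -/
noncomputable def bb (n : ℕ) (y : ℝ) : ℂ := ((tn n ^ 2 * y ^ 2 / 2 - tn n ^ 2 / 6 : ℝ) : ℂ) * I -
  ((tn n ^ 3 / 3 * y : ℝ) : ℂ)

noncomputable def bbd (n : ℕ) (y : ℝ) : ℂ := ((tn n ^ 2 * y : ℝ) : ℂ) * I - ((tn n ^ 3 / 3 : ℝ) : ℂ)

private theorem DuA_swap {F : ℝ → ℝ → ℂ} (h : Continuous fun z : ℝ × ℝ => F z.1 z.2)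
    (a b c d : ℝ) : ∫ x in a..b, ∫ y in c..d, F x y = ∫ y in c..d, ∫ x in a..b, F x y := by
  apply intervalIntegral_intervalIntegral_swap
  exact (h.continuousOn.integrableOn_compact (isCompact_uIcc.prod isCompact_uIcc)).mono_set
    (Set.prod_mono Set.uIoc_subset_uIcc Set.uIoc_subset_uIcc)

private theorem DuA_param {F : ℝ → ℝ → ℂ} (h : Continuous fun z : ℝ × ℝ => F z.1 z.2) (c d : ℝ) :
    Continuous fun x => ∫ y in c..d, F x y :=
  intervalIntegral.continuous_parametric_intervalIntegral_of_continuous' h c d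

private theorem DuA_x {F : ℝ → ℝ → ℂ} (h : Continuous fun z : ℝ × ℝ => F z.1 z.2) (x : ℝ) :
    Continuous fun y => F x y := h.comp (continuous_const.prodMk continuous_id)

private theorem DuA_y {F : ℝ → ℝ → ℂ} (h : Continuous fun z : ℝ × ℝ => F z.1 z.2) (y : ℝ) :
    Continuous fun x => F x y := h.comp (continuous_id.prodMk continuous_const)

private theorem DuA_bb (n : ℕ) (y : ℝ) : HasDerivAt (bb n) (bbd n y) y := by
  have h1 : HasDerivAt (fun y : ℝ => tn n ^ 2 * y ^ 2 / 2 - tn n ^ 2 / 6) (tn n ^ 2 * y) y := by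
    have h := (((hasDerivAt_pow 2 y).const_mul (tn n ^ 2)).div_const 2).sub_const (tn n ^ 2 / 6)
    refine h.congr_deriv ?_
    simp
    ring
  have h2 : HasDerivAt (fun y : ℝ => tn n ^ 3 / 3 * y) (tn n ^ 3 / 3) y := by
    simpa using (hasDerivAt_id y).const_mul (tn n ^ 3 / 3)
  exact (h1.ofReal_comp.mul_const I).sub h2.ofReal_comp

private theorem DuA_conj (n : ℕ) (y : ℝ) : HasDerivAt (fun y => (starRingEnd ℂ) (bb n y))
    ((starRingEnd ℂ) (bbd n y)) y :=
  (Complex.conjCLE : ℂ →L[ℝ] ℂ).hasFDerivAt.comp_hasDerivAt y (DuA_bb n y)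

private theorem DuA_bbd_cont (n : ℕ) : Continuous fun y => (starRingEnd ℂ) (bbd n y) := by
  have h : Continuous (bbd n) := by
    unfold bbd
    fun_prop
  exact Complex.continuous_conj.comp h

/-- integration by parts in `y` -/
private theorem DuA_a {n : ℕ} (hn : 3 ≤ n) {g : ℂ → ℂ} (hg : Tst n g) (r : ℝ) :
    ∫ y in (-1 : ℝ)..1, (starRingEnd ℂ) (bb n y) * rv n g r y =
      -∫ y in (-1 : ℝ)..1, (starRingEnd ℂ) (bbd n y) * rf n g r y := by
  have h := intervalIntegral.integral_mul_deriv_eq_deriv_mul (a := -1) (b := 1)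
    (u := fun y => (starRingEnd ℂ) (bb n y)) (u' := fun y => (starRingEnd ℂ) (bbd n y))
    (v := fun y => rf n g r y) (v' := fun y => rv n g r y) (fun y _ => DuA_conj n y)
    (fun y _ => rf_deriv_y hg.c1 r y) ((DuA_bbd_cont n).intervalIntegrable _ _)
    ((DuA_x (rv_cont hg.c1) r).intervalIntegrable _ _)
  have hom := om_eq hn
  have h1 : rf n g r 1 = om n * rf n g r (-1) := by
    unfold rf pt
    rw [← hg.rot]
    congr 1
    push_cast
    rw [mul_one, ← hom]
    ring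
  have h2 : bb n 1 = om n * bb n (-1) := by
    have e1 : bb n 1 = (tn n : ℂ) ^ 2 / 3 * I * (1 + tn n * I) := by
      unfold bb
      push_cast
      have hI : I ^ 2 = -1 := Complex.I_sq
      linear_combination (-(tn n : ℂ) ^ 3 / 3) * hI
    have e2 : bb n (-1) = (tn n : ℂ) ^ 2 / 3 * I * (1 - tn n * I) := by
      unfold bb
      push_cast
      have hI : I ^ 2 = -1 := Complex.I_sq
      linear_combination ((tn n : ℂ) ^ 3 / 3) * hI
    rw [e1, e2, ← hom]
    ring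
  have h3 : (starRingEnd ℂ) (om n) * om n = 1 := by
    rw [mul_comm, Complex.mul_conj, Complex.normSq_eq_norm_sq, norm_om]
    norm_num
  rw [h, h1, h2, map_mul]
  linear_combination ((starRingEnd ℂ) (bb n (-1)) * rf n g r (-1)) * h3

/-- integration by parts in `r` -/
private theorem DuA_b {n : ℕ} (hn : 3 ≤ n) {g : ℂ → ℂ} (hg : Tst n g) (y : ℝ) :
    ∫ r in (0 : ℝ)..1, ((r ^ n : ℝ) : ℂ) * rp n g r y =
      rf n g 1 y - ∫ r in (0 : ℝ)..1, ((n * r ^ (n - 1) : ℝ) : ℂ) * rf n g r y := by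
  have h := intervalIntegral.integral_mul_deriv_eq_deriv_mul (a := 0) (b := 1)
    (u := fun r : ℝ => ((r ^ n : ℝ) : ℂ)) (u' := fun r : ℝ => ((n * r ^ (n - 1) : ℝ) : ℂ))
    (v := fun r => rf n g r y) (v' := fun r => rp n g r y)
    (fun r _ => (hasDerivAt_pow n r).ofReal_comp)
    (fun r _ => rf_deriv_r hg.c1 r y)
    (Continuous.intervalIntegrable (by fun_prop) _ _)
    ((DuA_y (rp_cont hg.c1) y).intervalIntegrable _ _)
  rw [h, one_pow, zero_pow (by omega), Complex.ofReal_one, Complex.ofReal_zero, one_mul, zero_mul,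
    sub_zero]

theorem pairing {n : ℕ} (hn : 3 ≤ n) {g : ℂ → ℂ} (hg : Tst n g) :
    ∫ r in (0 : ℝ)..1, ∫ y in (-1 : ℝ)..1,
      (((n * r ^ (n - 1) : ℝ) : ℂ) * (starRingEnd ℂ) (bb n y) * rv n g r y -
        ((r ^ n : ℝ) : ℂ) * (starRingEnd ℂ) (bbd n y) * rp n g r y) =
      ((-(4 * tn n ^ 2 * Ka n g) : ℝ) : ℂ) := by
  have cf := rf_cont (n := n) hg.c1
  have cp := rp_cont (n := n) hg.c1
  have cv := rv_cont (n := n) hg.c1
  have cb : Continuous fun y => (starRingEnd ℂ) (bb n y) :=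
    continuous_iff_continuousAt.mpr fun y => (DuA_conj n y).continuousAt
  have cd := DuA_bbd_cont n
  have c1 : Continuous fun z : ℝ × ℝ => ((n * z.1 ^ (n - 1) : ℝ) : ℂ) *
      (starRingEnd ℂ) (bb n z.2) * rv n g z.1 z.2 :=
    ((by fun_prop : Continuous fun z : ℝ × ℝ => ((n * z.1 ^ (n - 1) : ℝ) : ℂ)).mul
      (cb.comp continuous_snd)).mul cv
  have c2 : Continuous fun z : ℝ × ℝ => ((z.1 ^ n : ℝ) : ℂ) *
      (starRingEnd ℂ) (bbd n z.2) * rp n g z.1 z.2 :=
    ((by fun_prop : Continuous fun z : ℝ × ℝ => ((z.1 ^ n : ℝ) : ℂ)).mul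
      (cd.comp continuous_snd)).mul cp
  have c3 : Continuous fun z : ℝ × ℝ => ((n * z.1 ^ (n - 1) : ℝ) : ℂ) *
      ((starRingEnd ℂ) (bbd n z.2) * rf n g z.1 z.2) :=
    (by fun_prop : Continuous fun z : ℝ × ℝ => ((n * z.1 ^ (n - 1) : ℝ) : ℂ)).mul
      ((cd.comp continuous_snd).mul cf)
  obtain ⟨F1, hF1⟩ : ∃ F : ℝ → ℝ → ℂ, F = fun r y => ((n * r ^ (n - 1) : ℝ) : ℂ) *
      (starRingEnd ℂ) (bb n y) * rv n g r y := ⟨_, rfl⟩
  obtain ⟨F2, hF2⟩ : ∃ F : ℝ → ℝ → ℂ, F = fun r y => ((r ^ n : ℝ) : ℂ) *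
      (starRingEnd ℂ) (bbd n y) * rp n g r y := ⟨_, rfl⟩
  obtain ⟨G, hG⟩ : ∃ F : ℝ → ℝ → ℂ, F = fun r y => ((n * r ^ (n - 1) : ℝ) : ℂ) *
      ((starRingEnd ℂ) (bbd n y) * rf n g r y) := ⟨_, rfl⟩
  have c1' : Continuous fun z : ℝ × ℝ => F1 z.1 z.2 := by rw [hF1]; exact c1
  have c2' : Continuous fun z : ℝ × ℝ => F2 z.1 z.2 := by rw [hF2]; exact c2
  have c3' : Continuous fun z : ℝ × ℝ => G z.1 z.2 := by rw [hG]; exact c3
  have e0 : (∫ r in (0 : ℝ)..1, ∫ y in (-1 : ℝ)..1,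
      (((n * r ^ (n - 1) : ℝ) : ℂ) * (starRingEnd ℂ) (bb n y) * rv n g r y -
        ((r ^ n : ℝ) : ℂ) * (starRingEnd ℂ) (bbd n y) * rp n g r y)) =
      (∫ r in (0 : ℝ)..1, ∫ y in (-1 : ℝ)..1, F1 r y) -
        ∫ r in (0 : ℝ)..1, ∫ y in (-1 : ℝ)..1, F2 r y := by
    rw [← intervalIntegral.integral_sub ((DuA_param c1' _ _).intervalIntegrable _ _)
      ((DuA_param c2' _ _).intervalIntegrable _ _)]
    refine intervalIntegral.integral_congr fun r _ => ?_
    rw [← intervalIntegral.integral_sub ((DuA_x c1' r).intervalIntegrable _ _)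
      ((DuA_x c2' r).intervalIntegrable _ _), hF1, hF2]
  have e1 : ∀ r : ℝ, ∫ y in (-1 : ℝ)..1, F1 r y = -∫ y in (-1 : ℝ)..1, G r y := by
    intro r
    rw [hF1, hG]
    simp only
    rw [intervalIntegral.integral_const_mul, ← mul_neg, ← DuA_a hn hg r,
      ← intervalIntegral.integral_const_mul]
    refine intervalIntegral.integral_congr fun y _ => ?_
    ring
  have e2 : ∀ y : ℝ, ∫ r in (0 : ℝ)..1, F2 r y =
      (starRingEnd ℂ) (bbd n y) * rf n g 1 y - ∫ r in (0 : ℝ)..1, G r y := by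
    intro y
    have h1 : ∫ r in (0 : ℝ)..1, F2 r y =
        (starRingEnd ℂ) (bbd n y) * ∫ r in (0 : ℝ)..1, ((r ^ n : ℝ) : ℂ) * rp n g r y := by
      rw [← intervalIntegral.integral_const_mul, hF2]
      refine intervalIntegral.integral_congr fun r _ => ?_
      ring
    have h2 : ∫ r in (0 : ℝ)..1, G r y =
        (starRingEnd ℂ) (bbd n y) *
          ∫ r in (0 : ℝ)..1, ((n * r ^ (n - 1) : ℝ) : ℂ) * rf n g r y := by
      rw [← intervalIntegral.integral_const_mul, hG]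
      refine intervalIntegral.integral_congr fun r _ => ?_
      ring
    rw [h1, h2, DuA_b hn hg y]
    ring
  have cG : Continuous fun y : ℝ => ∫ r in (0 : ℝ)..1, G r y :=
    DuA_param (F := fun y r => G r y) (c3'.comp continuous_swap) 0 1
  have c4 : Continuous fun y : ℝ => (starRingEnd ℂ) (bbd n y) * rf n g 1 y :=
    cd.mul (DuA_x cf 1)
  rw [e0, DuA_swap c2']
  simp only [e1, e2]
  rw [intervalIntegral.integral_neg, intervalIntegral.integral_sub (c4.intervalIntegrable _ _)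
    (cG.intervalIntegrable _ _), ← DuA_swap c3']
  -- the last integral
  have hgc := hg.c1.continuous
  have hmom := mom_eq hg
  have hmean := hg.mean
  have i1 : IntervalIntegrable (fun y : ℝ => (y : ℂ) * g (1 + (tn n * y : ℝ) * I)) volume (-1) 1 :=
    Continuous.intervalIntegrable (by fun_prop) _ _
  have i2 : IntervalIntegrable (fun y : ℝ => g (1 + (tn n * y : ℝ) * I)) volume (-1) 1 :=
    Continuous.intervalIntegrable (by fun_prop) _ _
  have e3 : ∫ y in (-1 : ℝ)..1, (starRingEnd ℂ) (bbd n y) * rf n g 1 y =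
      -((tn n : ℂ) ^ 2 * I) * (∫ y in (-1 : ℝ)..1, (y : ℂ) * g (1 + (tn n * y : ℝ) * I)) -
        (tn n : ℂ) ^ 3 / 3 * ∫ y in (-1 : ℝ)..1, g (1 + (tn n * y : ℝ) * I) := by
    rw [← intervalIntegral.integral_const_mul, ← intervalIntegral.integral_const_mul,
      ← intervalIntegral.integral_sub (i1.const_mul _) (i2.const_mul _)]
    refine intervalIntegral.integral_congr fun y _ => ?_
    have h1 : rf n g 1 y = g (1 + (tn n * y : ℝ) * I) := by
      unfold rf pt
      rw [Complex.ofReal_one, one_mul]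
    have h2 : (starRingEnd ℂ) (bbd n y) = -((tn n : ℂ) ^ 2 * I) * y - (tn n : ℂ) ^ 3 / 3 := by
      unfold bbd
      rw [map_sub, map_mul, Complex.conj_ofReal, Complex.conj_ofReal, Complex.conj_I]
      push_cast
      ring
    rw [h1, h2]
    ring
  rw [e3, hmom, hmean]
  push_cast
  have hI : I ^ 2 = -1 := Complex.I_sq
  linear_combination (4 * (tn n : ℂ) ^ 2 * (Ka n g : ℂ)) * hI

end Pool.Agent.H37.ST
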