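import Pool.Agent.H37.ST.Dis
import Pool.Agent.H32.Q4.Bt

set_option autoImplicit false

/-! Steklov, part B: energy and boundary integrals of the regular polygon.

PROOFS. `en_up`: `up_int` for the continuous function `‖grad u‖²` and `energy_cov` (Q4/En) on each triangle with `P = om^k`,
`W = om^k (i t)`, `F X Y = u (X P + Y W)`, `F_X = fderiv u (·) P`, `F_Y = fderiv u (·) W = t fderiv u (·) (om^k i)`; `dt P P = 1`,
`dt P W = 0`, `dt W W = t²`, `cr P W = t`: `JJ (t² F_X² + F_Y²) / t = t JJ (F_X² + (fderiv u (·) (om^k i))²)`.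
`bd_rg`: side `k` goes from `P - W` to `P + W` (`rg n k = (1 - i t) om^k`, `rg_eq`); `segInt_mid` (Q4/Bt), `‖W‖ = t`. -/

open Complex MeasureTheory Set Finset

namespace Pool.Agent.H37.ST

open Pool.Agent.H32.Stek hiding om perim area
open Pool.Agent.H32.Q4 hiding om
open Pool.Agent.H32.SG

variable {n : ℕ}

private lemma er_norm (k : ℕ) : ‖om n ^ k‖ = 1 := by
  rw [norm_pow, norm_om, one_pow]

private lemma er_sq {P : ℂ} (hP : ‖P‖ = 1) : P.re ^ 2 + P.im ^ 2 = 1 := by
  have h := Complex.normSq_eq_norm_sq P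
  rw [Complex.normSq_apply, hP] at h
  nlinarith

theorem en_up (hn : 3 ≤ n) {u : ℂ → ℝ} (hu : ContDiff ℝ 1 u) :
    en (Up n) u = ∑ k ∈ Finset.range n, tn n * JJ (fun X Y =>
      fderiv ℝ u (om n ^ k * (X + (tn n * Y : ℝ) * I)) (om n ^ k) ^ 2 +
      fderiv ℝ u (om n ^ k * (X + (tn n * Y : ℝ) * I)) (om n ^ k * I) ^ 2) := by
  have ht := tn_pos hn
  have hfd : Continuous fun z => fderiv ℝ u z := hu.continuous_fderiv (by simp)
  have hgr : (fun z => ‖grad u z‖ ^ 2) = fun z => fderiv ℝ u z 1 ^ 2 + fderiv ℝ u z I ^ 2 := by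
    funext z
    rw [← Complex.normSq_eq_norm_sq, Complex.normSq_apply, grad]
    ring
  have hc : Continuous fun z => ‖grad u z‖ ^ 2 := by
    rw [hgr]
    exact ((hfd.clm_apply continuous_const).pow 2).add ((hfd.clm_apply continuous_const).pow 2)
  unfold en
  rw [up_int hn hc]
  refine Finset.sum_congr rfl fun k _ => ?_
  set P : ℂ := om n ^ k with hP
  have hP1 : P.re ^ 2 + P.im ^ 2 = 1 := er_sq (er_norm k)
  set W : ℂ := P * (tn n * I) with hW
  have hWre : W.re = -(tn n * P.im) := by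
    rw [hW]; simp; ring
  have hWim : W.im = tn n * P.re := by
    rw [hW]; simp; ring
  have hcr : cr P W = tn n := by
    unfold cr
    rw [hWre, hWim]
    linear_combination tn n * hP1
  have hWW : dt W W = tn n ^ 2 := by
    unfold dt
    rw [hWre, hWim]
    linear_combination tn n ^ 2 * hP1
  have hPW : dt P W = 0 := by
    unfold dt
    rw [hWre, hWim]
    ring
  have hPP : dt P P = 1 := by
    unfold dt
    linear_combination hP1
  have hpt : ∀ X Y : ℝ, (X : ℂ) * P + Y * W = P * (X + (tn n * Y : ℝ) * I) := by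
    intro X Y
    rw [hW]
    push_cast
    ring
  have hdu : ∀ z, HasFDerivAt u (fderiv ℝ u z) z := fun z =>
    (hu.differentiable (by simp) z).hasFDerivAt
  have hlin : Continuous fun z : ℝ × ℝ => (z.1 : ℂ) * P + z.2 * W := by fun_prop
  have h := energy_cov (P := P) (W := W) (by rw [hcr]; exact ht.ne') (u := u)
    (F := fun X Y => u ((X : ℂ) * P + Y * W))
    (FX := fun X Y => fderiv ℝ u ((X : ℂ) * P + Y * W) P)
    (FY := fun X Y => fderiv ℝ u ((X : ℂ) * P + Y * W) W)
    (fun X Y => by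
      have h1 : HasDerivAt (fun x : ℝ => (x : ℂ) * P + Y * W) P X := by
        have h2 : HasDerivAt (fun x : ℝ => (x : ℂ)) 1 X := Complex.ofRealCLM.hasDerivAt
        have h3 := (h2.mul_const P).add_const ((Y : ℂ) * W)
        rwa [one_mul] at h3
      exact (hdu _).comp_hasDerivAt X h1)
    (fun X Y => by
      have h1 : HasDerivAt (fun y : ℝ => (X : ℂ) * P + y * W) W Y := by
        have h2 : HasDerivAt (fun x : ℝ => (x : ℂ)) 1 Y := Complex.ofRealCLM.hasDerivAt
        have h3 := (h2.mul_const W).const_add ((X : ℂ) * P)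
        rwa [one_mul] at h3
      exact (hdu _).comp_hasDerivAt Y h1)
    ((hfd.comp hlin).clm_apply continuous_const)
    ((hfd.comp hlin).clm_apply continuous_const)
    (fun X Y _ _ => rfl)
  rw [h, hcr, hWW, hPW, hPP, abs_of_pos ht]
  have hFW : ∀ z, fderiv ℝ u z W = tn n * fderiv ℝ u z (P * I) := by
    intro z
    have h1 : W = tn n • (P * I) := by
      rw [hW, Complex.real_smul]
      ring
    rw [h1, map_smul, smul_eq_mul]
  have hJJ : ∀ (c : ℝ) (f : ℝ → ℝ → ℝ), JJ (fun X Y => c * f X Y) = c * JJ f := by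
    intro c f
    unfold JJ
    rw [← intervalIntegral.integral_const_mul]
    refine intervalIntegral.integral_congr fun X _ => ?_
    exact intervalIntegral.integral_const_mul _ _
  have hfun : (fun X Y : ℝ => tn n ^ 2 * fderiv ℝ u ((X : ℂ) * P + Y * W) P ^ 2 -
      2 * 0 * (fderiv ℝ u ((X : ℂ) * P + Y * W) P * fderiv ℝ u ((X : ℂ) * P + Y * W) W) +
      1 * fderiv ℝ u ((X : ℂ) * P + Y * W) W ^ 2) = fun X Y : ℝ => tn n ^ 2 *
      (fderiv ℝ u (P * (X + (tn n * Y : ℝ) * I)) P ^ 2 +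
      fderiv ℝ u (P * (X + (tn n * Y : ℝ) * I)) (P * I) ^ 2) := by
    funext X Y
    rw [hFW, hpt]
    ring
  rw [hfun, hJJ, div_eq_iff ht.ne']
  ring

theorem bd_rg (hn : 3 ≤ n) (F : ℂ → ℝ) :
    bd n (rg n) F = ∑ k ∈ Finset.range n, tn n * ∫ Y in (-1 : ℝ)..1, F (om n ^ k * (1 + (tn n * Y : ℝ) * I)) := by
  have ht := tn_pos hn
  unfold bd
  refine Finset.sum_congr rfl fun k _ => ?_
  have h0 : rg n k = om n ^ k - om n ^ k * (tn n * I) := by
    unfold rg
    ring
  have h1 : rg n (k + 1) = om n ^ k + om n ^ k * (tn n * I) := by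
    rw [rg_eq hn]
    ring
  rw [h0, h1, segInt_mid]
  have h2 : ‖om n ^ k * (tn n * I)‖ = tn n := by
    rw [norm_mul, er_norm, one_mul, norm_mul, Complex.norm_I, mul_one, Complex.norm_real,
      Real.norm_of_nonneg ht.le]
  rw [h2]
  congr 1
  refine intervalIntegral.integral_congr fun Y _ => ?_
  show F _ = F _
  congr 1
  push_cast
  ring

end Pool.Agent.H37.ST
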