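import Pool.Agent.H37.ST.EnR
import Pool.Agent.H45.SN.FP

set_option autoImplicit false

/-! Steklov, part B, I5: finite Fourier transform over the rotation group.

PROOFS. `fm n m u z = (1/n) ∑_k e^{-2πi mk/n} u (om^k z)`. `fm_cls`: shift the summation index (`om^n = 1`, `e^{-2πi m n/n} = 1`).
`fm_B`: at each point `∑_m ‖fm n m u z‖² = (1/n) ∑_k u (om^k z)²` (`parseval` of SN/FP), integrate over side `0`, compare
`bd_rg`. `fm_E`: `fderiv ℝ (fm n m u) z v = (1/n) ∑_k e^{-2πi mk/n} fderiv ℝ u (om^k z) (om^k v)`, `parseval` for `v = 1` and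
`v = i`, `JJ` of a sum (continuous functions), `en_up`. `fm_mean`: `∫_{-1}^1 fm n 0 u (1 + i t Y) dY = (1/(n t)) bd u`, `bd_rg`. -/

open Complex MeasureTheory Set Finset

namespace Pool.Agent.H37.ST

open Pool.Agent.H32.Stek hiding om perim area
open Pool.Agent.H32.Q4 hiding om
open Pool.Agent.H32.SG

variable {n : ℕ}

noncomputable def fm (n m : ℕ) (u : ℂ → ℝ) (z : ℂ) : ℂ :=
  (1 / n : ℂ) * ∑ k ∈ Finset.range n, exp (-(2 * Real.pi * m * k / n : ℝ) * I) * (u (om n ^ k * z) : ℂ)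

/-- the coefficients -/
private noncomputable def fou_e (n m k : ℕ) : ℂ := exp (-(2 * Real.pi * m * k / n : ℝ) * I)

private theorem fou_om (n m k : ℕ) (hn : 0 < n) :
    fou_e n m k = om n ^ m * fou_e n m (k + 1) := by
  unfold fou_e om
  rw [← Complex.exp_nat_mul, ← Complex.exp_add]
  congr 1
  have hn0 : (n : ℂ) ≠ 0 := by exact_mod_cast hn.ne'
  push_cast
  field_simp
  ring

private theorem fou_zero (n m : ℕ) : fou_e n m 0 = 1 := by
  unfold fou_e
  simp

private theorem fou_per (n m : ℕ) (hn : 0 < n) : fou_e n m n = 1 := by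
  unfold fou_e
  rw [Complex.exp_eq_one_iff]
  refine ⟨-(m : ℤ), ?_⟩
  have hn0 : (n : ℂ) ≠ 0 := by exact_mod_cast hn.ne'
  push_cast
  field_simp

private theorem fou_fm (n m : ℕ) (u : ℂ → ℝ) (z : ℂ) :
    fm n m u z = (1 / n : ℂ) * ∑ k ∈ Finset.range n, fou_e n m k * (u (om n ^ k * z) : ℂ) := rfl

theorem fm_cls (hn : 3 ≤ n) (m : ℕ) {u : ℂ → ℝ} (hu : ContDiff ℝ 1 u) : Cls n m (fm n m u) := by
  constructor
  · unfold fm
    refine contDiff_const.mul (ContDiff.sum fun k _ => contDiff_const.mul ?_)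
    exact Complex.ofRealCLM.contDiff.comp (hu.comp (contDiff_const.mul contDiff_id))
  · intro z
    rw [fou_fm, fou_fm]
    have hn0 : 0 < n := by omega
    have h1 : ∀ k ∈ Finset.range n, fou_e n m k * (u (om n ^ k * (om n * z)) : ℂ) =
        om n ^ m * (fou_e n m (k + 1) * (u (om n ^ (k + 1) * z) : ℂ)) := by
      intro k _
      rw [fou_om n m k hn0, mul_assoc]
      congr 3
      rw [pow_succ, mul_assoc]
    rw [Finset.sum_congr rfl h1, ← Finset.mul_sum]
    have h2 : ∑ k ∈ Finset.range n, fou_e n m (k + 1) * (u (om n ^ (k + 1) * z) : ℂ) =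
        ∑ k ∈ Finset.range n, fou_e n m k * (u (om n ^ k * z) : ℂ) := by
      have a1 := Finset.sum_range_succ (fun k => fou_e n m k * (u (om n ^ k * z) : ℂ)) n
      have a2 := Finset.sum_range_succ' (fun k => fou_e n m k * (u (om n ^ k * z) : ℂ)) n
      rw [a1] at a2
      simp only [fou_zero, fou_per n m hn0, om_pow hn0, pow_zero] at a2
      exact (add_right_cancel a2).symm
    rw [h2]
    ring

/-- Parseval at a point -/
private theorem fou_parseval (hn : 3 ≤ n) (a : ℕ → ℝ) :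
    n * ∑ m ∈ Finset.range n, ‖(1 / n : ℂ) * ∑ k ∈ Finset.range n, fou_e n m k * (a k : ℂ)‖ ^ 2 =
      ∑ k ∈ Finset.range n, a k ^ 2 := by
  have hn0 : (n : ℝ) ≠ 0 := by exact_mod_cast (by omega : n ≠ 0)
  have h1 := Pool.Agent.H45.SN.parseval (n := n) (by omega) (fun k => (a k : ℂ))
  have h2 : ∀ m ∈ Finset.range n,
      ‖(1 / n : ℂ) * ∑ k ∈ Finset.range n, fou_e n m k * (a k : ℂ)‖ ^ 2 =
      (1 / n ^ 2 : ℝ) * ‖∑ k ∈ Finset.range n,
        exp (-(2 * Real.pi * m * k / n : ℝ) * I) * (a k : ℂ)‖ ^ 2 := by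
    intro m _
    rw [norm_mul, mul_pow]
    congr 1
    rw [norm_div, norm_one, Complex.norm_natCast, div_pow, one_pow]
  rw [Finset.sum_congr rfl h2, ← Finset.mul_sum, h1]
  have h3 : ∀ k ∈ Finset.range n, ‖((a k : ℝ) : ℂ)‖ ^ 2 = a k ^ 2 := by
    intro k _
    rw [Complex.norm_real, Real.norm_eq_abs, sq_abs]
  rw [Finset.sum_congr rfl h3]
  field_simp

private theorem fou_int (a b : ℝ) {s : Finset ℕ} {h : ℕ → ℝ → ℝ} (c : ∀ i, Continuous (h i)) :
    ∑ i ∈ s, ∫ Y in a..b, h i Y = ∫ Y in a..b, ∑ i ∈ s, h i Y :=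
  (intervalIntegral.integral_finsetSum fun i _ => (c i).intervalIntegrable _ _).symm

theorem fm_B (hn : 3 ≤ n) {u : ℂ → ℝ} (hu : ContDiff ℝ 1 u) :
    n * ∑ m ∈ Finset.range n, tn n * B1 n (fm n m u) = bd n (rg n) (fun z => u z ^ 2) := by
  have huc := hu.continuous
  rw [bd_rg hn]
  have cfm : ∀ m, Continuous fun Y : ℝ => ‖fm n m u (1 + (tn n * Y : ℝ) * I)‖ ^ 2 := by
    intro m
    exact ((((fm_cls hn m hu).c1.continuous).comp (by fun_prop)).norm).pow 2
  have cu : ∀ k : ℕ, Continuous fun Y : ℝ => u (om n ^ k * (1 + (tn n * Y : ℝ) * I)) ^ 2 := by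
    intro k
    exact (huc.comp (by fun_prop)).pow 2
  rw [← Finset.mul_sum, ← Finset.mul_sum, fou_int _ _ cu]
  unfold B1
  rw [fou_int _ _ cfm, mul_left_comm, ← intervalIntegral.integral_const_mul]
  congr 1
  refine intervalIntegral.integral_congr fun Y _ => ?_
  exact fou_parseval hn (fun k => u (om n ^ k * (1 + (tn n * Y : ℝ) * I)))

private theorem fou_outc {h : ℝ → ℝ → ℝ} (c : Continuous fun z : ℝ × ℝ => h z.1 z.2) :
    Continuous fun X : ℝ => ∫ Y in (-X)..X, h X Y := by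
  have e : (fun X : ℝ => ∫ Y in (-X)..X, h X Y) =
      fun X : ℝ => (∫ Y in (0 : ℝ)..X, h X Y) - ∫ Y in (0 : ℝ)..(-X), h X Y := by
    funext X
    have hX : Continuous (h X) := c.comp (continuous_const.prodMk continuous_id)
    rw [intervalIntegral.integral_interval_sub_left (hX.intervalIntegrable _ _)
      (hX.intervalIntegrable _ _)]
  rw [e]
  have c' : Continuous (Function.uncurry h) := c
  exact (intervalIntegral.continuous_parametric_intervalIntegral_of_continuous c' continuous_id).sub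
    (intervalIntegral.continuous_parametric_intervalIntegral_of_continuous c' continuous_neg)

private theorem fou_JJ {s : Finset ℕ} {h : ℕ → ℝ → ℝ → ℝ}
    (c : ∀ i, Continuous fun z : ℝ × ℝ => h i z.1 z.2) :
    ∑ i ∈ s, JJ (h i) = JJ (fun X Y => ∑ i ∈ s, h i X Y) := by
  unfold JJ
  rw [fou_int (h := fun i X => ∫ Y in (-X)..X, h i X Y) 0 1 (fun i => fou_outc (c i))]
  refine intervalIntegral.integral_congr fun X _ => ?_
  exact fou_int (h := fun i Y => h i X Y) (-X) X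
    (fun i => (c i).comp (continuous_const.prodMk continuous_id))

private theorem fou_jmul (k : ℝ) (f : ℝ → ℝ → ℝ) : JJ (fun X Y => k * f X Y) = k * JJ f := by
  unfold JJ
  simp only [intervalIntegral.integral_const_mul]

private theorem fou_fderiv (hn : 3 ≤ n) (m : ℕ) {u : ℂ → ℝ} (hu : ContDiff ℝ 1 u) (z v : ℂ) :
    fderiv ℝ (fm n m u) z v = (1 / n : ℂ) * ∑ k ∈ Finset.range n,
      fou_e n m k * (fderiv ℝ u (om n ^ k * z) (om n ^ k * v) : ℂ) := by
  have hd := hu.differentiable (by norm_num)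
  have h1 : ∀ k : ℕ, HasFDerivAt (fun z : ℂ => ((u (om n ^ k * z) : ℝ) : ℂ))
      (Complex.ofRealCLM.comp ((fderiv ℝ u (om n ^ k * z)).comp
        ((ContinuousLinearMap.mul ℝ ℂ) (om n ^ k)))) z := by
    intro k
    have g1 : HasFDerivAt (fun z => om n ^ k * z)
        ((ContinuousLinearMap.mul ℝ ℂ) (om n ^ k)) z :=
      ((ContinuousLinearMap.mul ℝ ℂ) (om n ^ k)).hasFDerivAt
    have g2 : HasFDerivAt (fun z => u (om n ^ k * z))
        ((fderiv ℝ u (om n ^ k * z)).comp ((ContinuousLinearMap.mul ℝ ℂ) (om n ^ k))) z :=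
      (hd (om n ^ k * z)).hasFDerivAt.comp z g1
    exact Complex.ofRealCLM.hasFDerivAt.comp z g2
  have h2 : HasFDerivAt (fm n m u) ((ContinuousLinearMap.mul ℝ ℂ (1 / n : ℂ)).comp
      (∑ k ∈ Finset.range n, (ContinuousLinearMap.mul ℝ ℂ (fou_e n m k)).comp
        (Complex.ofRealCLM.comp ((fderiv ℝ u (om n ^ k * z)).comp
        ((ContinuousLinearMap.mul ℝ ℂ) (om n ^ k)))))) z := by
    have g3 : HasFDerivAt (fun z : ℂ => ∑ k ∈ Finset.range n,
        fou_e n m k * ((u (om n ^ k * z) : ℝ) : ℂ))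
        (∑ k ∈ Finset.range n, (ContinuousLinearMap.mul ℝ ℂ (fou_e n m k)).comp
        (Complex.ofRealCLM.comp ((fderiv ℝ u (om n ^ k * z)).comp
        ((ContinuousLinearMap.mul ℝ ℂ) (om n ^ k))))) z := by
      refine HasFDerivAt.fun_sum fun k _ => ?_
      exact (ContinuousLinearMap.mul ℝ ℂ (fou_e n m k)).hasFDerivAt.comp z (h1 k)
    exact (ContinuousLinearMap.mul ℝ ℂ (1 / n : ℂ)).hasFDerivAt.comp z g3
  rw [h2.fderiv]
  simp only [ContinuousLinearMap.comp_apply, _root_.sum_apply,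
    ContinuousLinearMap.mul_apply']
  rfl

theorem fm_E (hn : 3 ≤ n) {u : ℂ → ℝ} (hu : ContDiff ℝ 1 u) :
    n * ∑ m ∈ Finset.range n, E0 n (fm n m u) = en (Up n) u := by
  have hfd : Continuous (fderiv ℝ u) := hu.continuous_fderiv (by norm_num)
  have cz1 : Continuous fun z : ℝ × ℝ => ((z.1 : ℂ) + (tn n * z.2 : ℝ) * I) := by
    fun_prop
  have cz : ∀ k : ℕ, Continuous fun z : ℝ × ℝ => om n ^ k * ((z.1 : ℂ) + (tn n * z.2 : ℝ) * I) := by
    intro k
    fun_prop
  have cd : ∀ (k : ℕ) (v : ℂ), Continuous fun z : ℝ × ℝ =>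
      fderiv ℝ u (om n ^ k * ((z.1 : ℂ) + (tn n * z.2 : ℝ) * I)) (om n ^ k * v) ^ 2 :=
    fun k v => ((hfd.comp (cz k)).clm_apply continuous_const).pow 2
  have cm : ∀ (m : ℕ) (v : ℂ), Continuous fun z : ℝ × ℝ =>
      ‖fderiv ℝ (fm n m u) ((z.1 : ℂ) + (tn n * z.2 : ℝ) * I) v‖ ^ 2 := by
    intro m v
    have hm : Continuous (fderiv ℝ (fm n m u)) :=
      (fm_cls hn m hu).c1.continuous_fderiv (by norm_num)
    exact (((hm.comp cz1).clm_apply continuous_const).norm).pow 2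
  -- parseval for a direction
  have key : ∀ v : ℂ, n * ∑ m ∈ Finset.range n, (tn n * JJ (fun X Y =>
      ‖fderiv ℝ (fm n m u) (X + (tn n * Y : ℝ) * I) v‖ ^ 2)) =
      ∑ k ∈ Finset.range n, (tn n * JJ (fun X Y =>
        fderiv ℝ u (om n ^ k * (X + (tn n * Y : ℝ) * I)) (om n ^ k * v) ^ 2)) := by
    intro v
    rw [← Finset.mul_sum, ← Finset.mul_sum, fou_JJ (fun m => cm m v), fou_JJ (fun k => cd k v),
      mul_left_comm, ← fou_jmul]
    congr 2
    funext X Y
    simp only [fou_fderiv hn _ hu]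
    exact fou_parseval hn
      (fun k => fderiv ℝ u (om n ^ k * (X + (tn n * Y : ℝ) * I)) (om n ^ k * v))
  rw [en_up hn hu]
  have e1 : ∑ m ∈ Finset.range n, E0 n (fm n m u) =
      ∑ m ∈ Finset.range n, (tn n * JJ (fun X Y =>
        ‖fderiv ℝ (fm n m u) (X + (tn n * Y : ℝ) * I) 1‖ ^ 2)) +
      ∑ m ∈ Finset.range n, (tn n * JJ (fun X Y =>
        ‖fderiv ℝ (fm n m u) (X + (tn n * Y : ℝ) * I) I‖ ^ 2)) := by
    rw [← Finset.sum_add_distrib]
    rfl
  rw [e1, mul_add, key 1, key I, ← Finset.sum_add_distrib]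
  refine Finset.sum_congr rfl fun k _ => ?_
  rw [← mul_add]
  congr 1
  have e2 := fou_JJ (s := Finset.range 2) (h := fun i X Y =>
    if i = 0 then fderiv ℝ u (om n ^ k * (X + (tn n * Y : ℝ) * I)) (om n ^ k * 1) ^ 2
    else fderiv ℝ u (om n ^ k * (X + (tn n * Y : ℝ) * I)) (om n ^ k * I) ^ 2) (by
      intro i
      by_cases hi : i = 0
      · simp only [hi, if_true]
        exact cd k 1
      · simp only [hi, if_false]
        exact cd k I)
  simp only [Finset.sum_range_succ, Finset.sum_range_zero, zero_add, if_true,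
    one_ne_zero, if_false, mul_one] at e2
  rw [mul_one]
  exact e2

theorem fm_mean (hn : 3 ≤ n) {u : ℂ → ℝ} (hu : ContDiff ℝ 1 u) (h0 : bd n (rg n) u = 0) :
    ∫ Y in (-1 : ℝ)..1, fm n 0 u (1 + (tn n * Y : ℝ) * I) = 0 := by
  have huc := hu.continuous
  rw [bd_rg hn] at h0
  have cu : ∀ k : ℕ, Continuous fun Y : ℝ => u (om n ^ k * (1 + (tn n * Y : ℝ) * I)) := by
    intro k
    exact huc.comp (by fun_prop)
  rw [← Finset.mul_sum, fou_int _ _ cu] at h0
  have h1 : ∫ Y in (-1 : ℝ)..1, ∑ k ∈ Finset.range n, u (om n ^ k * (1 + (tn n * Y : ℝ) * I)) = 0 :=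
    (mul_eq_zero.1 h0).resolve_left (tn_pos hn).ne'
  have h2 : ∀ Y : ℝ, fm n 0 u (1 + (tn n * Y : ℝ) * I) = (1 / n : ℂ) *
      ((∑ k ∈ Finset.range n, u (om n ^ k * (1 + (tn n * Y : ℝ) * I)) : ℝ) : ℂ) := by
    intro Y
    rw [fou_fm]
    congr 1
    push_cast
    refine Finset.sum_congr rfl fun k _ => ?_
    have : fou_e n 0 k = 1 := by
      unfold fou_e
      simp
    rw [this, one_mul]
  simp only [h2]
  rw [intervalIntegral.integral_const_mul, intervalIntegral.integral_ofReal, h1]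
  simp

end Pool.Agent.H37.ST
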