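import Pool.Agent.H37.ST.D

set_option autoImplicit false

/-! Steklov, part B: two pointwise inequalities. `h = sin (π/n)`, `d = cos (π/n)`, `t = tan (π/n) = h/d`.

PROOFS. `a, b ∈ ℂ` are the partial derivatives `f_x, f_y`, `s = t y`.
A: `‖a‖² + ‖b‖² - d² ‖a + s b‖² - (1-y²) ‖b‖² = ‖h a - y d b‖²` (with `h² = 1 - d²`, `d² t = d h`,
`y² - d² s² = y² (1 - h²) = y² d²`).
B: `‖a‖² + ‖b‖² - (1-h) ‖a + s b‖² - (1/(1+h)) ‖b‖² = h ‖a‖² - 2 (1-h) s Re (conj a b) + (h/(1+h) - (1-h) s²) ‖b‖²`, and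
`h (h/(1+h) - (1-h) s²) ≥ (1-h)² s²` since `s² ≤ t² = h²/((1-h)(1+h))` (`(1-h) s² (h + 1 - h) ≤ h²/(1+h)`); so it is
`≥ (1/h) ‖h a - (1-h) s b‖² ≥ 0`. -/

open Complex

namespace Pool.Agent.H37.ST

open Pool.Agent.H32.SG

private theorem ptA_trig {n : ℕ} (hn : 3 ≤ n) : 0 < Real.sin (Real.pi / n) ∧
    0 < Real.cos (Real.pi / n) ∧ Real.sin (Real.pi / n) < 1 ∧
    Real.sin (Real.pi / n) ^ 2 + Real.cos (Real.pi / n) ^ 2 = 1 := by
  have hn' : (3 : ℝ) ≤ n := by exact_mod_cast hn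
  have hpi := Real.pi_pos
  have h1 : 0 < Real.pi / n := by positivity
  have h2 : Real.pi / n < Real.pi / 2 :=
    div_lt_div_of_pos_left hpi (by norm_num) (by linarith)
  have hs : 0 < Real.sin (Real.pi / n) := Real.sin_pos_of_pos_of_lt_pi h1 (by linarith)
  have hc : 0 < Real.cos (Real.pi / n) :=
    Real.cos_pos_of_mem_Ioo ⟨by linarith, h2⟩
  have hsc := Real.sin_sq_add_cos_sq (Real.pi / n)
  refine ⟨hs, hc, ?_, hsc⟩
  nlinarith [mul_pos hc hc]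

private theorem ptA_norm (a b : ℂ) (s : ℝ) :
    ‖a + (s : ℝ) * b‖ ^ 2 = (a.re + s * b.re) ^ 2 + (a.im + s * b.im) ^ 2 := by
  rw [Complex.sq_norm, Complex.normSq_apply]
  simp only [Complex.add_re, Complex.mul_re, Complex.ofReal_re, Complex.ofReal_im,
    Complex.add_im, Complex.mul_im]
  ring

private theorem ptA_norm' (a : ℂ) : ‖a‖ ^ 2 = a.re ^ 2 + a.im ^ 2 := by
  rw [Complex.sq_norm, Complex.normSq_apply]
  ring

theorem ptA {n : ℕ} (hn : 3 ≤ n) (a b : ℂ) (y : ℝ) :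
    Real.cos (Real.pi / n) ^ 2 * ‖a + (tn n * y : ℝ) * b‖ ^ 2 + (1 - y ^ 2) * ‖b‖ ^ 2 ≤
      ‖a‖ ^ 2 + ‖b‖ ^ 2 := by
  obtain ⟨hs, hc, -, hsc⟩ := ptA_trig hn
  have ht : Real.cos (Real.pi / n) * tn n = Real.sin (Real.pi / n) := by
    unfold tn
    rw [Real.tan_eq_sin_div_cos]
    field_simp
  rw [ptA_norm, ptA_norm', ptA_norm']
  set h := Real.sin (Real.pi / n)
  set d := Real.cos (Real.pi / n)
  set t := tn n
  have key : ∀ p u : ℝ, d ^ 2 * (p + t * y * u) ^ 2 + (1 - y ^ 2) * u ^ 2 +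
      (h * p - d * y * u) ^ 2 = p ^ 2 + u ^ 2 := by
    intro p u
    have e : d ^ 2 * (p + t * y * u) ^ 2 = (d * p + (d * t) * y * u) ^ 2 := by ring
    rw [e, ht]
    linear_combination (p ^ 2 + y ^ 2 * u ^ 2) * hsc
  have k1 := key a.re b.re
  have k2 := key a.im b.im
  nlinarith [sq_nonneg (h * a.re - d * y * b.re), sq_nonneg (h * a.im - d * y * b.im)]

private theorem ptB_real {h s : ℝ} (h0 : 0 < h) (h1 : h < 1)
    (hs : s ^ 2 * ((1 - h) * (1 + h)) ≤ h ^ 2) (p u : ℝ) :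
    (1 - h) * (p + s * u) ^ 2 + 1 / (1 + h) * u ^ 2 ≤ p ^ 2 + u ^ 2 := by
  have e1 : 0 < 1 + h := by linarith
  have e2 : (1 - h) * s ^ 2 ≤ h ^ 2 / (1 + h) := by
    rw [le_div_iff₀ e1]
    nlinarith
  have e3 : 1 / (1 + h) = 1 - h / (1 + h) := by field_simp; ring
  have e4 : h * (p ^ 2 + u ^ 2 - ((1 - h) * (p + s * u) ^ 2 + 1 / (1 + h) * u ^ 2)) =
      (h * p - (1 - h) * s * u) ^ 2 + (h ^ 2 / (1 + h) - (1 - h) * s ^ 2) * u ^ 2 := by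
    field_simp
    ring
  have e5 : 0 ≤ h * (p ^ 2 + u ^ 2 - ((1 - h) * (p + s * u) ^ 2 + 1 / (1 + h) * u ^ 2)) := by
    rw [e4]
    exact add_nonneg (sq_nonneg _) (mul_nonneg (by linarith) (sq_nonneg u))
  have e6 := nonneg_of_mul_nonneg_right e5 h0
  linarith

theorem ptB {n : ℕ} (hn : 3 ≤ n) (a b : ℂ) {y : ℝ} (hy : |y| ≤ 1) :
    (1 - Real.sin (Real.pi / n)) * ‖a + (tn n * y : ℝ) * b‖ ^ 2 +
      1 / (1 + Real.sin (Real.pi / n)) * ‖b‖ ^ 2 ≤ ‖a‖ ^ 2 + ‖b‖ ^ 2 := by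
  obtain ⟨hs, hc, h1, hsc⟩ := ptA_trig hn
  have ht : Real.cos (Real.pi / n) * tn n = Real.sin (Real.pi / n) := by
    unfold tn
    rw [Real.tan_eq_sin_div_cos]
    field_simp
  rw [ptA_norm, ptA_norm', ptA_norm']
  set h := Real.sin (Real.pi / n)
  set d := Real.cos (Real.pi / n)
  set t := tn n
  have hy2 : y ^ 2 ≤ 1 := by
    rw [← sq_abs]
    exact pow_le_one₀ (abs_nonneg y) hy
  have hst : (t * y) ^ 2 * ((1 - h) * (1 + h)) ≤ h ^ 2 := by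
    have e1 : (1 - h) * (1 + h) = d ^ 2 := by linear_combination -hsc
    have e2 : (t * y) ^ 2 * d ^ 2 = (d * t) ^ 2 * y ^ 2 := by ring
    rw [e1, e2, ht]
    exact mul_le_of_le_one_right (sq_nonneg h) hy2
  have k1 := ptB_real hs h1 hst a.re b.re
  have k2 := ptB_real hs h1 hst a.im b.im
  nlinarith

end Pool.Agent.H37.ST
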