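import Pool.Agent.H37.ST.D

set_option autoImplicit false

/-! Steklov, part B: quadratic forms on functions on `[-1,1]`.

PROOFS. `qᵢ (a p - b u) = a² qᵢ p - 2 a b bᵢ p u + b² qᵢ u` for real `a, b` (expand; all integrands are continuous), and
`qᵢ ≥ 0`: trivial for `i = 0, 1`; Bessel for `i = 2`: with `c = (1/2) ∫ u`, `d = (3/2) ∫ y u`,
`0 ≤ ∫ ‖u - c - d y‖² = q2 u` (`∫ 1 = 2`, `∫ y = 0`, `∫ y² = 2/3`; `2 ‖c‖² = ‖∫u‖²/2`, `(2/3) ‖d‖² = q1 u`). -/

open Complex MeasureTheory Set

namespace Pool.Agent.H37.ST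

private theorem qf_nsq (a b : ℝ) (z w : ℂ) : ‖(a : ℂ) * z - b * w‖ ^ 2 =
    a ^ 2 * ‖z‖ ^ 2 - 2 * (a * b) * ((starRingEnd ℂ) z * w).re + b ^ 2 * ‖w‖ ^ 2 := by
  simp only [Complex.sq_norm, Complex.normSq_apply, Complex.sub_re, Complex.sub_im, Complex.mul_re,
    Complex.mul_im, Complex.ofReal_re, Complex.ofReal_im, Complex.conj_re, Complex.conj_im]
  ring

private theorem qf_re {g : ℝ → ℂ} (hg : Continuous g) :
    ∫ y in (-1 : ℝ)..1, (g y).re = (∫ y in (-1 : ℝ)..1, g y).re :=
  Complex.reCLM.intervalIntegral_comp_comm (hg.intervalIntegrable _ _)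

private theorem qf_lin {p u : ℝ → ℂ} (hp : Continuous p) (hu : Continuous u) (a b : ℝ) :
    ∫ y in (-1 : ℝ)..1, ((a : ℂ) * p y - b * u y) =
      a * (∫ y in (-1 : ℝ)..1, p y) - b * ∫ y in (-1 : ℝ)..1, u y := by
  have c1 : IntervalIntegrable (fun y : ℝ => (a : ℂ) * p y) volume (-1) 1 :=
    (continuous_const.mul hp).intervalIntegrable _ _
  have c2 : IntervalIntegrable (fun y : ℝ => (b : ℂ) * u y) volume (-1) 1 :=
    (continuous_const.mul hu).intervalIntegrable _ _
  rw [intervalIntegral.integral_sub c1 c2, intervalIntegral.integral_const_mul,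
    intervalIntegral.integral_const_mul]

private theorem qf_y {u : ℝ → ℂ} (hu : Continuous u) : Continuous fun y : ℝ => (y : ℂ) * u y :=
  Complex.continuous_ofReal.mul hu

private theorem qf_c {p u : ℝ → ℂ} (hp : Continuous p) (hu : Continuous u) :
    Continuous fun y : ℝ => (starRingEnd ℂ) (p y) * u y :=
  (Complex.continuous_conj.comp hp).mul hu

private theorem qf_q0 {p u : ℝ → ℂ} (hp : Continuous p) (hu : Continuous u) (a b : ℝ) :
    q0 (fun y => (a : ℂ) * p y - b * u y) =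
      a ^ 2 * q0 p - 2 * (a * b) * b0 p u + b ^ 2 * q0 u := by
  unfold q0 b0
  simp only [qf_nsq]
  have i1 : IntervalIntegrable (fun y => a ^ 2 * ‖p y‖ ^ 2) volume (-1) 1 :=
    (continuous_const.mul (hp.norm.pow 2)).intervalIntegrable _ _
  have i2 : IntervalIntegrable (fun y => 2 * (a * b) * ((starRingEnd ℂ) (p y) * u y).re)
      volume (-1) 1 :=
    (continuous_const.mul (Complex.continuous_re.comp (qf_c hp hu))).intervalIntegrable _ _
  have i3 : IntervalIntegrable (fun y => b ^ 2 * ‖u y‖ ^ 2) volume (-1) 1 :=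
    (continuous_const.mul (hu.norm.pow 2)).intervalIntegrable _ _
  rw [intervalIntegral.integral_add (i1.sub i2) i3, intervalIntegral.integral_sub i1 i2,
    intervalIntegral.integral_const_mul, intervalIntegral.integral_const_mul,
    intervalIntegral.integral_const_mul]

theorem q0_nonneg (u : ℝ → ℂ) : 0 ≤ q0 u :=
  intervalIntegral.integral_nonneg (by norm_num) fun y _ => by positivity

theorem q1_nonneg (u : ℝ → ℂ) : 0 ≤ q1 u := by
  unfold q1
  positivity

theorem q2_nonneg {u : ℝ → ℂ} (hu : Continuous u) : 0 ≤ q2 u := by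
  set A : ℂ := ∫ y in (-1 : ℝ)..1, u y with hA
  set B : ℂ := ∫ y in (-1 : ℝ)..1, (y : ℂ) * u y with hB
  set g : ℝ → ℂ := fun y => A / 2 + (3 / 2 * B) * (y : ℂ) with hg
  have hgc : Continuous g :=
    continuous_const.add (continuous_const.mul Complex.continuous_ofReal)
  have h1 := q0_nonneg (fun y => ((1 : ℝ) : ℂ) * u y - ((1 : ℝ) : ℂ) * g y)
  rw [qf_q0 hu hgc 1 1] at h1
  have h2 : b0 u g = ‖A‖ ^ 2 / 2 + 3 / 2 * ‖B‖ ^ 2 := by
    unfold b0
    rw [qf_re (qf_c hu hgc)]
    have e1 : (fun y : ℝ => (starRingEnd ℂ) (u y) * g y) = fun y : ℝ =>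
        A / 2 * (starRingEnd ℂ) (u y) + (3 / 2 * B) * (starRingEnd ℂ) ((y : ℂ) * u y) := by
      funext y
      rw [hg, map_mul, Complex.conj_ofReal]
      ring
    have c1 : Continuous fun y : ℝ => (starRingEnd ℂ) (u y) := Complex.continuous_conj.comp hu
    have c2 : Continuous fun y : ℝ => (starRingEnd ℂ) ((y : ℂ) * u y) :=
      Complex.continuous_conj.comp (qf_y hu)
    have e2 : ∫ y in (-1 : ℝ)..1, (starRingEnd ℂ) (u y) = (starRingEnd ℂ) A := by
      simp only [intervalIntegral, hA, map_sub, integral_conj]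
    have e3 : ∫ y in (-1 : ℝ)..1, (starRingEnd ℂ) ((y : ℂ) * u y) = (starRingEnd ℂ) B := by
      simp only [intervalIntegral, hB, map_sub, integral_conj]
    have d1 : IntervalIntegrable (fun y : ℝ => A / 2 * (starRingEnd ℂ) (u y)) volume (-1) 1 :=
      (continuous_const.mul c1).intervalIntegrable _ _
    have d2 : IntervalIntegrable (fun y : ℝ => 3 / 2 * B * (starRingEnd ℂ) ((y : ℂ) * u y))
      volume (-1) 1 := (continuous_const.mul c2).intervalIntegrable _ _
    rw [e1, intervalIntegral.integral_add d1 d2, intervalIntegral.integral_const_mul,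
      intervalIntegral.integral_const_mul, e2, e3]
    simp only [Complex.sq_norm, Complex.normSq_apply, Complex.add_re, Complex.mul_re,
      Complex.mul_im, Complex.conj_re, Complex.conj_im, Complex.div_ofNat_re,
      Complex.div_ofNat_im]
    norm_num
    ring
  have h3 : q0 g = ‖A‖ ^ 2 / 2 + 3 / 2 * ‖B‖ ^ 2 := by
    unfold q0
    have e1 : (fun y : ℝ => ‖g y‖ ^ 2) = fun y : ℝ =>
        ‖A‖ ^ 2 / 4 + (3 / 2 * (A * (starRingEnd ℂ) B).re) * y + 9 / 4 * ‖B‖ ^ 2 * y ^ 2 := by
      funext y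
      simp only [hg, Complex.sq_norm, Complex.normSq_apply, Complex.add_re, Complex.add_im,
        Complex.mul_re, Complex.mul_im, Complex.conj_re, Complex.conj_im, Complex.div_ofNat_re,
        Complex.div_ofNat_im, Complex.ofReal_re, Complex.ofReal_im]
      norm_num
      ring
    have c1 : IntervalIntegrable (fun _ : ℝ => ‖A‖ ^ 2 / 4) volume (-1) 1 :=
      continuous_const.intervalIntegrable _ _
    have c2 : IntervalIntegrable (fun y : ℝ => (3 / 2 * (A * (starRingEnd ℂ) B).re) * y)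
      volume (-1) 1 := (continuous_const.mul continuous_id).intervalIntegrable _ _
    have c3 : IntervalIntegrable (fun y : ℝ => 9 / 4 * ‖B‖ ^ 2 * y ^ 2) volume (-1) 1 :=
      (continuous_const.mul (continuous_id.pow 2)).intervalIntegrable _ _
    rw [e1, intervalIntegral.integral_add (c1.add c2) c3, intervalIntegral.integral_add c1 c2,
      intervalIntegral.integral_const, intervalIntegral.integral_const_mul,
      intervalIntegral.integral_const_mul, integral_id, integral_pow, smul_eq_mul]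
    norm_num
    ring
  unfold q2 q1
  rw [← hA, ← hB]
  rw [h2, h3] at h1
  linarith

theorem am0 {p u : ℝ → ℂ} (hp : Continuous p) (hu : Continuous u) (a b : ℝ) :
    2 * (a * b) * b0 p u ≤ a ^ 2 * q0 p + b ^ 2 * q0 u := by
  have h := q0_nonneg (fun y => (a : ℂ) * p y - b * u y)
  rw [qf_q0 hp hu] at h
  linarith

private theorem qf_yl {p u : ℝ → ℂ} (hp : Continuous p) (hu : Continuous u) (a b : ℝ) :
    ∫ y in (-1 : ℝ)..1, (y : ℂ) * ((a : ℂ) * p y - b * u y) =
      a * (∫ y in (-1 : ℝ)..1, (y : ℂ) * p y) - b * ∫ y in (-1 : ℝ)..1, (y : ℂ) * u y := by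
  rw [← qf_lin (qf_y hp) (qf_y hu)]
  refine intervalIntegral.integral_congr fun y _ => ?_
  ring

private theorem qf_q1 {p u : ℝ → ℂ} (hp : Continuous p) (hu : Continuous u) (a b : ℝ) :
    q1 (fun y => (a : ℂ) * p y - b * u y) =
      a ^ 2 * q1 p - 2 * (a * b) * b1 p u + b ^ 2 * q1 u := by
  unfold q1 b1
  rw [qf_yl hp hu, qf_nsq]
  ring

theorem am1 {p u : ℝ → ℂ} (hp : Continuous p) (hu : Continuous u) (a b : ℝ) :
    2 * (a * b) * b1 p u ≤ a ^ 2 * q1 p + b ^ 2 * q1 u := by
  have h := q1_nonneg (fun y => (a : ℂ) * p y - b * u y)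
  rw [qf_q1 hp hu] at h
  linarith

theorem am2 {p u : ℝ → ℂ} (hp : Continuous p) (hu : Continuous u) (a b : ℝ) :
    2 * (a * b) * b2 p u ≤ a ^ 2 * q2 p + b ^ 2 * q2 u := by
  have h := q2_nonneg (u := fun y => (a : ℂ) * p y - b * u y)
    ((continuous_const.mul hp).sub (continuous_const.mul hu))
  unfold q2 at h
  rw [qf_q1 hp hu, qf_q0 hp hu, qf_lin hp hu, qf_nsq] at h
  unfold b2 q2
  linarith

/-- constants -/
theorem q_const (c : ℂ) : q0 (fun _ => c) = 2 * ‖c‖ ^ 2 ∧ q1 (fun _ => c) = 0 ∧ q2 (fun _ => c) = 0 := by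
  have h0 : q0 (fun _ => c) = 2 * ‖c‖ ^ 2 := by
    unfold q0
    rw [intervalIntegral.integral_const, smul_eq_mul]
    norm_num
  have h1 : q1 (fun _ => c) = 0 := by
    unfold q1
    have : ∫ y in (-1 : ℝ)..1, (y : ℂ) * c = 0 := by
      rw [intervalIntegral.integral_mul_const, intervalIntegral.integral_ofReal, integral_id]
      simp
    rw [this]
    simp
  refine ⟨h0, h1, ?_⟩
  unfold q2
  rw [h0, h1, intervalIntegral.integral_const, Complex.real_smul, norm_mul]
  norm_num
  ring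

end Pool.Agent.H37.ST
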