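import Mathlib

set_option autoImplicit false

/-! Steklov, part B, I3: the twisted Wirtinger inequality (MATHLIB ONLY).

PROOF. `w y = exp (-i α y) v y`, `w' = exp (-i α y) (v' - i α v)`, `w 1 = w (-1)`. Fourier coefficients on `[-1,1]`
(`fourierCoeffOn`, `a = -1`, `b = 1`, period `2`): `fourierCoeffOn_of_hasDerivAt` gives
`coeff w' k = i π k · coeff w k` (`k ≠ 0`), and for `k = 0` both are `0` resp. `(w 1 - w (-1))/2 = 0`.
The function `V y = exp (-i α y) v' y = w' + i α w` has coefficients `i (π k + α) coeff w k`, and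
`|π k + α| ≥ |α|` for every integer `k` because `|α| ≤ π/2`. Parseval (`hasSum_sq_fourierCoeffOn`, or
`tsum_sq_fourierCoeffOn`) for `V` and for `w`: `∫ ‖v'‖² = ∫ ‖V‖² ≥ α² ∫ ‖w‖² = α² ∫ ‖v‖²`. -/

open MeasureTheory Set

namespace Pool.Agent.H37.ST

private theorem wir_memLp {f : ℝ → ℂ} (hf : Continuous f) (a b : ℝ) :
    MemLp f 2 (volume.restrict (Ioc a b)) := by
  rw [memLp_two_iff_integrable_sq_norm hf.aestronglyMeasurable]
  exact ((hf.norm.pow 2).integrableOn_Icc).mono_set Ioc_subset_Icc_self

private theorem wir_sub {f g : ℝ → ℂ} (hf : Continuous f) (hg : Continuous g) (c : ℂ) (k : ℤ)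
    {a b : ℝ} (hab : a < b) : fourierCoeffOn hab (fun y => f y - c * g y) k =
      fourierCoeffOn hab f k - c * fourierCoeffOn hab g k := by
  rw [← fourierCoeffOn.const_mul, fourierCoeffOn_eq_integral, fourierCoeffOn_eq_integral,
    fourierCoeffOn_eq_integral, ← smul_sub, ← intervalIntegral.integral_sub]
  · congr 1
    refine intervalIntegral.integral_congr fun y _ => ?_
    simp only [smul_eq_mul]
    ring
  · refine Continuous.intervalIntegrable ?_ _ _
    have : Continuous fun x : ℝ => (fourier (-k) : C(AddCircle (b - a), ℂ)) (x : AddCircle (b - a)) :=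
      (fourier (-k) : C(AddCircle (b - a), ℂ)).continuous.comp (AddCircle.continuous_mk' (b - a))
    exact this.smul hf
  · refine Continuous.intervalIntegrable ?_ _ _
    have : Continuous fun x : ℝ => (fourier (-k) : C(AddCircle (b - a), ℂ)) (x : AddCircle (b - a)) :=
      (fourier (-k) : C(AddCircle (b - a), ℂ)).continuous.comp (AddCircle.continuous_mk' (b - a))
    exact this.smul (continuous_const.mul hg)

private theorem wir_abs {α : ℝ} (ha : |α| ≤ Real.pi / 2) (k : ℤ) :
    α ^ 2 ≤ (Real.pi * k + α) ^ 2 := by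
  rw [← sq_abs α, ← sq_abs (Real.pi * k + α)]
  have hp := Real.pi_pos
  have h : |α| ≤ |Real.pi * k + α| := by
    rcases eq_or_ne k 0 with rfl | hk
    · simp
    · have h1 : (1 : ℝ) ≤ |(k : ℝ)| := by
        have := Int.one_le_abs hk
        rw [← Int.cast_abs]
        exact_mod_cast this
      have h2 : Real.pi ≤ |Real.pi * k| := by
        rw [abs_mul, abs_of_pos hp]
        nlinarith
      have h3 : |Real.pi * k| ≤ |Real.pi * k + α| + |α| := by
        calc |Real.pi * k| = |(Real.pi * k + α) - α| := by ring_nf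
          _ ≤ _ := abs_sub _ _
      linarith
  exact pow_le_pow_left₀ (abs_nonneg _) h 2

theorem twist {v v' : ℝ → ℂ} (h : ∀ y, HasDerivAt v (v' y) y) (hc : Continuous v') {α : ℝ}
    (ha : |α| ≤ Real.pi / 2) (hv : v 1 = Complex.exp ((2 * α : ℝ) * Complex.I) * v (-1)) :
    α ^ 2 * ∫ y in (-1 : ℝ)..1, ‖v y‖ ^ 2 ≤ ∫ y in (-1 : ℝ)..1, ‖v' y‖ ^ 2 := by
  set c : ℂ := -((α : ℂ) * Complex.I) with hcdef
  set e : ℝ → ℂ := fun y => Complex.exp (c * (y : ℂ)) with he
  have hed : ∀ y, HasDerivAt e (c * e y) y := by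
    intro y
    have h1 := (((hasDerivAt_id (y : ℂ)).const_mul c).cexp).comp_ofReal
    simp only [id, mul_one] at h1
    rw [mul_comm] at h1
    exact h1
  have hen : ∀ y, ‖e y‖ = 1 := by
    intro y
    rw [he]
    simp only [Complex.norm_exp, hcdef]
    simp
  have hvc : Continuous v := continuous_iff_continuousAt.2 fun y => (h y).continuousAt
  have hec : Continuous e := continuous_iff_continuousAt.2 fun y => (hed y).continuousAt
  set w : ℝ → ℂ := fun y => e y * v y with hw
  set w' : ℝ → ℂ := fun y => c * e y * v y + e y * v' y with hw'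
  have hwd : ∀ y, HasDerivAt w (w' y) y := fun y => (hed y).mul (h y)
  have hwc : Continuous w := hec.mul hvc
  have hwc' : Continuous w' := ((continuous_const.mul hec).mul hvc).add (hec.mul hc)
  have hww : w 1 = w (-1) := by
    rw [hw]
    simp only [he]
    rw [hv, ← mul_assoc, ← Complex.exp_add]
    congr 2
    rw [hcdef]
    push_cast
    ring
  have hab : (-1 : ℝ) < 1 := by norm_num
  have hcoef : ∀ k : ℤ, fourierCoeffOn hab w' k =
      (Real.pi * k : ℝ) * Complex.I * fourierCoeffOn hab w k := by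
    intro k
    rcases eq_or_ne k 0 with rfl | hk
    · rw [fourierCoeffOn_eq_integral]
      have h1 : ∫ y in (-1 : ℝ)..1, w' y = w 1 - w (-1) :=
        intervalIntegral.integral_eq_sub_of_hasDerivAt (fun y _ => hwd y)
          (hwc'.intervalIntegrable _ _)
      have h2 : ∫ x in (-1 : ℝ)..1, (fourier (-0) (x : AddCircle ((1 : ℝ) - -1)) : ℂ) • w' x =
          ∫ y in (-1 : ℝ)..1, w' y := by
        refine intervalIntegral.integral_congr fun y _ => ?_
        simp
      rw [h2, h1, hww]
      simp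
    · have h1 := fourierCoeffOn_of_hasDerivAt hab (f := w) (f' := w') hk (fun y _ => hwd y)
        (hwc'.intervalIntegrable _ _)
      rw [hww, sub_self, mul_zero, zero_sub] at h1
      have hk' : (k : ℂ) ≠ 0 := by exact_mod_cast hk
      have hp : (Real.pi : ℂ) ≠ 0 := by exact_mod_cast Real.pi_ne_zero
      rw [h1]
      push_cast
      field_simp
      ring
  have hVc : ∀ k : ℤ, fourierCoeffOn hab (fun y => e y * v' y) k =
      ((Real.pi * k + α : ℝ) * Complex.I) * fourierCoeffOn hab w k := by
    intro k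
    have h1 : (fun y => e y * v' y) = fun y => w' y - c * w y := by
      funext y
      rw [hw, hw']
      ring
    rw [h1, wir_sub hwc' hwc, hcoef k, hcdef]
    push_cast
    ring
  have s1 := hasSum_sq_fourierCoeffOn hab (f := fun y => e y * v' y)
    (wir_memLp (hec.mul hc) _ _)
  have s2 := (hasSum_sq_fourierCoeffOn hab (f := w) (wir_memLp hwc _ _)).mul_left (α ^ 2)
  have hle := hasSum_le (fun k => ?_) s2 s1
  · have e1 : ∫ x in (-1 : ℝ)..1, ‖e x * v' x‖ ^ 2 = ∫ y in (-1 : ℝ)..1, ‖v' y‖ ^ 2 := by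
      refine intervalIntegral.integral_congr fun y _ => ?_
      simp only [norm_mul, hen, one_mul]
    have e2 : ∫ x in (-1 : ℝ)..1, ‖w x‖ ^ 2 = ∫ y in (-1 : ℝ)..1, ‖v y‖ ^ 2 := by
      refine intervalIntegral.integral_congr fun y _ => ?_
      simp only [hw, norm_mul, hen, one_mul]
    rw [e1, e2, smul_eq_mul, smul_eq_mul] at hle
    norm_num at hle
    nlinarith
  · rw [hVc k, norm_mul, norm_mul, Complex.norm_I, mul_one, Complex.norm_real, mul_pow,
      Real.norm_eq_abs, sq_abs]
    exact mul_le_mul_of_nonneg_right (wir_abs ha k) (sq_nonneg _)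

end Pool.Agent.H37.ST
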