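import Pool.Agent.H37.ST.Qd
import Pool.Agent.H37.ST.Qf
import Pool.Agent.H37.ST.PtA
import Pool.Agent.H37.ST.Wir

set_option autoImplicit false

/-! Steklov, part B, I4: lower bound for functions of class `m`. `h = sin (π/n)`, `d = cos (π/n)`, `t = tn n = h/d`.

PROOF of `gap`, `|α| ≤ π/2`, `om n ^ m = exp (2 i α)`, `f 0 = 0`. For `r > 0` the function `u = rf n f r` satisfies
`u 1 = f (r (1 + i t)) = f (om n * (r (1 - i t))) = om n ^ m * u (-1)` (`om_eq` of SG/Omg), so `twist` gives `α² q0 u ≤ ∫ ‖rv‖²`,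
`rv n f r y = r t f_y`. `ptB` pointwise: `rd n f r ≥ r t (1-h) q0 p + (r t/(1+h)) ∫ ‖f_y‖² ≥
r t (1-h) q0 p + (α²/(r t (1+h))) q0 u`, `p = rp n f r`, and `am0` with `a = √(r t (1-h))`, `b = |α|/√(r t (1+h))`,
`a b = |α| √((1-h)/(1+h)) = |α| (1-h)/d` (as `d² = (1-h)(1+h)`): `rd n f r ≥ 2 |α| ((1-h)/d) b0 p u`. Integrate (`qd0`, `qc`, `E0_ring`):
`E0 n f ≥ |α| ((1-h)/d) (q0 (rf 1) - q0 (rf 0))`, `rf n f 0 = 0`.
`gap_m`: `f 0 = om n ^ m f 0` and `om n ^ m ≠ 1` for `1 ≤ m < n` give `f 0 = 0`; take `α = m π/n` if `2 m ≤ n` and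
`α = m π/n - π` otherwise. `|α| ≥ π/n`, and `≥ 2 π/n` for `2 ≤ m ≤ n-2`. -/

open Complex MeasureTheory Set

namespace Pool.Agent.H37.ST

open Pool.Agent.H32.SG

variable {n : ℕ} {f : ℂ → ℂ}

private theorem gap_trig (hn : 3 ≤ n) : 0 < Real.sin (Real.pi / n) ∧
    Real.sin (Real.pi / n) < 1 ∧ 0 < Real.cos (Real.pi / n) ∧
    Real.cos (Real.pi / n) ^ 2 = (1 - Real.sin (Real.pi / n)) * (1 + Real.sin (Real.pi / n)) := by
  have hpi := Real.pi_pos
  have hn0 : (0 : ℝ) < n := by exact_mod_cast (by omega : 0 < n)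
  have hn3 : (3 : ℝ) ≤ n := by exact_mod_cast hn
  have h0 : 0 < Real.pi / n := by positivity
  have h1 : Real.pi / n < Real.pi / 2 := by
    rw [div_lt_div_iff_of_pos_left hpi hn0 (by norm_num)]
    linarith
  have hs : 0 < Real.sin (Real.pi / n) := Real.sin_pos_of_pos_of_lt_pi h0 (by linarith)
  have hc : 0 < Real.cos (Real.pi / n) := Real.cos_pos_of_mem_Ioo ⟨by linarith, h1⟩
  have h2 := Real.sin_sq_add_cos_sq (Real.pi / n)
  refine ⟨hs, ?_, hc, by nlinarith⟩
  nlinarith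

private theorem gap_sec (hf : ContDiff ℝ 1 f) {r : ℝ} : Continuous (rf n f r) ∧
    Continuous (rp n f r) ∧ Continuous (rv n f r) :=
  ⟨(rf_cont hf).comp (Continuous.prodMk_right r), (rp_cont hf).comp (Continuous.prodMk_right r),
    (rv_cont hf).comp (Continuous.prodMk_right r)⟩

private theorem gap_ring (hn : 3 ≤ n) (hf : ContDiff ℝ 1 f) {α r : ℝ} (hr : 0 < r)
    (ha : |α| ≤ Real.pi / 2) (hv : rf n f r 1 = exp ((2 * α : ℝ) * I) * rf n f r (-1)) :
    2 * (|α| * ((1 - Real.sin (Real.pi / n)) / Real.cos (Real.pi / n))) *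
      b0 (rp n f r) (rf n f r) ≤ rd n f r := by
  obtain ⟨hs0, hs1, hc0, hcs⟩ := gap_trig hn
  have htn := tn_pos hn
  set h : ℝ := Real.sin (Real.pi / n) with hh
  set d : ℝ := Real.cos (Real.pi / n) with hd
  obtain ⟨hu, hp, hvc⟩ := gap_sec (n := n) (r := r) hf
  have hw := twist (v := rf n f r) (v' := rv n f r) (fun y => rf_deriv_y hf r y) hvc ha hv
  have hrt : 0 < r * tn n := mul_pos hr htn
  have hfc : Continuous (fun z : ℂ => fderiv ℝ f z) := hf.continuous_fderiv one_ne_zero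
  have hptc : Continuous (fun y : ℝ => pt n r y) := (pt_cont n).comp (Continuous.prodMk_right r)
  have hptw : ∀ y ∈ Icc (-1 : ℝ) 1, r * tn n * (1 - h) * ‖rp n f r y‖ ^ 2
      + 1 / (r * tn n * (1 + h)) * ‖rv n f r y‖ ^ 2
      ≤ r * (tn n * (‖fderiv ℝ f (pt n r y) 1‖ ^ 2 + ‖fderiv ℝ f (pt n r y) I‖ ^ 2)) := by
    intro y hy
    have h1 := ptB hn (fderiv ℝ f (pt n r y) 1) (fderiv ℝ f (pt n r y) I) (abs_le.2 hy)
    have e1 : rp n f r y = fderiv ℝ f (pt n r y) 1 + (tn n * y : ℝ) * fderiv ℝ f (pt n r y) I := by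
      have e2 : pt n 1 y = 1 + (tn n * y : ℝ) • I := by
        unfold pt
        rw [Complex.ofReal_one, one_mul, Complex.real_smul]
      unfold rp
      rw [e2, map_add, map_smul, Complex.real_smul]
    have e3 : ‖rv n f r y‖ ^ 2 = (r * tn n) ^ 2 * ‖fderiv ℝ f (pt n r y) I‖ ^ 2 := by
      have e4 : ((r * tn n : ℝ) : ℂ) * I = (r * tn n) • I := by rw [Complex.real_smul]
      unfold rv
      rw [e4, map_smul, norm_smul, Real.norm_eq_abs, mul_pow, sq_abs]
    rw [← e1] at h1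
    have e5 : 1 / (r * tn n * (1 + h)) * ‖rv n f r y‖ ^ 2
        = r * tn n * (1 / (1 + h) * ‖fderiv ℝ f (pt n r y) I‖ ^ 2) := by
      rw [e3]
      have : (1 + h) ≠ 0 := by linarith
      field_simp
    rw [e5]
    have h2 := mul_le_mul_of_nonneg_left h1 hrt.le
    calc r * tn n * (1 - h) * ‖rp n f r y‖ ^ 2
          + r * tn n * (1 / (1 + h) * ‖fderiv ℝ f (pt n r y) I‖ ^ 2)
        = r * tn n * ((1 - h) * ‖rp n f r y‖ ^ 2
          + 1 / (1 + h) * ‖fderiv ℝ f (pt n r y) I‖ ^ 2) := by ring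
      _ ≤ r * tn n * (‖fderiv ℝ f (pt n r y) 1‖ ^ 2 + ‖fderiv ℝ f (pt n r y) I‖ ^ 2) := h2
      _ = _ := by ring
  have hi1 : IntervalIntegrable (fun y => ‖rp n f r y‖ ^ 2) volume (-1) 1 :=
    (hp.norm.pow 2).intervalIntegrable _ _
  have hi2 : IntervalIntegrable (fun y => ‖rv n f r y‖ ^ 2) volume (-1) 1 :=
    (hvc.norm.pow 2).intervalIntegrable _ _
  have hi3 : IntervalIntegrable (fun y => r * (tn n * (‖fderiv ℝ f (pt n r y) 1‖ ^ 2
      + ‖fderiv ℝ f (pt n r y) I‖ ^ 2))) volume (-1) 1 := by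
    apply Continuous.intervalIntegrable
    have g1 : Continuous fun y => fderiv ℝ f (pt n r y) 1 :=
      (hfc.comp hptc).clm_apply continuous_const
    have g2 : Continuous fun y => fderiv ℝ f (pt n r y) I :=
      (hfc.comp hptc).clm_apply continuous_const
    fun_prop
  have hint := intervalIntegral.integral_mono_on (μ := volume) (by norm_num : (-1 : ℝ) ≤ 1)
    ((hi1.const_mul (r * tn n * (1 - h))).add (hi2.const_mul (1 / (r * tn n * (1 + h))))) hi3 hptw
  rw [intervalIntegral.integral_add (hi1.const_mul _) (hi2.const_mul _),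
    intervalIntegral.integral_const_mul, intervalIntegral.integral_const_mul] at hint
  have hrd : r * tn n * (1 - h) * q0 (rp n f r)
      + 1 / (r * tn n * (1 + h)) * (α ^ 2 * q0 (rf n f r)) ≤ rd n f r := by
    refine le_trans ?_ hint
    have h3 : 1 / (r * tn n * (1 + h)) * (α ^ 2 * q0 (rf n f r))
        ≤ 1 / (r * tn n * (1 + h)) * ∫ y in (-1 : ℝ)..1, ‖rv n f r y‖ ^ 2 :=
      mul_le_mul_of_nonneg_left hw (by positivity)
    have h4 : q0 (rp n f r) = ∫ y in (-1 : ℝ)..1, ‖rp n f r y‖ ^ 2 := rfl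
    rw [h4]
    linarith
  -- arithmetic and geometric mean
  have hB : 0 < r * tn n * (1 + h) := by positivity
  have hsB : 0 < √(r * tn n * (1 + h)) := Real.sqrt_pos.2 hB
  have hsB2 : √(r * tn n * (1 + h)) ^ 2 = r * tn n * (1 + h) := Real.sq_sqrt hB.le
  have ham := am0 hp hu ((1 - h) / d * √(r * tn n * (1 + h))) (|α| / √(r * tn n * (1 + h)))
  have k1 : (1 - h) / d * √(r * tn n * (1 + h)) * (|α| / √(r * tn n * (1 + h)))
      = |α| * ((1 - h) / d) := by
    field_simp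
  have k2 : ((1 - h) / d * √(r * tn n * (1 + h))) ^ 2 = r * tn n * (1 - h) := by
    rw [mul_pow, hsB2, div_pow, hcs]
    have h5 : (1 - h) ≠ 0 := by linarith
    have h6 : (1 + h) ≠ 0 := by linarith
    field_simp
  have k3 : (|α| / √(r * tn n * (1 + h))) ^ 2 = 1 / (r * tn n * (1 + h)) * α ^ 2 := by
    rw [div_pow, hsB2, sq_abs]
    ring
  rw [k1, k2, k3] at ham
  linarith

theorem gap (hn : 3 ≤ n) {m : ℕ} (hf : Cls n m f) {α : ℝ} (ha : |α| ≤ Real.pi / 2)
    (hm : om n ^ m = exp ((2 * α : ℝ) * I)) (h0 : f 0 = 0) :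
    |α| * ((1 - Real.sin (Real.pi / n)) / Real.cos (Real.pi / n)) * B1 n f ≤ E0 n f := by
  have hv : ∀ r, rf n f r 1 = exp ((2 * α : ℝ) * I) * rf n f r (-1) := by
    intro r
    unfold rf
    rw [← hm, ← hf.rot]
    congr 1
    unfold pt
    have h1 := om_eq hn
    push_cast
    linear_combination (-(r : ℂ)) * h1
  set c : ℝ := |α| * ((1 - Real.sin (Real.pi / n)) / Real.cos (Real.pi / n)) with hc
  have hqc := (qc (n := n) hf.c1).1
  have h1 : ∫ r in (0 : ℝ)..1, c * (2 * b0 (rp n f r) (rf n f r)) ≤ ∫ r in (0 : ℝ)..1, rd n f r := by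
    refine intervalIntegral.integral_mono_on_of_le_Ioo zero_le_one
      ((continuous_const.mul (continuous_const.mul hqc)).intervalIntegrable _ _)
      ((rd_cont hf.c1).intervalIntegrable _ _) fun r hr => ?_
    have h2 := gap_ring hn hf.c1 hr.1 ha (hv r)
    calc c * (2 * b0 (rp n f r) (rf n f r)) = 2 * c * b0 (rp n f r) (rf n f r) := by ring
      _ ≤ rd n f r := h2
  have h2 : ∫ r in (0 : ℝ)..1, 2 * b0 (rp n f r) (rf n f r)
      = q0 (rf n f 1) - q0 (rf n f 0) :=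
    intervalIntegral.integral_eq_sub_of_hasDerivAt (fun r _ => qd0 hf.c1 r)
      ((continuous_const.mul hqc).intervalIntegrable _ _)
  have h3 : q0 (rf n f 0) = 0 := by
    have h4 : rf n f 0 = fun _ => 0 := by
      funext y
      unfold rf pt
      rw [Complex.ofReal_zero, zero_mul, h0]
    rw [h4, (q_const 0).1, norm_zero]
    norm_num
  have h4 : q0 (rf n f 1) = B1 n f := by
    unfold q0 B1 rf pt
    simp only [Complex.ofReal_one, one_mul]
  rw [intervalIntegral.integral_const_mul, h2, h3, sub_zero, h4, ← E0_ring hf.c1] at h1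
  exact h1

private theorem gap_aux (hn : 3 ≤ n) {m : ℕ} (hf : Cls n m f) (hm0 : 0 < m) (hm1 : m < n) {k : ℝ}
    (hk : k ≤ m) (hk' : k ≤ n - m) :
    k * (Real.pi / n) * ((1 - Real.sin (Real.pi / n)) / Real.cos (Real.pi / n)) * B1 n f
      ≤ E0 n f := by
  obtain ⟨hs0, hs1, hc0, -⟩ := gap_trig hn
  have hpi := Real.pi_pos
  have hn0 : (0 : ℝ) < n := by exact_mod_cast (by omega : 0 < n)
  have hnc : (n : ℂ) ≠ 0 := by exact_mod_cast hn0.ne'
  have hpn : 0 < Real.pi / n := by positivity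
  have hmn : (m : ℝ) < n := by exact_mod_cast hm1
  have hm0' : (0 : ℝ) < m := by exact_mod_cast hm0
  have h0 : f 0 = 0 := by
    have h1 := hf.rot 0
    rw [mul_zero] at h1
    have h2 : om n ^ m ≠ 1 := by
      have h3 := Complex.isPrimitiveRoot_exp n (by omega)
      exact h3.pow_ne_one_of_pos_of_lt hm0.ne' hm1
    have h3 : (om n ^ m - 1) * f 0 = 0 := by
      rw [sub_mul, one_mul, ← h1, sub_self]
    rcases mul_eq_zero.1 h3 with h4 | h4
    · exact absurd (sub_eq_zero.1 h4) h2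
    · exact h4
  have hB1 : 0 ≤ B1 n f := by
    unfold B1
    exact intervalIntegral.integral_nonneg (by norm_num) fun y _ => by positivity
  have hC : 0 ≤ (1 - Real.sin (Real.pi / n)) / Real.cos (Real.pi / n) :=
    div_nonneg (by linarith) hc0.le
  have hmpi : (m : ℝ) * (Real.pi / n) ≤ Real.pi := by
    rw [← mul_div_assoc, div_le_iff₀ hn0]
    nlinarith
  obtain ⟨α, hα1, hα2, hα3⟩ : ∃ α : ℝ, |α| ≤ Real.pi / 2 ∧ om n ^ m = exp ((2 * α : ℝ) * I) ∧
      k * (Real.pi / n) ≤ |α| := by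
    by_cases h2 : 2 * m ≤ n
    · have h2' : 2 * (m : ℝ) ≤ n := by exact_mod_cast h2
      refine ⟨m * (Real.pi / n), ?_, ?_, ?_⟩
      · rw [abs_of_pos (by positivity), ← mul_div_assoc, div_le_div_iff₀ hn0 two_pos]
        nlinarith
      · unfold om
        rw [← Complex.exp_nat_mul]
        congr 1
        push_cast
        ring
      · rw [abs_of_pos (by positivity)]
        exact mul_le_mul_of_nonneg_right hk hpn.le
    · have h2' : (n : ℝ) < 2 * m := by
        have : n < 2 * m := by omega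
        exact_mod_cast this
      have h3 : (m : ℝ) * (Real.pi / n) - Real.pi ≤ 0 := by linarith
      refine ⟨m * (Real.pi / n) - Real.pi, ?_, ?_, ?_⟩
      · rw [abs_of_nonpos h3]
        have h4 : Real.pi / 2 ≤ m * (Real.pi / n) := by
          rw [← mul_div_assoc, div_le_div_iff₀ two_pos hn0]
          nlinarith
        linarith
      · have h4 : ((2 * (m * (Real.pi / n) - Real.pi) : ℝ) : ℂ) * I
            = m * (2 * Real.pi * I / n) - 2 * Real.pi * I := by
          push_cast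
          ring
        rw [h4, Complex.exp_sub, Complex.exp_two_pi_mul_I, div_one]
        unfold om
        rw [← Complex.exp_nat_mul]
      · rw [abs_of_nonpos h3]
        have h4 : k * (Real.pi / n) ≤ (n - m) * (Real.pi / n) :=
          mul_le_mul_of_nonneg_right hk' hpn.le
        have h5 : (n : ℝ) * (Real.pi / n) = Real.pi := by
          field_simp
        linarith
  have h1 := gap hn hf hα1 hα2 h0
  refine le_trans ?_ h1
  refine mul_le_mul_of_nonneg_right ?_ hB1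
  exact mul_le_mul_of_nonneg_right hα3 hC


/-- `1 ≤ m ≤ n - 1` -/
theorem gap_one (hn : 3 ≤ n) {m : ℕ} (hm1 : 1 ≤ m) (hm2 : m < n) (hf : Cls n m f) :
    Real.pi / n * ((1 - Real.sin (Real.pi / n)) / Real.cos (Real.pi / n)) * B1 n f ≤ E0 n f := by
  have h1 : (1 : ℝ) ≤ m := by exact_mod_cast hm1
  have h2 : (m : ℝ) + 1 ≤ n := by exact_mod_cast hm2
  have h3 := gap_aux hn hf hm1 hm2 h1 (by linarith)
  rwa [one_mul] at h3

/-- `2 ≤ m ≤ n - 2` -/
theorem gap_two (hn : 3 ≤ n) {m : ℕ} (hm1 : 2 ≤ m) (hm2 : m + 2 ≤ n) (hf : Cls n m f) :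
    2 * (Real.pi / n) * ((1 - Real.sin (Real.pi / n)) / Real.cos (Real.pi / n)) * B1 n f ≤ E0 n f := by
  have h1 : (2 : ℝ) ≤ m := by exact_mod_cast hm1
  have h2 : (m : ℝ) + 2 ≤ n := by exact_mod_cast hm2
  exact gap_aux hn hf (by omega) (by omega) h1 (by linarith)

end Pool.Agent.H37.ST
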