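import Pool.Agent.H37.ST.LegA
import Pool.Agent.H37.ST.D

set_option autoImplicit false

/-! Steklov, part B, I1c: the Legendre inequality for complex valued functions.

PROOF. Real `v` first: `a = (1/2) ∫ v`, `b = (3/2) ∫ x v`, `w = v - a - b x` satisfies the two conditions of `leg_w`
(`∫ 1 = 2`, `∫ x² = 2/3`), `∫ w² = ∫ v² - 2 a² - (2/3) b²`, that is `q2`; `v' = b + w'`,
`∫ (1-x²) v'² = (4/3) b² + 2 b ∫ (1-x²) w' + ∫ (1-x²) w'²`, and `∫ (1-x²) w' = 2 ∫ x w = 0` (by parts).
`(4/3) b² = 2 q1`. Complex `v`: add the inequalities for the real and the imaginary part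
(`‖z‖² = re² + im²`; `intervalIntegral` commutes with `re`, `im`: `Complex.reCLM.intervalIntegral_comp_comm` or
`intervalIntegral.intervalIntegral_re`..). -/

open Complex MeasureTheory Set

namespace Pool.Agent.H37.ST

private theorem leg_real {v v' : ℝ → ℝ} (h : ∀ x, HasDerivAt v (v' x) x) (hc : Continuous v') :
    3 * (∫ x in (-1 : ℝ)..1, x * v x) ^ 2 + 6 * ((∫ x in (-1 : ℝ)..1, v x ^ 2) -
      (∫ x in (-1 : ℝ)..1, v x) ^ 2 / 2 - 3 / 2 * (∫ x in (-1 : ℝ)..1, x * v x) ^ 2) ≤
    ∫ x in (-1 : ℝ)..1, (1 - x ^ 2) * v' x ^ 2 := by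
  have hv : Continuous v := continuous_iff_continuousAt.2 fun x => (h x).continuousAt
  set P : ℝ := ∫ x in (-1 : ℝ)..1, v x with hP
  set Q : ℝ := ∫ x in (-1 : ℝ)..1, x * v x with hQ
  set a : ℝ := P / 2 with ha
  set b : ℝ := 3 / 2 * Q with hb
  have e0 : ∫ _x in (-1 : ℝ)..1, (1 : ℝ) = 2 := by
    rw [intervalIntegral.integral_const]; norm_num
  have e1 : ∫ x in (-1 : ℝ)..1, x = 0 := by
    rw [integral_id]; norm_num
  have e2 : ∫ x in (-1 : ℝ)..1, x ^ 2 = 2 / 3 := by
    rw [integral_pow]; norm_num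
  have hw : ∀ x, HasDerivAt (fun x => v x - a - b * x) (v' x - b) x := by
    intro x
    have := ((h x).sub_const a).sub ((hasDerivAt_id' x).const_mul b)
    rw [mul_one] at this
    exact this
  have hwc : Continuous fun x => v x - a - b * x := by fun_prop
  have i1 : ∫ x in (-1 : ℝ)..1, (v x - a - b * x) = 0 := by
    have : ∫ x in (-1 : ℝ)..1, (v x - a - b * x) =
        (∫ x in (-1 : ℝ)..1, v x) - (∫ _x in (-1 : ℝ)..1, a) - ∫ x in (-1 : ℝ)..1, b * x := by
      rw [intervalIntegral.integral_sub, intervalIntegral.integral_sub]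
      · exact hv.intervalIntegrable _ _
      · exact continuous_const.intervalIntegrable _ _
      · exact Continuous.intervalIntegrable (by fun_prop) _ _
      · exact Continuous.intervalIntegrable (by fun_prop) _ _
    rw [this, intervalIntegral.integral_const, intervalIntegral.integral_const_mul, e1, ← hP]
    simp only [smul_eq_mul]
    rw [ha]
    ring
  have i2 : ∫ x in (-1 : ℝ)..1, x * (v x - a - b * x) = 0 := by
    have : ∫ x in (-1 : ℝ)..1, x * (v x - a - b * x) =
        (∫ x in (-1 : ℝ)..1, x * v x) - (∫ x in (-1 : ℝ)..1, a * x) -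
          ∫ x in (-1 : ℝ)..1, b * x ^ 2 := by
      rw [← intervalIntegral.integral_sub, ← intervalIntegral.integral_sub]
      · refine intervalIntegral.integral_congr fun x _ => ?_
        ring
      · exact Continuous.intervalIntegrable (by fun_prop) _ _
      · exact Continuous.intervalIntegrable (by fun_prop) _ _
      · exact Continuous.intervalIntegrable (by fun_prop) _ _
      · exact Continuous.intervalIntegrable (by fun_prop) _ _
    rw [this, intervalIntegral.integral_const_mul, intervalIntegral.integral_const_mul, e1, e2,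
      ← hQ, hb]
    ring
  have i3 : ∫ x in (-1 : ℝ)..1, (v x - a - b * x) ^ 2 =
      (∫ x in (-1 : ℝ)..1, v x ^ 2) - P ^ 2 / 2 - 3 / 2 * Q ^ 2 := by
    have : ∫ x in (-1 : ℝ)..1, (v x - a - b * x) ^ 2 =
        (∫ x in (-1 : ℝ)..1, v x ^ 2) - (∫ x in (-1 : ℝ)..1, (2 * a) * v x) -
          (∫ x in (-1 : ℝ)..1, (2 * b) * (x * v x)) + (∫ _x in (-1 : ℝ)..1, a ^ 2) +
          (∫ x in (-1 : ℝ)..1, (2 * a * b) * x) + ∫ x in (-1 : ℝ)..1, b ^ 2 * x ^ 2 := by
      rw [← intervalIntegral.integral_sub, ← intervalIntegral.integral_sub,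
        ← intervalIntegral.integral_add, ← intervalIntegral.integral_add,
        ← intervalIntegral.integral_add]
      · refine intervalIntegral.integral_congr fun x _ => ?_
        ring
      all_goals exact Continuous.intervalIntegrable (by fun_prop) _ _
    rw [this, intervalIntegral.integral_const_mul, intervalIntegral.integral_const_mul,
      intervalIntegral.integral_const_mul, intervalIntegral.integral_const_mul,
      intervalIntegral.integral_const, e1, e2, ← hP, ← hQ]
    simp only [smul_eq_mul]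
    rw [ha, hb]
    ring
  have i4 : ∫ x in (-1 : ℝ)..1, (1 - x ^ 2) * (v' x - b) = 0 := by
    have hd : ∀ x : ℝ, HasDerivAt (fun x => (1 - x ^ 2) * (v x - a - b * x))
        ((-(2 * x)) * (v x - a - b * x) + (1 - x ^ 2) * (v' x - b)) x := by
      intro x
      have h1 : HasDerivAt (fun x : ℝ => 1 - x ^ 2) (-(2 * x)) x := by
        have := (hasDerivAt_pow 2 x).const_sub 1
        simpa using this
      exact h1.mul (hw x)
    have hI := intervalIntegral.integral_eq_sub_of_hasDerivAt (a := -1) (b := 1)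
      (f := fun x => (1 - x ^ 2) * (v x - a - b * x)) (fun x _ => hd x)
      (Continuous.intervalIntegrable (by fun_prop) _ _)
    have h2 : ∫ x in (-1 : ℝ)..1, ((-(2 * x)) * (v x - a - b * x) + (1 - x ^ 2) * (v' x - b)) =
        (-2) * (∫ x in (-1 : ℝ)..1, x * (v x - a - b * x)) +
          ∫ x in (-1 : ℝ)..1, (1 - x ^ 2) * (v' x - b) := by
      rw [← intervalIntegral.integral_const_mul, ← intervalIntegral.integral_add]
      · refine intervalIntegral.integral_congr fun x _ => ?_
        ring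
      · exact Continuous.intervalIntegrable (by fun_prop) _ _
      · exact Continuous.intervalIntegrable (by fun_prop) _ _
    rw [h2, i2] at hI
    norm_num at hI
    exact hI
  have i5 : ∫ x in (-1 : ℝ)..1, (1 - x ^ 2) * v' x ^ 2 =
      3 * Q ^ 2 + ∫ x in (-1 : ℝ)..1, (1 - x ^ 2) * (v' x - b) ^ 2 := by
    have : ∫ x in (-1 : ℝ)..1, (1 - x ^ 2) * v' x ^ 2 =
        (∫ x in (-1 : ℝ)..1, (1 - x ^ 2) * (v' x - b) ^ 2) +
          (2 * b) * (∫ x in (-1 : ℝ)..1, (1 - x ^ 2) * (v' x - b)) +
          b ^ 2 * ((∫ _x in (-1 : ℝ)..1, (1 : ℝ)) - ∫ x in (-1 : ℝ)..1, x ^ 2) := by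
      rw [← intervalIntegral.integral_sub, ← intervalIntegral.integral_const_mul,
        ← intervalIntegral.integral_const_mul, ← intervalIntegral.integral_add,
        ← intervalIntegral.integral_add]
      · refine intervalIntegral.integral_congr fun x _ => ?_
        ring
      all_goals exact Continuous.intervalIntegrable (by fun_prop) _ _
    rw [this, i4, e0, e2, hb]
    ring
  have hL := leg_w hw (hc.sub continuous_const) i1 i2
  rw [i3] at hL
  rw [i5]
  linarith

private theorem leg_nsq (z : ℂ) : ‖z‖ ^ 2 = z.re ^ 2 + z.im ^ 2 := by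
  rw [Complex.sq_norm, Complex.normSq_apply]
  ring

private theorem leg_int (u : ℝ → ℂ) (hu : Continuous u) :
    ‖∫ x in (-1 : ℝ)..1, u x‖ ^ 2 =
      (∫ x in (-1 : ℝ)..1, (u x).re) ^ 2 + (∫ x in (-1 : ℝ)..1, (u x).im) ^ 2 := by
  have h1 : ∫ x in (-1 : ℝ)..1, (u x).re = (∫ x in (-1 : ℝ)..1, u x).re :=
    Complex.reCLM.intervalIntegral_comp_comm (hu.intervalIntegrable _ _)
  have h2 : ∫ x in (-1 : ℝ)..1, (u x).im = (∫ x in (-1 : ℝ)..1, u x).im :=
    Complex.imCLM.intervalIntegral_comp_comm (hu.intervalIntegrable _ _)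
  rw [leg_nsq, h1, h2]

theorem leg {v v' : ℝ → ℂ} (h : ∀ x, HasDerivAt v (v' x) x) (hc : Continuous v') :
    2 * q1 v + 6 * q2 v ≤ ∫ x in (-1 : ℝ)..1, (1 - x ^ 2) * ‖v' x‖ ^ 2 := by
  have hv : Continuous v := continuous_iff_continuousAt.2 fun x => (h x).continuousAt
  have hr : ∀ x, HasDerivAt (fun x => (v x).re) (v' x).re x := fun x =>
    Complex.reCLM.hasFDerivAt.comp_hasDerivAt x (h x)
  have hi : ∀ x, HasDerivAt (fun x => (v x).im) (v' x).im x := fun x =>
    Complex.imCLM.hasFDerivAt.comp_hasDerivAt x (h x)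
  have cr : Continuous fun x => (v' x).re := Complex.continuous_re.comp hc
  have ci : Continuous fun x => (v' x).im := Complex.continuous_im.comp hc
  have cvr : Continuous fun x => (v x).re := Complex.continuous_re.comp hv
  have cvi : Continuous fun x => (v x).im := Complex.continuous_im.comp hv
  have Lr := leg_real hr cr
  have Li := leg_real hi ci
  have s1 : q0 v = (∫ x in (-1 : ℝ)..1, (v x).re ^ 2) + ∫ x in (-1 : ℝ)..1, (v x).im ^ 2 := by
    rw [q0, ← intervalIntegral.integral_add]
    · exact intervalIntegral.integral_congr fun x _ => leg_nsq _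
    · exact (cvr.pow 2).intervalIntegrable _ _
    · exact (cvi.pow 2).intervalIntegrable _ _
  have s2 : ∫ x in (-1 : ℝ)..1, (1 - x ^ 2) * ‖v' x‖ ^ 2 =
      (∫ x in (-1 : ℝ)..1, (1 - x ^ 2) * (v' x).re ^ 2) +
        ∫ x in (-1 : ℝ)..1, (1 - x ^ 2) * (v' x).im ^ 2 := by
    rw [← intervalIntegral.integral_add]
    · refine intervalIntegral.integral_congr fun x _ => ?_
      rw [leg_nsq]
      ring
    · exact Continuous.intervalIntegrable (by fun_prop) _ _
    · exact Continuous.intervalIntegrable (by fun_prop) _ _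
  have s3 := leg_int v hv
  have s4 := leg_int (fun x => (x : ℂ) * v x) (Complex.continuous_ofReal.mul hv)
  simp only [Complex.re_ofReal_mul, Complex.im_ofReal_mul] at s4
  rw [q2, q1, s1, s2, s3, s4]
  linarith

end Pool.Agent.H37.ST
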