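import Pool.Agent.H37.ST.Pic

set_option autoImplicit false

/-! Steklov, part B, I1b: the third eigenvalue of the Legendre operator, real form (Mathlib and `Pic` only).

PROOF. `R x = ∫_{-1}^x w` (`HasDerivAt R (w x) x`), `R (-1) = R 1 = 0` (first condition), `∫ R = 0` (integration by parts:
`∫ R = [x R] - ∫ x w = 0`), `∫ w² = -∫ R w'` (`[R w] = 0`), `∫ x w = 0`.
`ρ = R - R 0 (1 - x²)`, `ρ' = w + 2 R(0) x`, vanishes at `0, ±1`: `picone` and `picone'` add up to
`6 ∫_{-1}^1 ρ²/(1-x²) ≤ ∫_{-1}^1 ρ'²`. Here `∫ ρ'² = ∫ w² + (8/3) R(0)²` (`∫ x w = 0`) and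
`∫ ρ²/(1-x²) = ∫ R²/(1-x²) - 2 R(0) ∫ R + (4/3) R(0)² = ∫ R²/(1-x²) + (4/3) R(0)²`
(a.e. `ρ²/(1-x²) = R²/(1-x²) - 2 R(0) R + R(0)² (1-x²)`), hence `6 ∫ R²/(1-x²) ≤ ∫ w²`.
Finally for `|x| < 1`: `(1-x²) w'² ≥ -12 w' R - 36 R²/(1-x²)` (square of `(1-x²) w' + 6 R`), integrate:
`∫ (1-x²) w'² ≥ 12 ∫ w² - 36 ∫ R²/(1-x²) ≥ 12 ∫ w² - 6 ∫ w²`. -/

open MeasureTheory Set

namespace Pool.Agent.H37.ST

theorem leg_w {w w' : ℝ → ℝ} (h : ∀ x, HasDerivAt w (w' x) x) (hc : Continuous w')
    (h0 : ∫ x in (-1 : ℝ)..1, w x = 0) (h1 : ∫ x in (-1 : ℝ)..1, x * w x = 0) :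
    6 * ∫ x in (-1 : ℝ)..1, w x ^ 2 ≤ ∫ x in (-1 : ℝ)..1, (1 - x ^ 2) * w' x ^ 2 := by
  have hwc : Continuous w := continuous_iff_continuousAt.2 fun x => (h x).continuousAt
  set R : ℝ → ℝ := fun x => ∫ t in (-1 : ℝ)..x, w t with hR
  have dR : ∀ x, HasDerivAt R (w x) x := fun x => (hwc.integral_hasStrictDerivAt (-1) x).hasDerivAt
  have cR : Continuous R := continuous_iff_continuousAt.2 fun x => (dR x).continuousAt
  have Rm : R (-1) = 0 := by simp [hR]
  have R1 : R 1 = 0 := h0
  have iR : ∫ x in (-1 : ℝ)..1, R x = 0 := by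
    have h2 := intervalIntegral.integral_mul_deriv_eq_deriv_mul (a := (-1 : ℝ)) (b := 1)
      (u := R) (v := fun x => x) (u' := w) (v' := fun _ => (1 : ℝ)) (fun x _ => dR x)
      (fun x _ => hasDerivAt_id x) (hwc.intervalIntegrable _ _)
      (continuous_const.intervalIntegrable _ _)
    simp only [mul_one, R1, Rm, zero_mul, sub_zero, zero_sub] at h2
    rw [h2]
    have : ∫ x in (-1 : ℝ)..1, w x * x = ∫ x in (-1 : ℝ)..1, x * w x :=
      intervalIntegral.integral_congr fun x _ => mul_comm _ _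
    rw [this, h1, neg_zero]
  have iW : ∫ x in (-1 : ℝ)..1, R x * w' x = -∫ x in (-1 : ℝ)..1, w x ^ 2 := by
    have h2 := intervalIntegral.integral_mul_deriv_eq_deriv_mul (a := (-1 : ℝ)) (b := 1)
      (u := R) (v := w) (u' := w) (v' := w') (fun x _ => dR x)
      (fun x _ => h x) (hwc.intervalIntegrable _ _) (hc.intervalIntegrable _ _)
    simp only [R1, Rm, zero_mul, sub_zero, zero_sub] at h2
    rw [h2]
    congr 1
    exact intervalIntegral.integral_congr fun x _ => (sq (w x)).symm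
  set r := R 0 with hr
  set ρ : ℝ → ℝ := fun x => R x - r * (1 - x ^ 2) with hρ
  have dρ : ∀ x, HasDerivAt ρ (w x + 2 * r * x) x := by
    intro x
    have e1 : HasDerivAt (fun x : ℝ => r * (1 - x ^ 2)) (r * (-(2 * x))) x := by
      have := (((hasDerivAt_id x).pow 2).const_sub 1).const_mul r
      simpa using this
    exact ((dR x).sub e1).congr_deriv (by ring)
  have cρ' : Continuous (fun x => w x + 2 * r * x) := by fun_prop
  have ρ0 : ρ 0 = 0 := by simp [hρ, hr]
  have ρ1 : ρ 1 = 0 := by simp [hρ, R1]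
  have ρm : ρ (-1) = 0 := by simp [hρ, Rm]
  have hqρ := quot_cont dρ cρ' ρ1 ρm
  have hqR := quot_cont dR hwc R1 Rm
  have pa := picone dρ cρ' ρ0 ρ1
  have pb := picone' dρ cρ' ρ0 ρm
  have iq1 : IntervalIntegrable (fun x => ρ x ^ 2 / (1 - x ^ 2)) volume (-1) 0 := by
    refine ContinuousOn.intervalIntegrable (hqρ.mono ?_)
    rw [Set.uIcc_of_le (by norm_num)]
    exact Icc_subset_Icc_right (by norm_num)
  have iq2 : IntervalIntegrable (fun x => ρ x ^ 2 / (1 - x ^ 2)) volume 0 1 := by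
    refine ContinuousOn.intervalIntegrable (hqρ.mono ?_)
    rw [Set.uIcc_of_le (by norm_num)]
    exact Icc_subset_Icc_left (by norm_num)
  have iqR : IntervalIntegrable (fun x => R x ^ 2 / (1 - x ^ 2)) volume (-1) 1 := by
    refine ContinuousOn.intervalIntegrable ?_
    rw [Set.uIcc_of_le (by norm_num)]
    exact hqR
  have c2 : Continuous (fun x => (w x + 2 * r * x) ^ 2) := by fun_prop
  have p1 : 6 * ∫ x in (-1 : ℝ)..1, ρ x ^ 2 / (1 - x ^ 2) ≤
      ∫ x in (-1 : ℝ)..1, (w x + 2 * r * x) ^ 2 := by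
    rw [← intervalIntegral.integral_add_adjacent_intervals iq1 iq2,
      ← intervalIntegral.integral_add_adjacent_intervals (c2.intervalIntegrable (-1) 0)
        (c2.intervalIntegrable 0 1)]
    linarith
  have m0 : ∫ x in (-1 : ℝ)..1, x ^ 2 = 2 / 3 := by
    rw [integral_pow]; norm_num
  have e1 : ∫ x in (-1 : ℝ)..1, (w x + 2 * r * x) ^ 2 =
      (∫ x in (-1 : ℝ)..1, w x ^ 2) + 8 / 3 * r ^ 2 := by
    have : (fun x => (w x + 2 * r * x) ^ 2) =
        fun x => w x ^ 2 + (4 * r * (x * w x) + 4 * r ^ 2 * x ^ 2) := by funext x; ring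
    rw [this, intervalIntegral.integral_add
      (by apply Continuous.intervalIntegrable; fun_prop)
      (by apply Continuous.intervalIntegrable; fun_prop),
      intervalIntegral.integral_add (by apply Continuous.intervalIntegrable; fun_prop)
      (by apply Continuous.intervalIntegrable; fun_prop),
      intervalIntegral.integral_const_mul, intervalIntegral.integral_const_mul, h1, m0]
    ring
  have pteq : ∀ x : ℝ, ρ x ^ 2 / (1 - x ^ 2) =
      R x ^ 2 / (1 - x ^ 2) + (-(2 * r) * R x + r ^ 2 * (1 - x ^ 2)) := by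
    intro x
    by_cases hx : 1 - x ^ 2 = 0
    · have hx2 : (x - 1) * (x + 1) = 0 := by linarith [hx, sq x]
      have hR0 : R x = 0 := by
        rcases mul_eq_zero.1 hx2 with h3 | h3
        · rw [show x = 1 by linarith]; exact R1
        · rw [show x = -1 by linarith]; exact Rm
      simp only [hx, hR0]
      simp
    · simp only [hρ]
      field_simp
      ring
  have e2 : ∫ x in (-1 : ℝ)..1, ρ x ^ 2 / (1 - x ^ 2) =
      (∫ x in (-1 : ℝ)..1, R x ^ 2 / (1 - x ^ 2)) + 4 / 3 * r ^ 2 := by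
    rw [intervalIntegral.integral_congr (g := fun x => R x ^ 2 / (1 - x ^ 2) +
      (-(2 * r) * R x + r ^ 2 * (1 - x ^ 2))) fun x _ => pteq x]
    rw [intervalIntegral.integral_add iqR (by apply Continuous.intervalIntegrable; fun_prop),
      intervalIntegral.integral_add (by apply Continuous.intervalIntegrable; fun_prop)
      (by apply Continuous.intervalIntegrable; fun_prop),
      intervalIntegral.integral_const_mul, intervalIntegral.integral_const_mul, iR]
    have : ∫ x in (-1 : ℝ)..1, (1 - x ^ 2) = 4 / 3 := by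
      rw [intervalIntegral.integral_sub (by apply Continuous.intervalIntegrable; fun_prop)
        (by apply Continuous.intervalIntegrable; fun_prop), m0]
      simp; norm_num
    rw [this]
    ring
  rw [e1, e2] at p1
  set Q := ∫ x in (-1 : ℝ)..1, R x ^ 2 / (1 - x ^ 2) with hQ
  set W := ∫ x in (-1 : ℝ)..1, w x ^ 2 with hW
  have hfin : 0 ≤ (∫ x in (-1 : ℝ)..1, (1 - x ^ 2) * w' x ^ 2) +
      (12 * (∫ x in (-1 : ℝ)..1, R x * w' x) + 36 * Q) := by
    rw [hQ, ← intervalIntegral.integral_const_mul, ← intervalIntegral.integral_const_mul,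
      ← intervalIntegral.integral_add (by apply Continuous.intervalIntegrable; fun_prop)
        (iqR.const_mul 36),
      ← intervalIntegral.integral_add (by apply Continuous.intervalIntegrable; fun_prop)
        (IntervalIntegrable.add (by apply Continuous.intervalIntegrable; fun_prop)
        (iqR.const_mul 36))]
    refine intervalIntegral.integral_nonneg (by norm_num) fun x hx => ?_
    have hx1 : 0 ≤ 1 - x ^ 2 := by nlinarith [hx.1, hx.2]
    rcases hx1.eq_or_lt with h3 | h3
    · have hx2 : (x - 1) * (x + 1) = 0 := by linarith [h3, sq x]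
      have hR0 : R x = 0 := by
        rcases mul_eq_zero.1 hx2 with h3 | h3
        · rw [show x = 1 by linarith]; exact R1
        · rw [show x = -1 by linarith]; exact Rm
      rw [← h3, hR0]
      simp
    · have : (1 - x ^ 2) * w' x ^ 2 + (12 * (R x * w' x) + 36 * (R x ^ 2 / (1 - x ^ 2))) =
          ((1 - x ^ 2) * w' x + 6 * R x) ^ 2 / (1 - x ^ 2) := by
        field_simp
        ring
      rw [this]
      positivity
  rw [iW] at hfin
  have hr2 : 0 ≤ r ^ 2 := sq_nonneg r
  linarith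

end Pool.Agent.H37.ST
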