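import Pool.Agent.H37.ST.Cmp
import Pool.Agent.H37.ST.Cst
import Pool.Agent.H37.ST.Brg

set_option autoImplicit false

/-! Steklov, part B: the data of the regular polygon -/

open Complex MeasureTheory Set Finset Filter Topology

namespace Pool.Agent.H37.ST

open Pool.Agent.H32.Stek hiding om perim area
open Pool.Agent.H32.Q4 hiding om
open Pool.Agent.H32.SG

variable {n : ℕ}

theorem reg_data (hn : 5 ≤ n) : ∃ (g : ℕ → ℂ → ℂ) (hh ht M κ : ℝ), (∀ k, Tst n (g k)) ∧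
    Tendsto (fun k => Hn n (g k)) atTop (𝓝 hh) ∧ Tendsto (fun k => Ht n (g k)) atTop (𝓝 ht) ∧
    Tendsto (fun k => Mg n (g k)) atTop (𝓝 M) ∧ Tendsto (fun k => Ka n (g k)) atTop (𝓝 κ) ∧
    0 ≤ hh ∧ 0 ≤ ht ∧ 0 ≤ M ∧ 0 ≤ κ ∧
    2 * n * tn n - sig n (rg n) (Up n) * (2 * n * tn n * Pool.Agent.H45.SN.yo (tn n)) =
      4 * n * tn n ^ 2 * sig n (rg n) (Up n) * κ ∧
    n * (hh + ht) - 2 * n * tn n * sig n (rg n) (Up n) * M =
      4 * n * tn n ^ 2 * sig n (rg n) (Up n) * κ ∧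
    24 * √2 * Real.cos (Real.pi / n) * κ ^ 2 +
      Real.cos (Real.pi / n) * √6 * (2 * M - 24 * κ ^ 2) ≤ hh + ht ∧
    16 * n * tn n * κ ^ 2 ≤ Pool.Agent.H45.SN.Qh n (tn n) * (hh + ht) := by
  have hn3 : 3 ≤ n := by omega
  have ht0 := tn_pos hn3
  have hs0 := sig_pos hn
  have hs1 := sig_le_yo hn3
  obtain ⟨g, hh, ht, M, κ, hg, l1, l2, l3, l4, hP⟩ := lim_data hn
  have hlow : ∀ l : ℝ, sig n (rg n) (Up n) * (tn n * (2 * Pool.Agent.H45.SN.yo (tn n) +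
      8 * tn n * κ * l + l ^ 2 * (2 * M))) ≤ 2 * tn n + l ^ 2 * (hh + ht) := by
    intro l
    have r1 : Tendsto (fun i => sig n (rg n) (Up n) * (tn n * (2 * Pool.Agent.H45.SN.yo (tn n) +
      8 * tn n * Ka n (g i) * l + l ^ 2 * (2 * Mg n (g i))))) atTop
      (𝓝 (sig n (rg n) (Up n) * (tn n * (2 * Pool.Agent.H45.SN.yo (tn n) +
      8 * tn n * κ * l + l ^ 2 * (2 * M))))) :=
      ((((((l4.const_mul (8 * tn n)).mul_const l).const_add _).add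
        ((l3.const_mul 2).const_mul (l ^ 2))).const_mul _).const_mul _)
    have r2 : Tendsto (fun i => 2 * tn n + l ^ 2 * (Hn n (g i) + Ht n (g i))) atTop
      (𝓝 (2 * tn n + l ^ 2 * (hh + ht))) := ((l1.add l2).const_mul _).const_add _
    refine le_of_tendsto_of_tendsto' r1 r2 fun i => ?_
    have h1 := cvs hn3 (tst_cls (hg i) l)
    rw [exp_E hn3 (hg i), exp_B (hg i)] at h1
    exact h1
  have hring := le_of_tendsto_of_tendsto'
    ((((l4.pow 2).const_mul (24 * √2 * Real.cos (Real.pi / n))).add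
      (((l3.const_mul 2).sub ((l4.pow 2).const_mul 24)).const_mul
        (Real.cos (Real.pi / n) * √6)))) (l1.add l2) fun i => ring_g hn3 (hg i)
  have hdual := le_of_tendsto_of_tendsto'
    ((l4.pow 2).const_mul (16 * n * tn n)) ((l1.add l2).const_mul
      (Pool.Agent.H45.SN.Qh n (tn n))) fun i => dual hn3 (hg i)
  set s := sig n (rg n) (Up n)
  set t := tn n
  set yo := Pool.Agent.H45.SN.yo t
  have hdis : discrim (hh + ht - 2 * s * t * M) (-(8 * s * t ^ 2 * κ)) (2 * t - 2 * s * t * yo) ≤ 0 := by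
    refine discrim_le_zero fun x => ?_
    have := hlow x
    nlinarith
  have h1 := hlow 1
  have hsum : (hh + ht - 2 * s * t * M) + (2 * t - 2 * s * t * yo) = 8 * s * t ^ 2 * κ := by
    nlinarith
  have hac : (hh + ht - 2 * s * t * M) = (2 * t - 2 * s * t * yo) := by
    unfold discrim at hdis
    set a := hh + ht - 2 * s * t * M
    set c := 2 * t - 2 * s * t * yo
    rw [← hsum] at hdis
    have h2 : (a - c) ^ 2 ≤ 0 := by nlinarith
    have h3 : a - c = 0 := by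
      have := sq_nonneg (a - c)
      exact pow_eq_zero_iff (two_ne_zero) |>.1 (le_antisymm h2 this)
    linarith
  have hk : 4 * s * t ^ 2 * κ = 2 * t - 2 * s * t * yo := by linarith
  have hκ0 : 0 ≤ κ := by
    have h2 : 0 ≤ 2 * t * (1 - s * yo) := mul_nonneg (by linarith) (by linarith)
    have h3 : 0 ≤ 4 * s * t ^ 2 * κ := by
      rw [hk]
      linarith
    have h4 : 0 < 4 * s * t ^ 2 := by positivity
    exact nonneg_of_mul_nonneg_right h3 h4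
  refine ⟨g, hh, ht, M, κ, hg, l1, l2, l3, l4, ge_of_tendsto' l1 fun i => Hn_nonneg hn3 _,
    ge_of_tendsto' l2 fun i => Ht_nonneg hn3 _, ge_of_tendsto' l3 fun i => Mg_nonneg _, hκ0,
    ?_, ?_, hring, hdual⟩
  · linear_combination (-(n : ℝ)) * hk
  · linear_combination (n : ℝ) * hac - (n : ℝ) * hk

/-- target 1 of part B -/
theorem main_data (hn : 5 ≤ n) : ∃ (g : ℕ → ℂ → ℂ) (hh ht M κ : ℝ), (∀ k, Tst n (g k)) ∧
    Tendsto (fun k => Hn n (g k)) atTop (𝓝 hh) ∧ Tendsto (fun k => Ht n (g k)) atTop (𝓝 ht) ∧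
    Tendsto (fun k => Mg n (g k)) atTop (𝓝 M) ∧ Tendsto (fun k => Ka n (g k)) atTop (𝓝 κ) ∧
    0 ≤ hh ∧ 0 ≤ ht ∧ 0 ≤ M ∧ 0 ≤ κ ∧
    2 * n * Pool.Agent.H45.SN.tn n -
      sig n (Pool.Agent.H45.SN.rv n) (Pool.Agent.H45.SN.RR n) *
        (2 * n * Pool.Agent.H45.SN.tn n * Pool.Agent.H45.SN.yo (Pool.Agent.H45.SN.tn n)) =
      4 * n * Pool.Agent.H45.SN.tn n ^ 2 *
        sig n (Pool.Agent.H45.SN.rv n) (Pool.Agent.H45.SN.RR n) * κ ∧
    n * (hh + ht) - 2 * n * Pool.Agent.H45.SN.tn n *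
        sig n (Pool.Agent.H45.SN.rv n) (Pool.Agent.H45.SN.RR n) * M =
      4 * n * Pool.Agent.H45.SN.tn n ^ 2 *
        sig n (Pool.Agent.H45.SN.rv n) (Pool.Agent.H45.SN.RR n) * κ ∧
    24 * √2 * Real.cos (Real.pi / n) * κ ^ 2 +
      Real.cos (Real.pi / n) * √6 / Pool.Agent.H45.SN.tn n *
        (2 * Pool.Agent.H45.SN.tn n * M - 24 * Pool.Agent.H45.SN.tn n * κ ^ 2) ≤ hh + ht ∧
    16 * Pool.Agent.H45.SN.tn n ^ 4 * κ ^ 2 ≤
      Pool.Agent.H45.SN.tn n ^ 3 / n * Pool.Agent.H45.SN.Qh n (Pool.Agent.H45.SN.tn n) *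
        (hh + ht) := by
  have hn3 : 3 ≤ n := by omega
  have ht0 := tn_pos hn3
  have hn0 : (0 : ℝ) < n := by exact_mod_cast (by omega : 0 < n)
  have htt : Pool.Agent.H45.SN.tn n = tn n := rfl
  have hrv : Pool.Agent.H45.SN.rv n = rg n := rfl
  rw [htt, hrv, RR_eq hn3]
  obtain ⟨g, hh, ht, M, κ, hg, l1, l2, l3, l4, n1, n2, n3, n4, h1, h2, h3, h4⟩ := reg_data hn
  refine ⟨g, hh, ht, M, κ, hg, l1, l2, l3, l4, n1, n2, n3, n4, h1, h2, ?_, ?_⟩
  · have e : Real.cos (Real.pi / n) * √6 / tn n * (2 * tn n * M - 24 * tn n * κ ^ 2) =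
        Real.cos (Real.pi / n) * √6 * (2 * M - 24 * κ ^ 2) := by
      field_simp
    rw [e]
    exact h3
  · have h5 : tn n ^ 3 / n * (16 * n * tn n * κ ^ 2) ≤
        tn n ^ 3 / n * (Pool.Agent.H45.SN.Qh n (tn n) * (hh + ht)) :=
      mul_le_mul_of_nonneg_left h4 (by positivity)
    have e1 : tn n ^ 3 / n * (16 * n * tn n * κ ^ 2) = 16 * tn n ^ 4 * κ ^ 2 := by
      field_simp
    rw [e1, ← mul_assoc] at h5
    exact h5

/-- target 2 of part B -/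
theorem main_const (hn : 5 ≤ n) {σ hh ht M κ : ℝ} (hσ : 0 ≤ σ) (h0 : 0 ≤ hh) (h0' : 0 ≤ ht)
    (hM : 0 ≤ M) (hκ : 0 ≤ κ)
    (h1 : 2 * n * Pool.Agent.H45.SN.tn n - σ * (2 * n * Pool.Agent.H45.SN.tn n *
      Pool.Agent.H45.SN.yo (Pool.Agent.H45.SN.tn n)) = 4 * n * Pool.Agent.H45.SN.tn n ^ 2 * σ * κ)
    (h2 : n * (hh + ht) - 2 * n * Pool.Agent.H45.SN.tn n * σ * M =
      4 * n * Pool.Agent.H45.SN.tn n ^ 2 * σ * κ)
    (h3 : 24 * √2 * Real.cos (Real.pi / n) * κ ^ 2 +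
      Real.cos (Real.pi / n) * √6 / Pool.Agent.H45.SN.tn n * (2 * Pool.Agent.H45.SN.tn n * M -
        24 * Pool.Agent.H45.SN.tn n * κ ^ 2) ≤ hh + ht)
    (h4 : 16 * Pool.Agent.H45.SN.tn n ^ 4 * κ ^ 2 ≤ Pool.Agent.H45.SN.tn n ^ 3 / n *
      Pool.Agent.H45.SN.Qh n (Pool.Agent.H45.SN.tn n) * (hh + ht)) :
    0 < σ ∧ 1.7 * (4 * n * κ / Pool.Agent.H45.SN.tn n) ≤
      Pool.Agent.H45.SN.yo (Pool.Agent.H45.SN.tn n) ^ 3 ∧
    4 * n * Pool.Agent.H45.SN.tn n ^ 2 * σ * κ ≤ n * (hh + ht) ∧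
    n * (hh + ht) ≤ 1.63 * (4 * n * Pool.Agent.H45.SN.tn n ^ 2 * σ * κ) := by
  have ht0 := Pool.Agent.H45.SN.nt_pos hn
  have hn0 : (0 : ℝ) < n := by exact_mod_cast (by omega : 0 < n)
  set t := Pool.Agent.H45.SN.tn n with ht'
  have hσ0 : 0 < σ := by
    rcases hσ.lt_or_eq with h5 | h5
    · exact h5
    · exfalso
      rw [← h5] at h1
      have : 0 < 2 * n * t := by positivity
      linarith
  have hσ1 : σ * Pool.Agent.H45.SN.yo t ≤ 1 := by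
    have h5 : 0 ≤ 4 * n * t ^ 2 * σ * κ := by positivity
    have h6 : 0 ≤ 2 * n * t * (1 - σ * Pool.Agent.H45.SN.yo t) := by
      have e : 2 * n * t * (1 - σ * Pool.Agent.H45.SN.yo t) =
        2 * n * t - σ * (2 * n * t * Pool.Agent.H45.SN.yo t) := by ring
      rw [e, h1]
      exact h5
    have h7 : 0 < 2 * n * t := by positivity
    have := nonneg_of_mul_nonneg_right h6 h7
    linarith
  have h3' : 24 * √2 * Real.cos (Real.pi / n) * κ ^ 2 +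
      Real.cos (Real.pi / n) * √6 * (2 * M - 24 * κ ^ 2) ≤ hh + ht := by
    have e : Real.cos (Real.pi / n) * √6 / t * (2 * t * M - 24 * t * κ ^ 2) =
        Real.cos (Real.pi / n) * √6 * (2 * M - 24 * κ ^ 2) := by
      field_simp
    rw [← e]
    exact h3
  have h4' : 16 * n * t * κ ^ 2 ≤ Pool.Agent.H45.SN.Qh n t * (hh + ht) := by
    have h5 : n / t ^ 3 * (16 * t ^ 4 * κ ^ 2) ≤
        n / t ^ 3 * (t ^ 3 / n * Pool.Agent.H45.SN.Qh n t * (hh + ht)) :=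
      mul_le_mul_of_nonneg_left h4 (by positivity)
    have e1 : n / t ^ 3 * (16 * t ^ 4 * κ ^ 2) = 16 * n * t * κ ^ 2 := by
      field_simp
    have e2 : n / t ^ 3 * (t ^ 3 / n * Pool.Agent.H45.SN.Qh n t * (hh + ht)) =
        Pool.Agent.H45.SN.Qh n t * (hh + ht) := by
      field_simp
    rw [e1, e2] at h5
    exact h5
  obtain ⟨A, b, hA0, hA1, hA2, hA3, hb, hb1, hb2⟩ := cst hn hσ0 hσ1 hM (add_nonneg h0 h0') h1 h2 h3' h4'
  rw [← ht'] at hA1 hA2 hA3 hb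
  have hA : 4 * n * κ / t = A := by
    rw [hA3]
    field_simp
  have ha0 : 4 * n * t ^ 2 * σ * κ = A * σ * t ^ 3 := by
    rw [hA2, h1]
  have hnn : 0 ≤ A * σ * t ^ 3 := by positivity
  refine ⟨hσ0, by rw [hA]; exact hA1, ?_, ?_⟩
  · rw [ha0, hb]
    have : 1 * (A * σ * t ^ 3) ≤ n * b * (A * σ * t ^ 3) := mul_le_mul_of_nonneg_right hb1 hnn
    linarith
  · rw [ha0, hb]
    have : n * b * (A * σ * t ^ 3) ≤ 1.63 * (A * σ * t ^ 3) := mul_le_mul_of_nonneg_right hb2 hnn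
    linarith

end Pool.Agent.H37.ST
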