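import Mathlib

set_option autoImplicit false

/-! Steklov, part B: derivative of an integral with respect to a parameter (MATHLIB ONLY).

PROOF. `hasDerivAt_integral_of_dominated_loc_of_deriv_le` for interval integrals
(`intervalIntegral.hasDerivAt_integral_of_dominated_loc_of_deriv_le`) on the ball of radius `1` around `r`; the bound is the
maximum of `‖G'‖` on the compact set `[r-1, r+1] × [a, b]` (continuity). `G r` is continuous in the second variable by `hc0`. -/

open MeasureTheory Set

namespace Pool.Agent.H37.ST

theorem hasDeriv_par {E : Type*} [NormedAddCommGroup E] [NormedSpace ℝ E] [CompleteSpace E]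
    {G G' : ℝ → ℝ → E} (h : ∀ r y, HasDerivAt (fun r => G r y) (G' r y) r)
    (hc0 : Continuous (fun z : ℝ × ℝ => G z.1 z.2)) (hc : Continuous (fun z : ℝ × ℝ => G' z.1 z.2))
    (a b r : ℝ) :
    HasDerivAt (fun r => ∫ y in a..b, G r y) (∫ y in a..b, G' r y) r := by
  have hG : ∀ x, Continuous (G x) := fun x =>
    hc0.comp (continuous_const.prodMk continuous_id)
  have hG' : ∀ x, Continuous (G' x) := fun x =>
    hc.comp (continuous_const.prodMk continuous_id)
  obtain ⟨C, hC⟩ := ((isCompact_closedBall r 1).prod (isCompact_uIcc (a := a) (b := b))).exists_bound_of_continuousOn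
    hc.continuousOn
  exact (intervalIntegral.hasDerivAt_integral_of_dominated_loc_of_deriv_le (F := G) (F' := G')
    (x₀ := r) (s := Metric.closedBall r 1) (bound := fun _ => C)
    (Metric.closedBall_mem_nhds r one_pos)
    (Filter.Eventually.of_forall fun x => (hG x).aestronglyMeasurable)
    ((hG r).intervalIntegrable _ _) (hG' r).aestronglyMeasurable
    (Filter.Eventually.of_forall fun t ht x hx => hC (x, t) ⟨hx, uIoc_subset_uIcc ht⟩)
    (continuous_const.intervalIntegrable _ _)
    (Filter.Eventually.of_forall fun t _ x _ => h x t)).2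

theorem cont_par {E : Type*} [NormedAddCommGroup E] [NormedSpace ℝ E] [CompleteSpace E]
    {G : ℝ → ℝ → E} (hc0 : Continuous (fun z : ℝ × ℝ => G z.1 z.2)) (a b : ℝ) :
    Continuous (fun r => ∫ y in a..b, G r y) :=
  intervalIntegral.continuous_parametric_intervalIntegral_of_continuous' (f := G) hc0 a b

end Pool.Agent.H37.ST
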