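import Mathlib

set_option autoImplicit false

/-! Steklov, part B, I1a: Picone's inequality with `φ = x (1 - x²)`, `φ'' = -6 φ / (1 - x²)` (MATHLIB ONLY).

PROOF of `picone`. For `0 < x < 1`, `φ' = 1 - 3 x²`, `F = ρ² φ' / φ`:
`F' = 2 ρ ρ' φ'/φ + ρ² (φ'' φ - φ'²)/φ² = ρ'² - 6 ρ²/(1-x²) - (ρ' - ρ φ'/φ)² ≤ G := ρ'² - 6 ρ²/(1-x²)`.
`F` (with the value `0` at `0` and `1`, which is Lean's value of the quotient) is continuous on `[0,1]`: `ρ = O(x)` at `0`,
`ρ = O(1-x)` at `1` (`ρ` is Lipschitz on `[0,1]`: mean value inequality). `G` is continuous on `[0,1]` for the same reason.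
Use `intervalIntegral.sub_le_integral_of_hasDeriv_right_of_le`: `0 = F 1 - F 0 ≤ ∫ G`.
`picone'`: apply `picone` to `x ↦ ρ (-x)`. `quot_cont`: `ρ² / (1 - x²)` on `[-1,1]`, `|ρ x| ≤ C (1 - x)` and `|ρ x| ≤ C (1 + x)`. -/

open MeasureTheory Set

namespace Pool.Agent.H37.ST

private lemma pic_slope_cont {ρ ρ' : ℝ → ℝ} (h : ∀ x, HasDerivAt ρ (ρ' x) x) (a : ℝ) :
    Continuous (dslope ρ a) := by
  rw [← continuousOn_univ]
  refine (continuousOn_dslope Filter.univ_mem).2 ⟨?_, (h a).differentiableAt⟩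
  exact (continuous_iff_continuousAt.2 fun x => (h x).continuousAt).continuousOn

private lemma pic_slope {ρ : ℝ → ℝ} {a : ℝ} (ha : ρ a = 0) (x : ℝ) :
    ρ x = (x - a) * dslope ρ a x := by
  have := sub_smul_dslope ρ a x
  rw [smul_eq_mul, ha, sub_zero] at this
  exact this.symm

private lemma pic_slope0 {ρ : ℝ → ℝ} {a b : ℝ} (hab : b ≠ a) (ha : ρ a = 0) (hb : ρ b = 0) :
    dslope ρ a b = 0 := by
  have := pic_slope ha b
  rw [hb] at this
  exact (mul_eq_zero.1 this.symm).resolve_left (sub_ne_zero.2 hab)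

/-- continuity on `[0,1]` -/
private lemma pic_cont1 {ρ ρ' : ℝ → ℝ} (h : ∀ x, HasDerivAt ρ (ρ' x) x) (h1 : ρ 1 = 0) :
    ContinuousOn (fun x => ρ x ^ 2 / (1 - x ^ 2)) (Icc 0 1) := by
  have hρc : Continuous ρ := continuous_iff_continuousAt.2 fun x => (h x).continuousAt
  have hc : ContinuousOn (fun x => -(dslope ρ 1 x / (1 + x)) * ρ x) (Icc 0 1) := by
    refine ContinuousOn.mul (ContinuousOn.neg ?_) hρc.continuousOn
    exact (pic_slope_cont h 1).continuousOn.div (by fun_prop) fun x hx => by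
      have := hx.1
      linarith
  refine hc.congr fun x hx => ?_
  have hx0 : 1 + x ≠ 0 := by
    have := hx.1
    linarith
  by_cases hx1 : x = 1
  · simp [hx1, h1]
  · have e1 : ρ x = (x - 1) * dslope ρ 1 x := pic_slope h1 x
    have e2 : (1 : ℝ) - x ≠ 0 := sub_ne_zero.2 (Ne.symm hx1)
    have e3 : 1 - x ^ 2 = (1 - x) * (1 + x) := by ring
    simp only
    rw [e3, div_eq_iff (mul_ne_zero e2 hx0), pow_two]
    nth_rewrite 1 [e1]
    field_simp
    ring

theorem quot_cont {ρ ρ' : ℝ → ℝ} (h : ∀ x, HasDerivAt ρ (ρ' x) x) (hc : Continuous ρ')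
    (h1 : ρ 1 = 0) (h2 : ρ (-1) = 0) :
    ContinuousOn (fun x => ρ x ^ 2 / (1 - x ^ 2)) (Icc (-1) 1) := by
  have hcc : Continuous (fun x => -(dslope ρ 1 x * dslope ρ (-1) x)) :=
    ((pic_slope_cont h 1).mul (pic_slope_cont h (-1))).neg
  refine hcc.continuousOn.congr fun x _ => ?_
  simp only
  by_cases hx1 : x = 1
  · rw [hx1, pic_slope0 (a := -1) (b := 1) (by norm_num) h2 h1]
    simp
  by_cases hx2 : x = -1
  · rw [hx2, pic_slope0 (a := 1) (b := -1) (by norm_num) h1 h2]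
    simp
  have e1 : ρ x = (x - 1) * dslope ρ 1 x := pic_slope h1 x
  have e2 : ρ x = (x - -1) * dslope ρ (-1) x := pic_slope h2 x
  have e3 : (1 : ℝ) - x ≠ 0 := sub_ne_zero.2 (Ne.symm hx1)
  have e4 : (1 : ℝ) + x ≠ 0 := by
    intro h0
    exact hx2 (by linarith)
  have e5 : 1 - x ^ 2 = (1 - x) * (1 + x) := by ring
  rw [e5, div_eq_iff (mul_ne_zero e3 e4), pow_two]
  nth_rewrite 1 [e1]
  rw [e2]
  ring

theorem picone {ρ ρ' : ℝ → ℝ} (h : ∀ x, HasDerivAt ρ (ρ' x) x) (hc : Continuous ρ')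
    (h0 : ρ 0 = 0) (h1 : ρ 1 = 0) :
    6 * ∫ x in (0 : ℝ)..1, ρ x ^ 2 / (1 - x ^ 2) ≤ ∫ x in (0 : ℝ)..1, ρ' x ^ 2 := by
  have hρc : Continuous ρ := continuous_iff_continuousAt.2 fun x => (h x).continuousAt
  have hq := pic_cont1 h h1
  set F : ℝ → ℝ := fun x => ρ x ^ 2 * (1 - 3 * x ^ 2) / (x * (1 - x ^ 2)) with hF
  have hFc : ContinuousOn F (Icc 0 1) := by
    have hc : ContinuousOn (fun x => -(dslope ρ 1 x / (1 + x)) * dslope ρ 0 x * (1 - 3 * x ^ 2))
        (Icc 0 1) := by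
      refine ContinuousOn.mul (ContinuousOn.mul (ContinuousOn.neg ?_)
        (pic_slope_cont h 0).continuousOn) (by fun_prop)
      exact (pic_slope_cont h 1).continuousOn.div (by fun_prop) fun x hx => by
        have := hx.1
        linarith
    refine hc.congr fun x hx => ?_
    have hx0 : 1 + x ≠ 0 := by
      have := hx.1
      linarith
    simp only [hF]
    by_cases hx1 : x = 1
    · rw [hx1, pic_slope0 (a := 0) (b := 1) (by norm_num) h0 h1]
      simp
    by_cases hxz : x = 0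
    · rw [hxz, pic_slope0 (a := 1) (b := 0) (by norm_num) h1 h0]
      simp
    have e1 : ρ x = (x - 1) * dslope ρ 1 x := pic_slope h1 x
    have e2 : ρ x = (x - 0) * dslope ρ 0 x := pic_slope h0 x
    have e3 : (1 : ℝ) - x ≠ 0 := sub_ne_zero.2 (Ne.symm hx1)
    have e5 : 1 - x ^ 2 = (1 - x) * (1 + x) := by ring
    rw [e5, div_eq_iff (mul_ne_zero hxz (mul_ne_zero e3 hx0)), pow_two]
    nth_rewrite 1 [e1]
    rw [e2]
    field_simp
    ring
  set G : ℝ → ℝ := fun x => ρ' x ^ 2 - 6 * (ρ x ^ 2 / (1 - x ^ 2)) with hG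
  have hGc : ContinuousOn G (Icc 0 1) :=
    (hc.pow 2).continuousOn.sub (continuousOn_const.mul hq)
  set F' : ℝ → ℝ := fun x => ((2 * ρ x * ρ' x * (1 - 3 * x ^ 2) + ρ x ^ 2 * (-(3 * (2 * x)))) *
      (x * (1 - x ^ 2)) - ρ x ^ 2 * (1 - 3 * x ^ 2) * (1 * (1 - x ^ 2) + x * (-(2 * x)))) /
      (x * (1 - x ^ 2)) ^ 2 with hF'
  have hder : ∀ x ∈ Ioo (0 : ℝ) 1, HasDerivAt F (F' x) x := by
    intro x hx
    have hD : x * (1 - x ^ 2) ≠ 0 := by
      have h3 : 0 < 1 - x ^ 2 := by nlinarith [hx.1, hx.2]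
      exact (mul_pos hx.1 h3).ne'
    have d1 : HasDerivAt (fun x => ρ x ^ 2) (2 * ρ x * ρ' x) x := by
      have h5 := (h x).fun_pow 2
      refine h5.congr_deriv ?_
      push_cast
      ring
    have d2 : HasDerivAt (fun x : ℝ => 1 - 3 * x ^ 2) (-(3 * (2 * x))) x := by
      have := ((hasDerivAt_pow 2 x).const_mul 3).const_sub 1
      simpa using this
    have d3 : HasDerivAt (fun x : ℝ => 1 - x ^ 2) (-(2 * x)) x := by
      have := (hasDerivAt_pow 2 x).const_sub 1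
      simpa using this
    have d4 : HasDerivAt (fun x : ℝ => x * (1 - x ^ 2)) (1 * (1 - x ^ 2) + x * (-(2 * x))) x :=
      (hasDerivAt_id x).mul d3
    exact (d1.mul d2).div d4 hD
  have hle : ∀ x ∈ Ioo (0 : ℝ) 1, F' x ≤ G x := by
    intro x hx
    have h3 : 0 < 1 - x ^ 2 := by nlinarith [hx.1, hx.2]
    have hx0 := hx.1.ne'
    have key : G x - F' x = (ρ' x - ρ x * (1 - 3 * x ^ 2) / (x * (1 - x ^ 2))) ^ 2 := by
      simp only [hG, hF']
      have h4 := h3.ne'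
      field_simp
      ring
    have := sq_nonneg (ρ' x - ρ x * (1 - 3 * x ^ 2) / (x * (1 - x ^ 2)))
    linarith
  have hmain := intervalIntegral.sub_le_integral_of_hasDeriv_right_of_le (g := F) (g' := F')
    (φ := G) (zero_le_one) hFc (fun x hx => (hder x hx).hasDerivWithinAt)
    hGc.integrableOn_Icc hle
  have hF1 : F 1 = 0 := by simp [hF]
  have hF0 : F 0 = 0 := by simp [hF]
  rw [hF1, hF0, sub_zero] at hmain
  have hi1 : IntervalIntegrable (fun x => ρ' x ^ 2) volume 0 1 :=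
    (hc.pow 2).intervalIntegrable _ _
  have hi2 : IntervalIntegrable (fun x => 6 * (ρ x ^ 2 / (1 - x ^ 2))) volume 0 1 := by
    refine ContinuousOn.intervalIntegrable ?_
    rw [uIcc_of_le zero_le_one]
    exact continuousOn_const.mul hq
  simp only [hG] at hmain
  rw [intervalIntegral.integral_sub hi1 hi2, intervalIntegral.integral_const_mul] at hmain
  linarith

theorem picone' {ρ ρ' : ℝ → ℝ} (h : ∀ x, HasDerivAt ρ (ρ' x) x) (hc : Continuous ρ')
    (h0 : ρ 0 = 0) (h1 : ρ (-1) = 0) :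
    6 * ∫ x in (-1 : ℝ)..0, ρ x ^ 2 / (1 - x ^ 2) ≤ ∫ x in (-1 : ℝ)..0, ρ' x ^ 2 := by
  have hneg : ∀ x, HasDerivAt (fun x => ρ (-x)) (-ρ' (-x)) x := by
    intro x
    have h5 := (h (-x)).scomp x (hasDerivAt_neg x)
    rw [neg_one_smul] at h5
    exact h5
  have hp := picone (ρ := fun x => ρ (-x)) (ρ' := fun x => -ρ' (-x)) hneg
    (hc.comp continuous_neg).neg (by simpa using h0) (by simpa using h1)
  have e1 : ∫ x in (0 : ℝ)..1, ρ (-x) ^ 2 / (1 - x ^ 2) =
      ∫ x in (-1 : ℝ)..0, ρ x ^ 2 / (1 - x ^ 2) := by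
    have := intervalIntegral.integral_comp_neg (a := (0 : ℝ)) (b := 1)
      (f := fun x => ρ x ^ 2 / (1 - x ^ 2))
    simp only [neg_zero, neg_sq] at this
    exact this
  have e2 : ∫ x in (0 : ℝ)..1, (-ρ' (-x)) ^ 2 = ∫ x in (-1 : ℝ)..0, ρ' x ^ 2 := by
    have := intervalIntegral.integral_comp_neg (a := (0 : ℝ)) (b := 1)
      (f := fun x => ρ' x ^ 2)
    simp only [neg_zero] at this
    simp only [neg_sq]
    exact this
  rw [← e1, ← e2]
  exact hp

end Pool.Agent.H37.ST
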