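import Pool.Agent.H37.ST.Rng
import Pool.Agent.H37.ST.Par

set_option autoImplicit false

/-! Steklov, part B: derivatives of the quadratic forms along the rings.

PROOFS. `hasDeriv_par` (module `Par`) for `‖rf‖²` (derivative `2 Re (conj rp · rf)`), `rf` and `y rf`;
`rf_deriv_r`, `rf_cont`, `rp_cont` (module `Rng`). `‖F r‖²` has the derivative `2 Re (conj F' · F)`.
Continuity: `cont_par` and algebra. -/

open Complex MeasureTheory Set

namespace Pool.Agent.H37.ST

open Pool.Agent.H32.SG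

variable {n : ℕ} {f : ℂ → ℂ}

private lemma qd_norm {F : ℝ → ℂ} {F' : ℂ} {r : ℝ} (h : HasDerivAt F F' r) :
    HasDerivAt (fun r => ‖F r‖ ^ 2) (2 * ((starRingEnd ℂ) F' * F r).re) r := by
  have h1 := h.norm_sq
  rw [real_inner_comm, Complex.inner, mul_comm (F r)] at h1
  exact h1

private lemma qd_int (hf : ContDiff ℝ 1 f) (r : ℝ) :
    HasDerivAt (fun r => ∫ y in (-1 : ℝ)..1, rf n f r y) (∫ y in (-1 : ℝ)..1, rp n f r y) r :=
  hasDeriv_par (G := rf n f) (G' := rp n f) (rf_deriv_r hf) (rf_cont hf) (rp_cont hf) _ _ _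

private lemma qd_intY (hf : ContDiff ℝ 1 f) (r : ℝ) :
    HasDerivAt (fun r => ∫ y in (-1 : ℝ)..1, (y : ℂ) * rf n f r y)
      (∫ y in (-1 : ℝ)..1, (y : ℂ) * rp n f r y) r :=
  hasDeriv_par (G := fun r y => (y : ℂ) * rf n f r y) (G' := fun r y => (y : ℂ) * rp n f r y)
    (fun r y => (rf_deriv_r hf r y).const_mul _)
    ((Complex.continuous_ofReal.comp continuous_snd).mul (rf_cont hf))
    ((Complex.continuous_ofReal.comp continuous_snd).mul (rp_cont hf)) _ _ _

theorem qd0 (hf : ContDiff ℝ 1 f) (r : ℝ) :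
    HasDerivAt (fun r => q0 (rf n f r)) (2 * b0 (rp n f r) (rf n f r)) r := by
  have h := hasDeriv_par (G := fun r y => ‖rf n f r y‖ ^ 2)
    (G' := fun r y => 2 * ((starRingEnd ℂ) (rp n f r y) * rf n f r y).re)
    (fun r y => qd_norm (rf_deriv_r hf r y)) ((rf_cont hf).norm.pow 2)
    (continuous_const.mul (Complex.continuous_re.comp
      ((Complex.continuous_conj.comp (rp_cont hf)).mul (rf_cont hf)))) (-1) 1 r
  simp only [intervalIntegral.integral_const_mul] at h
  exact h

theorem qd1 (hf : ContDiff ℝ 1 f) (r : ℝ) :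
    HasDerivAt (fun r => q1 (rf n f r)) (2 * b1 (rp n f r) (rf n f r)) r := by
  have h := (qd_norm (qd_intY (n := n) hf r)).const_mul (3 / 2 : ℝ)
  have e : 2 * b1 (rp n f r) (rf n f r) = 3 / 2 * (2 * ((starRingEnd ℂ)
      (∫ y in (-1 : ℝ)..1, (y : ℂ) * rp n f r y) *
        ∫ y in (-1 : ℝ)..1, (y : ℂ) * rf n f r y).re) := by
    unfold b1
    ring
  rw [e]
  exact h

theorem qd2 (hf : ContDiff ℝ 1 f) (r : ℝ) :
    HasDerivAt (fun r => q2 (rf n f r)) (2 * b2 (rp n f r) (rf n f r)) r := by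
  have h := ((qd0 (n := n) hf r).sub ((qd_norm (qd_int (n := n) hf r)).div_const 2)).sub
    (qd1 (n := n) hf r)
  have e : 2 * b2 (rp n f r) (rf n f r) = 2 * b0 (rp n f r) (rf n f r) -
      2 * ((starRingEnd ℂ) (∫ y in (-1 : ℝ)..1, rp n f r y) *
        ∫ y in (-1 : ℝ)..1, rf n f r y).re / 2 - 2 * b1 (rp n f r) (rf n f r) := by
    unfold b2
    ring
  rw [e]
  exact h

theorem qc (hf : ContDiff ℝ 1 f) : Continuous (fun r => b0 (rp n f r) (rf n f r)) ∧
    Continuous (fun r => b1 (rp n f r) (rf n f r)) ∧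
    Continuous (fun r => b2 (rp n f r) (rf n f r)) := by
  have hr := rf_cont (n := n) hf
  have hp := rp_cont (n := n) hf
  have hy : Continuous fun z : ℝ × ℝ => ((z.2 : ℝ) : ℂ) :=
    Complex.continuous_ofReal.comp continuous_snd
  have h0 : Continuous (fun r => b0 (rp n f r) (rf n f r)) :=
    cont_par (G := fun r y => ((starRingEnd ℂ) (rp n f r y) * rf n f r y).re)
      (Complex.continuous_re.comp ((Complex.continuous_conj.comp hp).mul hr)) _ _
  have i1 : Continuous fun r => ∫ y in (-1 : ℝ)..1, (y : ℂ) * rp n f r y :=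
    cont_par (G := fun r y => (y : ℂ) * rp n f r y) (hy.mul hp) _ _
  have i2 : Continuous fun r => ∫ y in (-1 : ℝ)..1, (y : ℂ) * rf n f r y :=
    cont_par (G := fun r y => (y : ℂ) * rf n f r y) (hy.mul hr) _ _
  have i3 : Continuous fun r => ∫ y in (-1 : ℝ)..1, rp n f r y :=
    cont_par (G := rp n f) hp _ _
  have i4 : Continuous fun r => ∫ y in (-1 : ℝ)..1, rf n f r y :=
    cont_par (G := rf n f) hr _ _
  have h1 : Continuous (fun r => b1 (rp n f r) (rf n f r)) :=
    continuous_const.mul (Complex.continuous_re.comp ((Complex.continuous_conj.comp i1).mul i2))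
  refine ⟨h0, h1, ?_⟩
  exact (h0.sub ((Complex.continuous_re.comp
    ((Complex.continuous_conj.comp i3).mul i4)).div_const 2)).sub h1

end Pool.Agent.H37.ST
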