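import Pool.Agent.H37.ST.Qd
import Pool.Agent.H37.ST.Qf
import Pool.Agent.H37.ST.PtA
import Pool.Agent.H37.ST.Leg

set_option autoImplicit false

open Complex MeasureTheory Set

/-! Steklov, part B, I2: the ring lemma. `d = cos (π/n)`, `t = tn n`.

PROOF of `rd_lower`, `r > 0`. `rp n f r y = f_x + (t y) f_y`, `rv n f r y = r t f_y` at `pt n r y` (linearity of `fderiv`).
`ptA` pointwise and `q0 ≥ q1 + q2` (definition of `q2`):
`rd n f r ≥ r t d² (q1 p + q2 p) + (1/(r t)) ∫ (1-y²) ‖rv‖²`, `p = rp n f r`, and `leg` for `u = rf n f r` (derivative `rv`):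
`≥ r t d² (q1 p + q2 p) + (1/(r t)) (2 q1 u + 6 q2 u)`, and `am1`, `am2` with `a = √(r t) d`, `b = √2/√(r t)` resp. `√6/√(r t)`:
`≥ 2 d √2 b1 p u + 2 d √6 b2 p u`.
PROOF of `ring_lemma`. `E0_ring`; by `qd1`, `qd2`, `qc` and the fundamental theorem of calculus
`∫_0^1 (2 d √2 b1 + 2 d √6 b2) = d √2 (q1 (rf 1) - q1 (rf 0)) + d √6 (q2 (rf 1) - q2 (rf 0))`, `rf n f 0` is the constant `f 0`
(`q_const`). Monotonicity of the integral: `intervalIntegral.integral_mono_on_of_le_Ioo`, `rd_cont`. -/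

namespace Pool.Agent.H37.ST

open Pool.Agent.H32.SG

variable {n : ℕ} {f : ℂ → ℂ}

private theorem RL_ang (hn : 3 ≤ n) : 0 < Real.pi / n ∧ Real.pi / n < Real.pi / 2 := by
  have h3 : (3 : ℝ) ≤ n := by exact_mod_cast hn
  have hπ := Real.pi_pos
  constructor
  · positivity
  · apply div_lt_div_of_pos_left hπ (by norm_num) (by linarith)

private theorem RL_tn (hn : 3 ≤ n) : 0 < tn n := by
  unfold tn
  exact Real.tan_pos_of_pos_of_lt_pi_div_two (RL_ang hn).1 (RL_ang hn).2

private theorem RL_rp (n : ℕ) (f : ℂ → ℂ) (r y : ℝ) :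
    rp n f r y = fderiv ℝ f (pt n r y) 1 + ((tn n * y : ℝ) : ℂ) * fderiv ℝ f (pt n r y) I := by
  unfold rp
  have h1 : pt n 1 y = (1 : ℂ) + (tn n * y) • I := by
    unfold pt
    rw [Complex.real_smul]
    push_cast
    ring
  rw [h1, map_add, map_smul, Complex.real_smul]

private theorem RL_rv (n : ℕ) (f : ℂ → ℂ) (r y : ℝ) :
    ‖rv n f r y‖ ^ 2 = (r * tn n) ^ 2 * ‖fderiv ℝ f (pt n r y) I‖ ^ 2 := by
  unfold rv
  have h1 : ((r * tn n : ℝ) : ℂ) * I = (r * tn n) • I := by
    rw [Complex.real_smul]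
  rw [h1, map_smul, norm_smul, mul_pow, Real.norm_eq_abs, sq_abs]

theorem rd_lower (hn : 3 ≤ n) (hf : ContDiff ℝ 1 f) {r : ℝ} (hr : 0 < r) :
    2 * (Real.cos (Real.pi / n) * √2) * b1 (rp n f r) (rf n f r) +
      2 * (Real.cos (Real.pi / n) * √6) * b2 (rp n f r) (rf n f r) ≤ rd n f r := by
  set d := Real.cos (Real.pi / n) with hd
  have ht := RL_tn hn
  set t := tn n with htt
  have hrt : 0 < r * t := mul_pos hr ht
  have hs : 0 < √(r * t) := Real.sqrt_pos.2 hrt
  have hss : √(r * t) * √(r * t) = r * t := Real.mul_self_sqrt hrt.le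
  have hsec : Continuous fun y : ℝ => ((r, y) : ℝ × ℝ) := by fun_prop
  have hp : Continuous (rp n f r) := (rp_cont (n := n) hf).comp hsec
  have hu : Continuous (rf n f r) := (rf_cont (n := n) hf).comp hsec
  have hv : Continuous (rv n f r) := (rv_cont (n := n) hf).comp hsec
  have hleg := leg (v := rf n f r) (v' := rv n f r) (fun x => rf_deriv_y hf r x) hv
  have h1 := am1 hp hu (√(r * t) * d) (√2 / √(r * t))
  have h2 := am2 hp hu (√(r * t) * d) (√6 / √(r * t))
  have e1 : √(r * t) * d * (√2 / √(r * t)) = d * √2 := by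
    field_simp
  have e2 : √(r * t) * d * (√6 / √(r * t)) = d * √6 := by
    field_simp
  have e3 : (√(r * t) * d) ^ 2 = r * t * d ^ 2 := by
    rw [mul_pow, sq, hss]
  have e4 : (√2 / √(r * t)) ^ 2 = 2 / (r * t) := by
    rw [div_pow, Real.sq_sqrt (by norm_num), Real.sq_sqrt hrt.le]
  have e5 : (√6 / √(r * t)) ^ 2 = 6 / (r * t) := by
    rw [div_pow, Real.sq_sqrt (by norm_num), Real.sq_sqrt hrt.le]
  rw [e1, e3, e4] at h1
  rw [e2, e3, e5] at h2
  have hfd : Continuous fun z => fderiv ℝ f z := hf.continuous_fderiv (by norm_num)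
  have hpt : Continuous fun y : ℝ => pt n r y := (pt_cont n).comp hsec
  have hfx : Continuous fun y : ℝ => fderiv ℝ f (pt n r y) 1 :=
    (hfd.comp hpt).clm_apply continuous_const
  have hfy : Continuous fun y : ℝ => fderiv ℝ f (pt n r y) I :=
    (hfd.comp hpt).clm_apply continuous_const
  have h3 : r * t * d ^ 2 * q0 (rp n f r) +
      1 / (r * t) * ∫ x in (-1 : ℝ)..1, (1 - x ^ 2) * ‖rv n f r x‖ ^ 2 ≤ rd n f r := by
    unfold q0 rd
    rw [← intervalIntegral.integral_const_mul, ← intervalIntegral.integral_const_mul,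
      ← intervalIntegral.integral_add]
    · refine intervalIntegral.integral_mono_on (by norm_num) ?_ ?_ fun y _ => ?_
      · apply Continuous.intervalIntegrable
        exact (continuous_const.mul (hp.norm.pow 2)).add
          (continuous_const.mul ((by fun_prop : Continuous fun x : ℝ => 1 - x ^ 2).mul
            (hv.norm.pow 2)))
      · apply Continuous.intervalIntegrable
        exact continuous_const.mul (continuous_const.mul ((hfx.norm.pow 2).add (hfy.norm.pow 2)))
      · have h4 := ptA hn (fderiv ℝ f (pt n r y) 1) (fderiv ℝ f (pt n r y) I) y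
        rw [← RL_rp] at h4
        have h5 := RL_rv n f r y
        rw [h5]
        have e6 : 1 / (r * t) * ((1 - y ^ 2) * ((r * t) ^ 2 * ‖fderiv ℝ f (pt n r y) I‖ ^ 2)) =
            (r * t) * ((1 - y ^ 2) * ‖fderiv ℝ f (pt n r y) I‖ ^ 2) := by
          field_simp
        rw [e6]
        have h6 := mul_le_mul_of_nonneg_left h4 hrt.le
        linarith [h6]
    · apply Continuous.intervalIntegrable
      exact continuous_const.mul (hp.norm.pow 2)
    · apply Continuous.intervalIntegrable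
      exact continuous_const.mul ((by fun_prop : Continuous fun x : ℝ => 1 - x ^ 2).mul
            (hv.norm.pow 2))
  have h7 : q1 (rp n f r) + q2 (rp n f r) ≤ q0 (rp n f r) := by
    unfold q2
    have : 0 ≤ ‖∫ y in (-1 : ℝ)..1, rp n f r y‖ ^ 2 / 2 := by positivity
    linarith
  have h8 := mul_le_mul_of_nonneg_left h7 (by positivity : 0 ≤ r * t * d ^ 2)
  have h9 := mul_le_mul_of_nonneg_left hleg (by positivity : 0 ≤ 1 / (r * t))
  have e7 : 1 / (r * t) * (2 * q1 (rf n f r) + 6 * q2 (rf n f r)) =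
      2 / (r * t) * q1 (rf n f r) + 6 / (r * t) * q2 (rf n f r) := by ring
  rw [e7] at h9
  linarith [h1, h2, h3, h8, h9]

theorem ring_lemma (hn : 3 ≤ n) (hf : ContDiff ℝ 1 f) :
    Real.cos (Real.pi / n) * √2 * q1 (rf n f 1) + Real.cos (Real.pi / n) * √6 * q2 (rf n f 1) ≤
      E0 n f := by
  rw [E0_ring hf]
  obtain ⟨-, hc1, hc2⟩ := qc (n := n) hf
  set d := Real.cos (Real.pi / n) with hd
  have hder : ∀ r : ℝ, HasDerivAt
      (fun r => d * √2 * q1 (rf n f r) + d * √6 * q2 (rf n f r))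
      (2 * (d * √2) * b1 (rp n f r) (rf n f r) + 2 * (d * √6) * b2 (rp n f r) (rf n f r)) r := by
    intro r
    have h := ((qd1 (n := n) hf r).const_mul (d * √2)).add ((qd2 (n := n) hf r).const_mul (d * √6))
    have e0 : 2 * (d * √2) * b1 (rp n f r) (rf n f r) + 2 * (d * √6) * b2 (rp n f r) (rf n f r) =
        d * √2 * (2 * b1 (rp n f r) (rf n f r)) + d * √6 * (2 * b2 (rp n f r) (rf n f r)) := by
      ring
    rw [e0]
    exact h
  have hcont : Continuous fun r =>
      2 * (d * √2) * b1 (rp n f r) (rf n f r) + 2 * (d * √6) * b2 (rp n f r) (rf n f r) :=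
    (continuous_const.mul hc1).add (continuous_const.mul hc2)
  have hftc := intervalIntegral.integral_eq_sub_of_hasDerivAt (a := (0 : ℝ)) (b := 1)
    (fun r _ => hder r) (hcont.intervalIntegrable _ _)
  have h0 : rf n f 0 = fun _ => f 0 := by
    funext y
    unfold rf pt
    simp
  rw [h0, (q_const (f 0)).2.1, (q_const (f 0)).2.2] at hftc
  have e : d * √2 * q1 (rf n f 1) + d * √6 * q2 (rf n f 1) =
      ∫ r in (0 : ℝ)..1, (2 * (d * √2) * b1 (rp n f r) (rf n f r) +
        2 * (d * √6) * b2 (rp n f r) (rf n f r)) := by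
    rw [hftc]
    ring
  rw [e]
  exact intervalIntegral.integral_mono_on_of_le_Ioo (by norm_num) (hcont.intervalIntegrable _ _)
    ((rd_cont hf).intervalIntegrable _ _) fun r hr => rd_lower hn hf hr.1

end Pool.Agent.H37.ST
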