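import Pool.Agent.H37.ST.D

set_option autoImplicit false

/-! Steklov, part B: ring coordinates.

PROOFS. `JJ_ring`: for fixed `X` the substitution `Y = X y` (`intervalIntegral.mul_integral_comp_mul_left`).
`E0_ring`: `E0 n f = t JJ (|f_x|² + |f_y|²)` at `X + i t Y`; with `Y = X y` this point is `pt n X y`.
`rd_cont`: continuity of an integral with a continuous parameter
(`intervalIntegral.continuous_parametric_intervalIntegral_of_continuous'`); `fderiv ℝ f` is continuous.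
`rf_deriv_r`, `rf_deriv_y`: chain rule for the affine maps `r ↦ pt n r y`, `y ↦ pt n r y`. -/

open Complex MeasureTheory Set Finset

namespace Pool.Agent.H37.ST

open Pool.Agent.H32.Stek hiding om perim area
open Pool.Agent.H32.Q4 hiding om
open Pool.Agent.H32.SG

theorem JJ_ring (F : ℝ → ℝ → ℝ) :
    JJ F = ∫ r in (0 : ℝ)..1, ∫ y in (-1 : ℝ)..1, r * F r (r * y) := by
  unfold JJ
  refine intervalIntegral.integral_congr fun X _ => ?_
  have h := intervalIntegral.mul_integral_comp_mul_left (a := (-1 : ℝ)) (b := 1)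
    (f := fun Y => F X Y) X
  rw [intervalIntegral.integral_const_mul, h, mul_neg, mul_one]

theorem pt_cont (n : ℕ) : Continuous (fun z : ℝ × ℝ => pt n z.1 z.2) := by
  unfold pt
  fun_prop

private lemma rg_pt (n : ℕ) (r y : ℝ) : pt n r y = r + (tn n * (r * y) : ℝ) * I := by
  unfold pt
  push_cast
  ring

private lemma rg_fd {f : ℂ → ℂ} (hf : ContDiff ℝ 1 f) (n : ℕ) :
    Continuous fun z : ℝ × ℝ => fderiv ℝ f (pt n z.1 z.2) :=
  (hf.continuous_fderiv (by simp)).comp (pt_cont n)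

theorem rf_cont {n : ℕ} {f : ℂ → ℂ} (hf : ContDiff ℝ 1 f) :
    Continuous (fun z : ℝ × ℝ => rf n f z.1 z.2) :=
  hf.continuous.comp (pt_cont n)

theorem rp_cont {n : ℕ} {f : ℂ → ℂ} (hf : ContDiff ℝ 1 f) :
    Continuous (fun z : ℝ × ℝ => rp n f z.1 z.2) := by
  have h1 : Continuous fun z : ℝ × ℝ => pt n 1 z.2 :=
    (pt_cont n).comp (continuous_const.prodMk continuous_snd)
  exact (rg_fd hf n).clm_apply h1

theorem rv_cont {n : ℕ} {f : ℂ → ℂ} (hf : ContDiff ℝ 1 f) :
    Continuous (fun z : ℝ × ℝ => rv n f z.1 z.2) := by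
  have h1 : Continuous fun z : ℝ × ℝ => (((z.1 * tn n : ℝ) : ℂ) * I) := by fun_prop
  exact (rg_fd hf n).clm_apply h1

private lemma rg_g {f : ℂ → ℂ} (hf : ContDiff ℝ 1 f) (n : ℕ) (w : ℂ) :
    Continuous fun z : ℝ × ℝ => z.1 * ‖fderiv ℝ f (pt n z.1 z.2) w‖ ^ 2 :=
  continuous_fst.mul (((rg_fd hf n).clm_apply continuous_const).norm.pow 2)

private lemma rg_int {g : ℝ × ℝ → ℝ} (hg : Continuous g) :
    Continuous fun r : ℝ => ∫ y in (-1 : ℝ)..1, g (r, y) :=
  intervalIntegral.continuous_parametric_intervalIntegral_of_continuous'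
    (f := fun r y => g (r, y)) (by exact hg) (-1) 1

private lemma rg_rd {f : ℂ → ℂ} (hf : ContDiff ℝ 1 f) (n : ℕ) (r : ℝ) :
    rd n f r = tn n * (∫ y in (-1 : ℝ)..1, r * ‖fderiv ℝ f (pt n r y) 1‖ ^ 2) +
      tn n * ∫ y in (-1 : ℝ)..1, r * ‖fderiv ℝ f (pt n r y) I‖ ^ 2 := by
  have c1 : ∀ w : ℂ, Continuous fun y : ℝ => r * ‖fderiv ℝ f (pt n r y) w‖ ^ 2 := fun w =>
    (rg_g hf n w).comp (continuous_const.prodMk continuous_id)
  rw [← mul_add, ← intervalIntegral.integral_add ((c1 1).intervalIntegrable _ _)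
    ((c1 I).intervalIntegrable _ _), ← intervalIntegral.integral_const_mul]
  unfold rd
  refine intervalIntegral.integral_congr fun y _ => ?_
  ring

theorem rd_cont {n : ℕ} {f : ℂ → ℂ} (hf : ContDiff ℝ 1 f) : Continuous (rd n f) := by
  have h : rd n f = fun r => tn n * (∫ y in (-1 : ℝ)..1, r * ‖fderiv ℝ f (pt n r y) 1‖ ^ 2) +
      tn n * ∫ y in (-1 : ℝ)..1, r * ‖fderiv ℝ f (pt n r y) I‖ ^ 2 :=
    funext fun r => rg_rd hf n r
  rw [h]
  exact (continuous_const.mul (rg_int (rg_g hf n 1))).add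
    (continuous_const.mul (rg_int (rg_g hf n I)))

theorem E0_ring {n : ℕ} {f : ℂ → ℂ} (hf : ContDiff ℝ 1 f) :
    E0 n f = ∫ r in (0 : ℝ)..1, rd n f r := by
  have i1 : ∀ w : ℂ, Continuous fun r : ℝ => tn n * (∫ y in (-1 : ℝ)..1,
      r * ‖fderiv ℝ f (pt n r y) w‖ ^ 2) := fun w =>
    continuous_const.mul (rg_int (rg_g hf n w))
  simp only [rg_rd hf n]
  rw [intervalIntegral.integral_add ((i1 1).intervalIntegrable _ _)
    ((i1 I).intervalIntegrable _ _), intervalIntegral.integral_const_mul,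
    intervalIntegral.integral_const_mul]
  unfold E0 Hn Ht
  rw [JJ_ring, JJ_ring]
  simp only [rg_pt]

theorem rf_deriv_r {n : ℕ} {f : ℂ → ℂ} (hf : ContDiff ℝ 1 f) (r y : ℝ) :
    HasDerivAt (fun r => rf n f r y) (rp n f r y) r := by
  have h1 : HasDerivAt (fun r : ℝ => pt n r y) (pt n 1 y) r := by
    have h2 := (hasDerivAt_id r).ofReal_comp.mul_const (1 + ((tn n * y : ℝ) : ℂ) * I)
    simpa [pt] using h2
  exact ((hf.differentiable (by simp)) (pt n r y)).hasFDerivAt.comp_hasDerivAt r h1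

theorem rf_deriv_y {n : ℕ} {f : ℂ → ℂ} (hf : ContDiff ℝ 1 f) (r y : ℝ) :
    HasDerivAt (fun y => rf n f r y) (rv n f r y) y := by
  have h1 : HasDerivAt (fun y : ℝ => pt n r y) (((r * tn n : ℝ) : ℂ) * I) y := by
    have h2 := ((((hasDerivAt_id y).const_mul (tn n)).ofReal_comp.mul_const I).const_add
      (1 : ℂ)).const_mul (r : ℂ)
    have e : ((r * tn n : ℝ) : ℂ) * I = (r : ℂ) * (((tn n * 1 : ℝ) : ℂ) * I) := by
      push_cast
      ring
    rw [e]
    exact h2
  exact ((hf.differentiable (by simp)) (pt n r y)).hasFDerivAt.comp_hasDerivAt y h1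

end Pool.Agent.H37.ST
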