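import Pool.Agent.H37.ST.Cvs
import Pool.Agent.H37.ST.RL
import Pool.Agent.H45.SN.ND

set_option autoImplicit false

/-! Steklov, part B, I5: the function `z`, and functions with mean zero on the side. `t = tn n`, `d = cos (π/n)`.

PROOFS. `z_vals`: `F z = z` is of class one, `fderiv` is the identity: `E0 = t JJ (1) + t JJ (1) = 2 t` (`JJ 1 = 1`),
`B1 = ∫ (1 + t² Y²) dY = 2 yo`. `sig_le_yo`: `cvs` for `F z = z`: `σ t 2 yo ≤ 2 t`.
`mean0`: `ring_lemma`: the values of `rf n f 1 y` are `f (1 + i t y)`, `q0 = B1`, `∫ rf = 0` so `q1 + q2 = B1`; `q1, q2 ≥ 0`, `√2 ≤ √6`. -/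

open Complex MeasureTheory Set Finset

namespace Pool.Agent.H37.ST

open Pool.Agent.H32.Stek hiding om perim area
open Pool.Agent.H32.Q4 hiding om
open Pool.Agent.H32.SG

variable {n : ℕ}

theorem z_vals (n : ℕ) : Cls n 1 (fun z => z) ∧ E0 n (fun z => z) = 2 * tn n ∧
    B1 n (fun z => z) = 2 * Pool.Agent.H45.SN.yo (tn n) := by
  have hf : fderiv ℝ (fun z : ℂ => z) = fun _ => ContinuousLinearMap.id ℝ ℂ := by
    funext z
    exact fderiv_fun_id
  have hj : ∀ c : ℝ, JJ (fun _ _ => c) = c := by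
    intro c
    unfold JJ
    have h : ∀ X : ℝ, ∫ _Y in (-X)..X, c = 2 * c * X := by
      intro X
      rw [intervalIntegral.integral_const, smul_eq_mul]; ring
    simp only [h]
    rw [intervalIntegral.integral_const_mul, integral_id]
    ring
  refine ⟨⟨contDiff_id, fun z => by rw [pow_one]⟩, ?_, ?_⟩
  · unfold E0 Hn Ht
    simp only [hf, ContinuousLinearMap.id_apply, norm_one, Complex.norm_I, one_pow, hj]
    ring
  · unfold B1 Pool.Agent.H45.SN.yo
    have h1 : ∀ Y : ℝ, ‖(1 : ℂ) + (tn n * Y : ℝ) * I‖ ^ 2 = 1 + tn n ^ 2 * Y ^ 2 := by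
      intro Y
      rw [← Complex.normSq_eq_norm_sq, Complex.normSq_apply]
      simp only [Complex.add_re, Complex.one_re, Complex.mul_re, Complex.ofReal_re, Complex.I_re,
        Complex.ofReal_im, Complex.I_im, Complex.add_im, Complex.one_im, Complex.mul_im]
      ring
    simp only [h1]
    rw [intervalIntegral.integral_add (by
      apply Continuous.intervalIntegrable; fun_prop) (by
      apply Continuous.intervalIntegrable; fun_prop), intervalIntegral.integral_const_mul,
      integral_pow]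
    simp
    ring

theorem sig_le_yo (hn : 3 ≤ n) : sig n (rg n) (Up n) * Pool.Agent.H45.SN.yo (tn n) ≤ 1 := by
  have h := cvs hn (z_vals n).1
  rw [(z_vals n).2.1, (z_vals n).2.2] at h
  have ht := tn_pos hn
  have h2 : (2 * tn n) * (sig n (rg n) (Up n) * Pool.Agent.H45.SN.yo (tn n)) ≤ (2 * tn n) * 1 := by
    calc (2 * tn n) * (sig n (rg n) (Up n) * Pool.Agent.H45.SN.yo (tn n))
        = sig n (rg n) (Up n) * (tn n * (2 * Pool.Agent.H45.SN.yo (tn n))) := by ring
      _ ≤ 2 * tn n := h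
      _ = (2 * tn n) * 1 := by ring
  exact le_of_mul_le_mul_left h2 (by linarith)

theorem mean0 (hn : 3 ≤ n) {f : ℂ → ℂ} (hf : ContDiff ℝ 1 f)
    (h0 : ∫ Y in (-1 : ℝ)..1, f (1 + (tn n * Y : ℝ) * I) = 0) :
    Real.cos (Real.pi / n) * √2 * B1 n f ≤ E0 n f := by
  have hr := ring_lemma hn hf
  have hpt : ∀ y : ℝ, rf n f 1 y = f (1 + (tn n * y : ℝ) * I) := by
    intro y
    unfold rf pt
    rw [Complex.ofReal_one, one_mul]
  have hcont : Continuous (rf n f 1) := by
    have e : rf n f 1 = fun y : ℝ => f (1 + (tn n * y : ℝ) * I) := funext hpt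
    rw [e]
    have := hf.continuous
    fun_prop
  have hq0 : q0 (rf n f 1) = B1 n f := by
    unfold q0 B1
    simp only [hpt]
  have hi : ∫ y in (-1 : ℝ)..1, rf n f 1 y = 0 := by
    simp only [hpt]
    exact h0
  have hq2 : q2 (rf n f 1) = B1 n f - q1 (rf n f 1) := by
    unfold q2
    rw [hi, hq0, norm_zero]
    ring
  have h2 := q2_nonneg hcont
  have h6 : √2 ≤ √6 := Real.sqrt_le_sqrt (by norm_num)
  have hc : 0 ≤ Real.cos (Real.pi / n) := by
    apply Real.cos_nonneg_of_mem_Icc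
    have hpi := Real.pi_pos
    have hn0 : (0 : ℝ) < n := by exact_mod_cast (by omega : 0 < n)
    have hn3 : (3 : ℝ) ≤ n := by exact_mod_cast hn
    refine ⟨by have : 0 < Real.pi / n := by positivity
               linarith, ?_⟩
    apply div_le_div_of_nonneg_left hpi.le (by norm_num) (by linarith)
  have h7 : Real.cos (Real.pi / n) * √2 * q2 (rf n f 1) ≤
      Real.cos (Real.pi / n) * √6 * q2 (rf n f 1) :=
    mul_le_mul_of_nonneg_right (mul_le_mul_of_nonneg_left h6 hc) h2
  calc Real.cos (Real.pi / n) * √2 * B1 n f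
      = Real.cos (Real.pi / n) * √2 * q1 (rf n f 1) + Real.cos (Real.pi / n) * √2 * q2 (rf n f 1) := by
        rw [hq2]; ring
    _ ≤ Real.cos (Real.pi / n) * √2 * q1 (rf n f 1) + Real.cos (Real.pi / n) * √6 * q2 (rf n f 1) := by
        linarith
    _ ≤ E0 n f := hr

end Pool.Agent.H37.ST
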