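import Pool.Agent.H37.ST.Fou
import Pool.Agent.H37.ST.Gap
import Pool.Agent.H37.ST.SelA

set_option autoImplicit false

/-! Steklov, part B, I5: lower bounds from the classes. `t = tn n`, `d = cos (π/n)`, `h = sin (π/n)`, `t = h/d`.

PROOFS. `conj_cls`: `conj ∘ f` is of class `1` if `f` is of class `n - 1` (`conj (om^(n-1)) = om`, from `om^n = 1`,
`‖om‖ = 1`), and `fderiv (conj ∘ f) z v = conj (fderiv f z v)`, so `E0` and `B1` are the same.
`lower`: `fm_B`, `fm_E` and `c (t B1) ≤ E0` for every `fm n m u`, `m < n`: `m = 0` by `mean0` and `fm_mean`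
(`c t ≤ d √2`); `m = 1` by hypothesis; `m = n - 1` by `conj_cls` and the hypothesis; `2 ≤ m ≤ n - 2` by `gap_two`
(`c t ≤ 2 (1-h) (π/n)/d`). -/

open Complex MeasureTheory Set Finset

namespace Pool.Agent.H37.ST

open Pool.Agent.H32.Stek hiding om perim area
open Pool.Agent.H32.Q4 hiding om
open Pool.Agent.H32.SG

variable {n : ℕ}

private theorem selB_conj_om (hn : 3 ≤ n) : (starRingEnd ℂ) (om n ^ (n - 1)) = om n := by
  have h1 : om n * (starRingEnd ℂ) (om n) = 1 := by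
    rw [Complex.mul_conj, Complex.normSq_eq_norm_sq, norm_om]
    norm_num
  have h2 : om n ^ (n - 1) * om n = 1 := by
    rw [← pow_succ, Nat.sub_add_cancel (by omega)]
    exact om_pow (by omega)
  have h3 : (starRingEnd ℂ) (om n ^ (n - 1)) * (starRingEnd ℂ) (om n) = 1 := by
    rw [← map_mul, h2, map_one]
  calc (starRingEnd ℂ) (om n ^ (n - 1))
      = (starRingEnd ℂ) (om n ^ (n - 1)) * (om n * (starRingEnd ℂ) (om n)) := by rw [h1, mul_one]
    _ = om n * ((starRingEnd ℂ) (om n ^ (n - 1)) * (starRingEnd ℂ) (om n)) := by ring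
    _ = om n := by rw [h3, mul_one]

private theorem selB_fd {f : ℂ → ℂ} (hf : ContDiff ℝ 1 f) (z v : ℂ) :
    fderiv ℝ (fun z => (starRingEnd ℂ) (f z)) z v = (starRingEnd ℂ) (fderiv ℝ f z v) := by
  have h2 : HasFDerivAt (fun z => (starRingEnd ℂ) (f z))
      ((Complex.conjCLE : ℂ →L[ℝ] ℂ).comp (fderiv ℝ f z)) z :=
    (Complex.conjCLE : ℂ →L[ℝ] ℂ).hasFDerivAt.comp z
      (hf.differentiable (by norm_num) z).hasFDerivAt
  rw [h2.fderiv]
  simp

theorem conj_cls (hn : 3 ≤ n) {f : ℂ → ℂ} (hf : Cls n (n - 1) f) :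
    Cls n 1 (fun z => (starRingEnd ℂ) (f z)) ∧ E0 n (fun z => (starRingEnd ℂ) (f z)) = E0 n f ∧
      B1 n (fun z => (starRingEnd ℂ) (f z)) = B1 n f := by
  refine ⟨⟨?_, ?_⟩, ?_, ?_⟩
  · exact (Complex.conjCLE : ℂ →L[ℝ] ℂ).contDiff.comp hf.c1
  · intro z
    show (starRingEnd ℂ) (f (om n * z)) = om n ^ 1 * (starRingEnd ℂ) (f z)
    rw [hf.rot, map_mul, selB_conj_om hn, pow_one]
  · unfold E0 Hn Ht
    simp only [selB_fd hf.c1, RCLike.norm_conj]
  · unfold B1
    simp only [RCLike.norm_conj]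

private theorem selB_B1_nonneg (n : ℕ) (f : ℂ → ℂ) : 0 ≤ B1 n f :=
  intervalIntegral.integral_nonneg (by norm_num) fun _ _ => by positivity

theorem lower (hn : 5 ≤ n) {c : ℝ} (hc1 : c ≤ Real.cos (Real.pi / n) * √2 / tn n)
    (hc2 : c ≤ 2 * (1 - Real.sin (Real.pi / n)) * (Real.pi / n) / Real.sin (Real.pi / n))
    (h : ∀ f, Cls n 1 f → c * (tn n * B1 n f) ≤ E0 n f) {u : ℂ → ℝ} (hu : ContDiff ℝ 1 u)
    (h0 : bd n (rg n) u = 0) : c * bd n (rg n) (fun z => u z ^ 2) ≤ en (Up n) u := by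
  have hn3 : 3 ≤ n := by omega
  have hnR : (5 : ℝ) ≤ n := by exact_mod_cast hn
  have ht := tn_pos hn3
  have hpi := Real.pi_pos
  have hx0 : 0 < Real.pi / n := by positivity
  have hx1 : Real.pi / n < Real.pi / 2 := div_lt_div_of_pos_left hpi (by norm_num) (by linarith)
  have hs : 0 < Real.sin (Real.pi / n) := Real.sin_pos_of_pos_of_lt_pi hx0 (by linarith)
  have hd : 0 < Real.cos (Real.pi / n) := Real.cos_pos_of_mem_Ioo ⟨by linarith, hx1⟩
  have htn : tn n = Real.sin (Real.pi / n) / Real.cos (Real.pi / n) := by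
    unfold tn
    exact Real.tan_eq_sin_div_cos _
  have k1 : c * tn n ≤ Real.cos (Real.pi / n) * √2 := (le_div_iff₀ ht).mp hc1
  have k2 : c * tn n ≤
      2 * (Real.pi / n) * ((1 - Real.sin (Real.pi / n)) / Real.cos (Real.pi / n)) := by
    have k3 := mul_le_mul_of_nonneg_right hc2 ht.le
    refine k3.trans (le_of_eq ?_)
    rw [htn]
    field_simp
  have key : ∀ m ∈ Finset.range n, c * (tn n * B1 n (fm n m u)) ≤ E0 n (fm n m u) := by
    intro m hm
    have hmn : m < n := Finset.mem_range.mp hm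
    have hcl := fm_cls hn3 m hu
    have hB := selB_B1_nonneg n (fm n m u)
    by_cases m0 : m = 0
    · subst m0
      have h1 := mean0 hn3 hcl.c1 (fm_mean hn3 hu h0)
      calc c * (tn n * B1 n (fm n 0 u)) = c * tn n * B1 n (fm n 0 u) := by ring
        _ ≤ Real.cos (Real.pi / n) * √2 * B1 n (fm n 0 u) := by gcongr
        _ ≤ _ := h1
    by_cases m1 : m = 1
    · subst m1
      exact h _ hcl
    by_cases m2 : m = n - 1
    · subst m2
      obtain ⟨g1, g2, g3⟩ := conj_cls hn3 hcl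
      have h1 := h _ g1
      rw [g2, g3] at h1
      exact h1
    have h1 := gap_two hn3 (m := m) (by omega) (by omega) hcl
    calc c * (tn n * B1 n (fm n m u)) = c * tn n * B1 n (fm n m u) := by ring
      _ ≤ 2 * (Real.pi / n) * ((1 - Real.sin (Real.pi / n)) / Real.cos (Real.pi / n)) *
          B1 n (fm n m u) := by gcongr
      _ ≤ _ := h1
  rw [← fm_B hn3 hu, ← fm_E hn3 hu]
  have hsum := Finset.sum_le_sum key
  rw [← Finset.mul_sum] at hsum
  have hn0 : (0 : ℝ) ≤ n := by positivity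
  calc c * (n * ∑ m ∈ Finset.range n, tn n * B1 n (fm n m u))
      = n * (c * ∑ m ∈ Finset.range n, tn n * B1 n (fm n m u)) := by ring
    _ ≤ _ := mul_le_mul_of_nonneg_left hsum hn0

end Pool.Agent.H37.ST
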