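import Pool.Agent.H37.ST.SelB
import Pool.Agent.H45.SN.K5

set_option autoImplicit false

/-! Steklov, part B, I5: there are class one functions whose quotient is almost minimal. `t = tn n`, `d = cos (π/n)`,
`h = sin (π/n)`, `c1 = d √2/t`, `c2 = 2 (1-h) (π/n)/h`, `σ = sig n (rg n) (Up n) ≤ 1/yo < c1, c2` (`sig_le_yo`, `K_leg`, `K_gap`
of SN/K5; `tn` of SN is the same function).

PROOFS. `le_sig`: `le_csInf`; the set is not empty: `u = re`, `bd re = 0` (`bd_rg`, `sum_om`: real part of `(∑ om^k) ∫ z`), `bd re² > 0`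
(`bd_rg`, the term `k = 0` is `t ∫ 1`). `sel`: if not, `lower` holds for `c = min (σ+ε) (min c1 c2) > σ` (`B1 ≥ 0`), and `le_sig`
gives `c ≤ σ`. `sig_pos`: `lower` holds for `c = min ((π/n) ((1-h)/d)/t) (min c1 c2) > 0` by `gap_one` (`m = 1`). -/

open Complex MeasureTheory Set Finset

namespace Pool.Agent.H37.ST

open Pool.Agent.H32.Stek hiding om perim area
open Pool.Agent.H32.Q4 hiding om
open Pool.Agent.H32.SG

variable {n : ℕ}

private lemma sc_re (P : ℂ) (t Y : ℝ) : (P * (1 + (t * Y : ℝ) * I)).re = P.re - P.im * t * Y := by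
  simp
  ring

private lemma sc_int (P : ℂ) (t : ℝ) :
    ∫ Y in (-1 : ℝ)..1, (P * (1 + (t * Y : ℝ) * I)).re = 2 * P.re := by
  have h : (fun Y : ℝ => (P * (1 + (t * Y : ℝ) * I)).re) = fun Y => P.re - P.im * t * Y :=
    funext fun Y => sc_re P t Y
  rw [h, intervalIntegral.integral_sub (by simp)
    ((by fun_prop : Continuous fun Y : ℝ => P.im * t * Y).intervalIntegrable _ _),
    intervalIntegral.integral_const, intervalIntegral.integral_const_mul, integral_id]
  simp
  norm_num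

private lemma sc_bd0 (hn : 3 ≤ n) : bd n (rg n) (fun z => z.re) = 0 := by
  rw [bd_rg hn]
  have h : ∀ k ∈ Finset.range n, tn n * ∫ Y in (-1 : ℝ)..1, (om n ^ k * (1 + (tn n * Y : ℝ) * I)).re
      = 2 * tn n * (om n ^ k).re := by
    intro k _
    rw [sc_int]
    ring
  rw [Finset.sum_congr rfl h, ← Finset.mul_sum]
  have h1 : ∑ k ∈ Finset.range n, (om n ^ k).re = (∑ k ∈ Finset.range n, om n ^ k).re := by
    rw [Complex.re_sum]
  rw [h1, sum_om hn]
  simp

private lemma sc_bd1 (hn : 3 ≤ n) : 0 < bd n (rg n) (fun z => z.re ^ 2) := by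
  have ht := tn_pos hn
  rw [bd_rg hn]
  have hnn : ∀ k ∈ Finset.range n, 0 ≤ tn n * ∫ Y in (-1 : ℝ)..1,
      (om n ^ k * (1 + (tn n * Y : ℝ) * I)).re ^ 2 := by
    intro k _
    refine mul_nonneg ht.le (intervalIntegral.integral_nonneg (by norm_num) fun Y _ => sq_nonneg _)
  have h0 : 0 < tn n * ∫ Y in (-1 : ℝ)..1, (om n ^ 0 * (1 + (tn n * Y : ℝ) * I)).re ^ 2 := by
    have h1 : (fun Y : ℝ => (om n ^ 0 * (1 + (tn n * Y : ℝ) * I)).re ^ 2) = fun _ => (1 : ℝ) := by
      funext Y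
      rw [sc_re]
      simp
    rw [h1, intervalIntegral.integral_const]
    norm_num
    exact ht
  exact Finset.sum_pos' hnn ⟨0, Finset.mem_range.2 (by omega), h0⟩

theorem le_sig (hn : 3 ≤ n) {c : ℝ} (h : ∀ u : ℂ → ℝ, ContDiff ℝ 1 u → bd n (rg n) u = 0 →
    c * bd n (rg n) (fun z => u z ^ 2) ≤ en (Up n) u) : c ≤ sig n (rg n) (Up n) := by
  unfold sig
  refine le_csInf ?_ ?_
  · exact ⟨_, fun z => z.re, Complex.reCLM.contDiff, sc_bd0 hn, sc_bd1 hn, rfl⟩
  · rintro s ⟨u, hu, h0, h1, rfl⟩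
    rw [le_div_iff₀ h1]
    exact h u hu h0

private lemma sc_yo (t : ℝ) : 0 < Pool.Agent.H45.SN.yo t := by
  unfold Pool.Agent.H45.SN.yo
  positivity

private lemma sc_B1 (n : ℕ) (f : ℂ → ℂ) : 0 ≤ B1 n f :=
  intervalIntegral.integral_nonneg (by norm_num) fun Y _ => sq_nonneg _

private lemma sc_c1 (hn : 5 ≤ n) : 1 / Pool.Agent.H45.SN.yo (tn n) <
    Real.cos (Real.pi / n) * √2 / tn n := Pool.Agent.H45.SN.K_leg hn

private lemma sc_c2 (hn : 5 ≤ n) : 1 / Pool.Agent.H45.SN.yo (tn n) <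
    2 * (1 - Real.sin (Real.pi / n)) * (Real.pi / n) / Real.sin (Real.pi / n) :=
  Pool.Agent.H45.SN.K_gap hn

theorem sel (hn : 5 ≤ n) {ε : ℝ} (hε : 0 < ε) : ∃ f, Cls n 1 f ∧
    E0 n f < (sig n (rg n) (Up n) + ε) * (tn n * B1 n f) := by
  have hn3 : 3 ≤ n := by omega
  have ht := tn_pos hn3
  by_contra hcon
  push Not at hcon
  set σ := sig n (rg n) (Up n) with hσ
  set c1 := Real.cos (Real.pi / n) * √2 / tn n with hc1
  set c2 := 2 * (1 - Real.sin (Real.pi / n)) * (Real.pi / n) / Real.sin (Real.pi / n) with hc2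
  have hy := sc_yo (tn n)
  have h1 : σ ≤ 1 / Pool.Agent.H45.SN.yo (tn n) := by
    rw [le_div_iff₀ hy]
    exact sig_le_yo hn3
  have h2 := sc_c1 hn
  have h3 := sc_c2 hn
  have hlow : min (σ + ε) (min c1 c2) ≤ σ := by
    refine le_sig hn3 fun u hu h0 => ?_
    refine lower hn ((min_le_right _ _).trans (min_le_left _ _))
      ((min_le_right _ _).trans (min_le_right _ _)) (fun f hf => ?_) hu h0
    refine le_trans ?_ (hcon f hf)
    exact mul_le_mul_of_nonneg_right (min_le_left _ _) (mul_nonneg ht.le (sc_B1 n f))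
  have hlt : σ < min (σ + ε) (min c1 c2) :=
    lt_min (by linarith) (lt_min (h1.trans_lt h2) (h1.trans_lt h3))
  exact absurd hlow (not_le.2 hlt)

theorem sig_pos (hn : 5 ≤ n) : 0 < sig n (rg n) (Up n) := by
  have hn3 : 3 ≤ n := by omega
  have ht := tn_pos hn3
  have hn5 : (5 : ℝ) ≤ n := by exact_mod_cast hn
  have hn0 : (0 : ℝ) < n := by linarith
  have hpi := Real.pi_pos
  have hφ0 : 0 < Real.pi / n := by positivity
  have hφ5 : Real.pi / n < Real.pi / 2 := div_lt_div_of_pos_left hpi (by norm_num) (by linarith)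
  have hcos : 0 < Real.cos (Real.pi / n) := Real.cos_pos_of_mem_Ioo ⟨by linarith, hφ5⟩
  have hsin : Real.sin (Real.pi / n) < 1 := by
    have h1 := Real.sin_sq_add_cos_sq (Real.pi / n)
    nlinarith [Real.sin_le_one (Real.pi / n)]
  set c1 := Real.cos (Real.pi / n) * √2 / tn n with hc1
  set c2 := 2 * (1 - Real.sin (Real.pi / n)) * (Real.pi / n) / Real.sin (Real.pi / n) with hc2
  set c0 := Real.pi / n * ((1 - Real.sin (Real.pi / n)) / Real.cos (Real.pi / n)) / tn n with hc0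
  have hy := sc_yo (tn n)
  have hy1 : 0 < 1 / Pool.Agent.H45.SN.yo (tn n) := by positivity
  have h2 := sc_c1 hn
  have h3 := sc_c2 hn
  have hc0p : 0 < c0 := by
    have : 0 < 1 - Real.sin (Real.pi / n) := by linarith
    positivity
  have hlow : min c0 (min c1 c2) ≤ sig n (rg n) (Up n) := by
    refine le_sig hn3 fun u hu h0 => ?_
    refine lower hn ((min_le_right _ _).trans (min_le_left _ _))
      ((min_le_right _ _).trans (min_le_right _ _)) (fun f hf => ?_) hu h0
    have hg := gap_one hn3 (m := 1) le_rfl (by omega) hf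
    refine le_trans ?_ hg
    refine (mul_le_mul_of_nonneg_right (min_le_left _ _) (mul_nonneg ht.le (sc_B1 n f))).trans
      (le_of_eq ?_)
    rw [hc0]
    field_simp
  exact (lt_min hc0p (lt_min (hy1.trans h2) (hy1.trans h3))).trans_le hlow

end Pool.Agent.H37.ST
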