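import Pool.Agent.H37.ST.Upr

set_option autoImplicit false

/-! Steklov, part B: the boundary of the regular polygon, and uniqueness of the region.

PROOFS. `ζ_k = conj (om n ^ k) z`, `φ = π/n`. Side `j` is `{om^j (1 + i s) : |s| ≤ t}` (`rg_eq`).
`up_frontier` (with `up_closure`, `up_open`: the frontier is `{all Re ζ_k ≤ 1, some Re ζ_j = 1}`). If `Re ζ_j = 1`, `ζ_j = 1 + i s`, then
`Re ζ_(j±1) = cos 2φ ± s sin 2φ ≤ 1` (indices mod `n`) gives `|s| ≤ tan φ = t` (this is `dis_max` for `ζ_j`).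
Conversely, for `|s| ≤ t` the point `ζ = 1 + i s` satisfies `Re (om^m ζ) ≤ Re ζ = 1` for `1 ≤ m < n`: limit of `dis_cone` (apply it
to `1 + i λ s`, `λ → 1`, `λ < 1`), so all `Re ζ_k ≤ 1`.
`reg_up`: `Reg` (connected: convex and `0 ∈ Up n`).
`reg_unique`: let `x ∈ Om`, so `x ∉ bdr = frontier (Up n)`. If `x ∈ Up n` then `Up n ⊆ Om` (`Reg.sub` of SG/Basic, `Up n` is
convex and does not meet its frontier). Otherwise some `Re ζ_j > 1`, the ray `{s x : s ≥ 1}` does not meet `closure (Up n) ⊇ bdr`, so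
it is contained in `Om` by `Reg.sub`: `Om` would be unbounded. Hence `Om ⊆ Up n ⊆ Om` (`Om` is not empty). -/

open Complex MeasureTheory Set Finset

namespace Pool.Agent.H37.ST

open Pool.Agent.H32.Stek hiding om perim area
open Pool.Agent.H32.Q4 hiding om
open Pool.Agent.H32.SG

variable {n : ℕ}

private theorem uni_conj (n k : ℕ) : (starRingEnd ℂ) (om n ^ k) * om n ^ k = 1 := by
  have h := Complex.normSq_eq_conj_mul_self (z := om n ^ k)
  rw [← h, Complex.normSq_eq_norm_sq, norm_pow, norm_om]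
  norm_num

private theorem uni_mod (hn : 0 < n) (j : ℕ) : om n ^ j = om n ^ (j % n) :=
  pow_eq_pow_mod j (om_pow hn)

private theorem uni_rot (hn : 0 < n) (j : ℕ) {k : ℕ} (hk : k < n) : ∃ m < n,
    (starRingEnd ℂ) (om n ^ k) * om n ^ j = om n ^ m := by
  refine ⟨(j + (n - k)) % n, Nat.mod_lt _ hn, ?_⟩
  have h1 : om n ^ k * om n ^ (j + (n - k)) = om n ^ j := by
    have h2 : k + (j + (n - k)) = j + n := by omega
    rw [← pow_add, h2, pow_add, om_pow hn, mul_one]
  rw [← uni_mod hn]
  calc (starRingEnd ℂ) (om n ^ k) * om n ^ j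
      = ((starRingEnd ℂ) (om n ^ k) * om n ^ k) * om n ^ (j + (n - k)) := by rw [← h1]; ring
    _ = _ := by rw [uni_conj, one_mul]

private theorem uni_side (hn : 3 ≤ n) {s : ℝ} (hs : |s| ≤ tn n) {m : ℕ} (hm : m < n) :
    (om n ^ m * (1 + (s : ℂ) * I)).re ≤ 1 := by
  rcases Nat.eq_zero_or_pos m with rfl | hm0
  · simp
  · have htn := tn_pos hn
    have e : ∀ s : ℝ, (om n ^ m * (1 + (s : ℂ) * I)).re = (om n ^ m).re - s * (om n ^ m).im := by
      intro s
      simp only [Complex.mul_re, Complex.add_re, Complex.one_re, Complex.ofReal_re, Complex.I_re,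
        Complex.ofReal_im, Complex.I_im, Complex.add_im, Complex.one_im, Complex.mul_im]
      ring
    have key : ∀ l : ℝ, 0 ≤ l → l < 1 → (om n ^ m).re + l * (-(s * (om n ^ m).im)) < 1 := by
      intro l hl0 hl1
      have hre : (1 + ((l * s : ℝ) : ℂ) * I).re = 1 := by simp
      have him : (1 + ((l * s : ℝ) : ℂ) * I).im = l * s := by simp
      have h1 := dis_cone hn (ζ := 1 + ((l * s : ℝ) : ℂ) * I) (by
        rw [hre, him, mul_one, abs_mul, abs_of_nonneg hl0]
        have h2 : l * |s| ≤ l * tn n := mul_le_mul_of_nonneg_left hs hl0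
        have h3 : l * tn n < 1 * tn n := mul_lt_mul_of_pos_right hl1 htn
        linarith) hm0 hm
      rw [hre, e] at h1
      have h2 : (om n ^ m).re + l * (-(s * (om n ^ m).im))
          = (om n ^ m).re - l * s * (om n ^ m).im := by ring
      rw [h2]
      exact h1
    by_contra hcon
    push Not at hcon
    rw [e] at hcon
    have h0 := key 0 le_rfl one_pos
    rw [zero_mul, add_zero] at h0
    have hb : 1 - (om n ^ m).re < -(s * (om n ^ m).im) := by linarith
    have hb0 : 0 < -(s * (om n ^ m).im) := by linarith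
    have h2 := key ((1 - (om n ^ m).re) / (-(s * (om n ^ m).im)))
      (div_nonneg (by linarith) hb0.le) ((div_lt_one hb0).2 hb)
    rw [div_mul_cancel₀ _ hb0.ne'] at h2
    linarith

theorem up_frontier (hn : 3 ≤ n) : frontier (Up n) = bdr (rg n) := by
  have htn := tn_pos hn
  have hn0 : 0 < n := by omega
  rw [(up_open n).frontier_eq, up_closure]
  ext z
  constructor
  · rintro ⟨h1, h2⟩
    have h1' : ∀ j < n, ((starRingEnd ℂ) (om n ^ j) * z).re ≤ 1 := h1
    have h2' : ∃ j < n, 1 ≤ ((starRingEnd ℂ) (om n ^ j) * z).re := by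
      by_contra hc
      push Not at hc
      exact h2 hc
    obtain ⟨j, hj, hj1⟩ := h2'
    have hall : ∀ j : ℕ, ((starRingEnd ℂ) (om n ^ j) * z).re ≤ 1 := fun j => by
      rw [uni_mod hn0 j]
      exact h1' _ (Nat.mod_lt _ hn0)
    have hre : ((starRingEnd ℂ) (om n ^ j) * z).re = 1 := le_antisymm (h1' j hj) hj1
    have hc1 : (starRingEnd ℂ) (om n ^ (n - 1)) = om n := by
      have h3 := uni_conj n (n - 1)
      have h4 : om n ^ (n - 1) * om n = 1 := by
        rw [← pow_succ, Nat.sub_add_cancel (by omega), om_pow hn0]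
      calc (starRingEnd ℂ) (om n ^ (n - 1))
          = (starRingEnd ℂ) (om n ^ (n - 1)) * (om n ^ (n - 1) * om n) := by rw [h4, mul_one]
        _ = ((starRingEnd ℂ) (om n ^ (n - 1)) * om n ^ (n - 1)) * om n := by ring
        _ = om n := by rw [h3, one_mul]
    have hd := dis_max hn (ζ := (starRingEnd ℂ) (om n ^ j) * z)
      (by
        rw [hre]
        have h3 := hall (j + (n - 1))
        rw [pow_add, map_mul, hc1] at h3
        have h4 : om n * ((starRingEnd ℂ) (om n ^ j) * z)
            = (starRingEnd ℂ) (om n ^ j) * om n * z := by ring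
        rw [h4]
        exact h3)
      (by
        rw [hre]
        have h3 := hall (j + 1)
        rw [pow_succ, map_mul] at h3
        have h4 : (starRingEnd ℂ) (om n) * ((starRingEnd ℂ) (om n ^ j) * z)
            = (starRingEnd ℂ) (om n ^ j) * (starRingEnd ℂ) (om n) * z := by ring
        rw [h4]
        exact h3)
    rw [hre, mul_one] at hd
    set s : ℝ := ((starRingEnd ℂ) (om n ^ j) * z).im with hs
    have hζ : (starRingEnd ℂ) (om n ^ j) * z = 1 + (s : ℂ) * I := by
      apply Complex.ext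
      · rw [hre]
        simp
      · rw [← hs]
        simp
    have hz : z = om n ^ j * (1 + (s : ℂ) * I) := by
      rw [← hζ, ← mul_assoc, mul_comm (om n ^ j), uni_conj, one_mul]
    obtain ⟨hs1, hs2⟩ := abs_le.1 hd
    refine mem_iUnion.2 ⟨j, mem_seg.2 ⟨(tn n + s) / (2 * tn n), ?_, ?_, ?_⟩⟩
    · exact div_nonneg (by linarith) (by linarith)
    · rw [div_le_one (by linarith)]
      linarith
    · rw [rg_eq hn]
      unfold rg
      have htc : (tn n : ℂ) ≠ 0 := by exact_mod_cast htn.ne'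
      have h5 : (((tn n + s) / (2 * tn n) : ℝ) : ℂ) * (2 * tn n) = tn n + s := by
        push_cast
        field_simp
      rw [hz]
      linear_combination (-(I * om n ^ j)) * h5
  · intro hz
    obtain ⟨j, hj⟩ := mem_iUnion.1 hz
    obtain ⟨σ, hσ0, hσ1, hσ⟩ := mem_seg.1 hj
    set s : ℝ := (2 * σ - 1) * tn n with hs
    have hsa : |s| ≤ tn n := by
      rw [hs, abs_mul, abs_of_pos htn]
      have h1 : |2 * σ - 1| ≤ 1 := abs_le.2 ⟨by linarith, by linarith⟩
      calc |2 * σ - 1| * tn n ≤ 1 * tn n := mul_le_mul_of_nonneg_right h1 htn.le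
        _ = tn n := one_mul _
    have hz' : z = om n ^ j * (1 + (s : ℂ) * I) := by
      rw [hσ, rg_eq hn]
      unfold rg
      rw [hs]
      push_cast
      ring
    refine ⟨fun k hk => ?_, fun hU => ?_⟩
    · obtain ⟨m, hm, hm'⟩ := uni_rot hn0 j hk
      rw [hz', ← mul_assoc, hm']
      exact uni_side hn hsa hm
    · have h1 := hU (j % n) (Nat.mod_lt _ hn0)
      rw [hz', ← mul_assoc, uni_mod hn0 j, uni_conj, one_mul] at h1
      simp at h1

theorem reg_up (hn : 3 ≤ n) : Reg (rg n) (Up n) := by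
  refine ⟨up_open n, up_bounded hn, ⟨⟨0, fun j _ => ?_⟩, (up_convex n).isPreconnected⟩,
    up_frontier hn⟩
  rw [mul_zero]
  exact one_pos

theorem reg_unique (hn : 3 ≤ n) {Om : Set ℂ} (hR : Reg (rg n) Om) : Om = Up n := by
  have hU := reg_up hn
  have h1 : Om ⊆ Up n := by
    intro x hx
    by_contra hxU
    have hxb := hR.disj hx
    rw [← up_frontier hn, (up_open n).frontier_eq] at hxb
    have hxc : x ∉ closure (Up n) := fun h => hxb ⟨h, hxU⟩
    rw [up_closure] at hxc
    have h2 : ∃ j < n, 1 < ((starRingEnd ℂ) (om n ^ j) * x).re := by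
      by_contra hc
      push Not at hc
      exact hxc hc
    obtain ⟨j, hj, hj1⟩ := h2
    have hx0 : x ≠ 0 := by
      intro h
      rw [h, mul_zero, Complex.zero_re] at hj1
      linarith
    have hxn : 0 < ‖x‖ := norm_pos_iff.2 hx0
    have hS : IsPreconnected ((fun s : ℝ => (s : ℂ) * x) '' Ici 1) := by
      refine (convex_Ici (1 : ℝ)).isPreconnected.image _ (Continuous.continuousOn ?_)
      fun_prop
    have hSd : ∀ z ∈ (fun s : ℝ => (s : ℂ) * x) '' Ici 1, z ∉ bdr (rg n) := by
      rintro z ⟨s, hs, rfl⟩ hz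
      rw [← up_frontier hn, (up_open n).frontier_eq, up_closure] at hz
      have h3 := hz.1 j hj
      have h4 : (starRingEnd ℂ) (om n ^ j) * ((s : ℂ) * x)
          = (s : ℂ) * ((starRingEnd ℂ) (om n ^ j) * x) := by ring
      simp only at h3
      rw [h4, Complex.re_ofReal_mul] at h3
      have h5 : (1 : ℝ) ≤ s := hs
      nlinarith
    have hsub := hR.sub hS hSd (x := x) ⟨1, by simp, by simp⟩ hx
    obtain ⟨K, hK⟩ := isBounded_iff_forall_norm_le.1 hR.bd
    have hK0 : 0 ≤ K := (norm_nonneg x).trans (hK x hx)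
    have h6 : (1 : ℝ) ≤ 1 + K / ‖x‖ := by
      have : 0 ≤ K / ‖x‖ := by positivity
      linarith
    have h7 := hK _ (hsub ⟨1 + K / ‖x‖, h6, rfl⟩)
    simp only [norm_mul, Complex.norm_real, Real.norm_eq_abs] at h7
    rw [abs_of_nonneg (by linarith), add_mul, div_mul_cancel₀ _ hxn.ne', one_mul] at h7
    linarith
  refine Subset.antisymm h1 ?_
  obtain ⟨x, hx⟩ := hR.conn.nonempty
  refine hR.sub (up_convex n).isPreconnected (fun z hz => ?_) (h1 hx) hx
  rw [← up_frontier hn, (up_open n).frontier_eq]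
  exact fun h => h.2 hz

end Pool.Agent.H37.ST
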