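import Pool.Agent.H37.ST.D

set_option autoImplicit false

/-! Steklov, part B: the open regular polygon.

PROOFS. For `z` put `ζ_k = conj (om n ^ k) z`. `Up n` is open and convex (finite intersection of half planes) and contains `0`.
`up_closure`: `⊆` is clear; if all `Re ζ_k ≤ 1` then `λ z ∈ Up n` for `0 ≤ λ < 1`, and `λ z → z`.
`rg_eq`: `om_eq` of SG/Omg.
`dis_cone`: `φ = π/n`, `om^m = cos 2mφ + i sin 2mφ`:
`Re ζ - Re (om^m ζ) = 2 sin mφ (Re ζ sin mφ + Im ζ cos mφ) > 0` since `|Im ζ| |cos mφ| ≤ t |cos mφ| Re ζ ≤ sin mφ Re ζ`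
(`φ ≤ mφ ≤ π - φ`: `sin mφ cos φ ∓ sin φ cos mφ = sin (mφ ∓ φ) ≥ 0`), one of the two inequalities is strict.
`dis_max`: `Re ζ ≥ Re (om^(±1) ζ) = Re ζ cos 2φ ∓ Im ζ sin 2φ`, `(1 - cos 2φ)/sin 2φ = tan φ`; `h1` and `h2` are the cases of
`om n` and of `conj (om n)`.
`up_bounded`: choose `k < n` with `Re ζ_k` maximal; indices mod `n` (`om^n = 1`), `dis_max` gives `|Im ζ_k| ≤ t Re ζ_k ≤ t`, so
`‖z‖ = ‖ζ_k‖ ≤ 1 + t`. -/

open Complex MeasureTheory Set Finset

namespace Pool.Agent.H37.ST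

open Pool.Agent.H32.Stek hiding om perim area
open Pool.Agent.H32.Q4 hiding om
open Pool.Agent.H32.SG

variable {n : ℕ}

private lemma upr_exp_re (θ : ℝ) (ζ : ℂ) : (exp ((θ : ℂ) * I) * ζ).re =
    Real.cos θ * ζ.re - Real.sin θ * ζ.im := by
  rw [Complex.exp_mul_I, ← Complex.ofReal_cos, ← Complex.ofReal_sin, Complex.mul_re,
    Complex.add_re, Complex.add_im, Complex.ofReal_re, Complex.ofReal_im, Complex.re_ofReal_mul,
    Complex.im_ofReal_mul, Complex.I_re, Complex.I_im]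
  ring

private lemma upr_rot_re (n : ℕ) (m : ℕ) (ζ : ℂ) : (om n ^ m * ζ).re =
    Real.cos (2 * (m * (Real.pi / n))) * ζ.re - Real.sin (2 * (m * (Real.pi / n))) * ζ.im := by
  have e : om n ^ m = exp (((2 * (m * (Real.pi / n)) : ℝ) : ℂ) * I) := by
    unfold om
    rw [← Complex.exp_nat_mul]
    congr 1
    push_cast
    ring
  rw [e, upr_exp_re]

private lemma upr_phi (hn : 3 ≤ n) : 0 < Real.pi / n ∧ Real.pi / n < Real.pi / 2 := by
  have hpi := Real.pi_pos
  have hn0 : (0 : ℝ) < n := by exact_mod_cast (by omega : 0 < n)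
  have hn3 : (3 : ℝ) ≤ n := by exact_mod_cast hn
  refine ⟨by positivity, ?_⟩
  rw [div_lt_div_iff_of_pos_left hpi hn0 (by norm_num)]
  linarith

private lemma upr_tn (hn : 3 ≤ n) : 0 < Real.sin (Real.pi / n) ∧ 0 < Real.cos (Real.pi / n) ∧
    tn n * Real.cos (Real.pi / n) = Real.sin (Real.pi / n) := by
  obtain ⟨h1, h2⟩ := upr_phi hn
  have hpi := Real.pi_pos
  have hc : 0 < Real.cos (Real.pi / n) := Real.cos_pos_of_mem_Ioo ⟨by linarith, h2⟩
  refine ⟨Real.sin_pos_of_pos_of_lt_pi h1 (by linarith), hc, ?_⟩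
  unfold tn
  rw [Real.tan_eq_sin_div_cos, div_mul_cancel₀ _ hc.ne']

theorem up_open (n : ℕ) : IsOpen (Up n) := by
  have h : Up n = ⋂ j ∈ Finset.range n, {z : ℂ | ((starRingEnd ℂ) (om n ^ j) * z).re < 1} := by
    ext z
    simp [Up]
  rw [h]
  refine isOpen_biInter_finset fun j _ => ?_
  exact isOpen_lt (Complex.continuous_re.comp (continuous_const.mul continuous_id)) continuous_const

private lemma upr_lin (c : ℂ) : IsLinearMap ℝ fun z : ℂ => (c * z).re := by
  constructor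
  · intro x y
    rw [mul_add, Complex.add_re]
  · intro a x
    rw [mul_smul_comm]
    simp

theorem up_convex (n : ℕ) : Convex ℝ (Up n) := by
  have h : Up n = ⋂ j ∈ {j : ℕ | j < n}, {z : ℂ | ((starRingEnd ℂ) (om n ^ j) * z).re < 1} := by
    ext z
    simp [Up]
  rw [h]
  refine convex_iInter₂ fun j _ => ?_
  exact convex_halfSpace_lt (upr_lin _) 1

theorem up_closure (n : ℕ) : closure (Up n) = {z | ∀ j < n, ((starRingEnd ℂ) (om n ^ j) * z).re ≤ 1} := by
  apply Set.Subset.antisymm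
  · refine closure_minimal (fun z hz j hj => (hz j hj).le) ?_
    have h : {z : ℂ | ∀ j < n, ((starRingEnd ℂ) (om n ^ j) * z).re ≤ 1} =
        ⋂ j ∈ {j : ℕ | j < n}, {z : ℂ | ((starRingEnd ℂ) (om n ^ j) * z).re ≤ 1} := by
      ext z
      simp
    rw [h]
    refine isClosed_biInter fun j _ => ?_
    exact isClosed_le (Complex.continuous_re.comp (continuous_const.mul continuous_id))
      continuous_const
  · intro z hz
    have ht : Filter.Tendsto (fun s : ℝ => (s : ℂ) * z) (nhdsWithin 1 (Set.Iio 1)) (nhds z) := by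
      have h1 : Filter.Tendsto (fun s : ℝ => (s : ℂ) * z) (nhds 1) (nhds (((1 : ℝ) : ℂ) * z)) :=
        (Complex.continuous_ofReal.mul continuous_const).tendsto 1
      rw [Complex.ofReal_one, one_mul] at h1
      exact h1.mono_left nhdsWithin_le_nhds
    refine mem_closure_of_tendsto ht ?_
    have h0 : ∀ᶠ s : ℝ in nhdsWithin 1 (Set.Iio 1), 0 < s :=
      nhdsWithin_le_nhds (lt_mem_nhds one_pos)
    filter_upwards [h0, self_mem_nhdsWithin] with s hs0 hs1
    intro j hj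
    have h2 := hz j hj
    have h3 : ((starRingEnd ℂ) (om n ^ j) * ((s : ℂ) * z)).re =
        s * ((starRingEnd ℂ) (om n ^ j) * z).re := by
      have : (starRingEnd ℂ) (om n ^ j) * ((s : ℂ) * z) =
          (s : ℂ) * ((starRingEnd ℂ) (om n ^ j) * z) := by ring
      rw [this, Complex.re_ofReal_mul]
    rw [h3]
    have hs1' : s < 1 := hs1
    nlinarith

theorem rg_eq (hn : 3 ≤ n) (j : ℕ) : rg n (j + 1) = (1 + tn n * I) * om n ^ j := by
  unfold rg
  rw [← om_eq hn, pow_succ]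
  ring

theorem dis_cone (hn : 3 ≤ n) {ζ : ℂ} (hζ : |ζ.im| < tn n * ζ.re) {m : ℕ} (h1 : 1 ≤ m) (h2 : m < n) :
    (om n ^ m * ζ).re < ζ.re := by
  obtain ⟨hp1, hp2⟩ := upr_phi hn
  obtain ⟨hs, hc, ht⟩ := upr_tn hn
  have htn := tn_pos hn
  have hre : 0 < ζ.re := by
    have := abs_nonneg ζ.im
    by_contra hcon
    have : tn n * ζ.re ≤ 0 := mul_nonpos_of_nonneg_of_nonpos htn.le (not_lt.mp hcon)
    linarith
  have hn0 : (0 : ℝ) < n := by exact_mod_cast (by omega : 0 < n)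
  have hnphi : (n : ℝ) * (Real.pi / n) = Real.pi := by
    field_simp
  set φ : ℝ := Real.pi / n with hφ
  have hm1 : (1 : ℝ) ≤ m := by exact_mod_cast h1
  have hm2 : (m : ℝ) + 1 ≤ n := by exact_mod_cast h2
  have ha1 : φ ≤ m * φ := by nlinarith
  have ha2 : m * φ + φ ≤ Real.pi := by
    rw [← hnphi]
    nlinarith
  have hsm : 0 < Real.sin (m * φ) :=
    Real.sin_pos_of_pos_of_lt_pi (by linarith) (by linarith)
  have hA : 0 ≤ Real.sin (m * φ) * Real.cos φ - Real.cos (m * φ) * Real.sin φ := by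
    rw [← Real.sin_sub]
    exact Real.sin_nonneg_of_nonneg_of_le_pi (by linarith) (by linarith)
  have hB : 0 ≤ Real.sin (m * φ) * Real.cos φ + Real.cos (m * φ) * Real.sin φ := by
    rw [← Real.sin_add]
    exact Real.sin_nonneg_of_nonneg_of_le_pi (by linarith) (by linarith)
  have hC : |Real.cos (m * φ)| * tn n ≤ Real.sin (m * φ) := by
    have h3 : |Real.cos (m * φ)| * Real.sin φ ≤ Real.sin (m * φ) * Real.cos φ := by
      rcases abs_cases (Real.cos (m * φ)) with ⟨h, _⟩ | ⟨h, _⟩ <;> rw [h] <;> linarith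
    have h4 : |Real.cos (m * φ)| * tn n * Real.cos φ ≤ Real.sin (m * φ) * Real.cos φ := by
      rw [mul_assoc, ht]
      exact h3
    exact le_of_mul_le_mul_right h4 hc
  have hD : 0 < Real.sin (m * φ) * ζ.re + Real.cos (m * φ) * ζ.im := by
    have h5 : -(|Real.cos (m * φ)| * |ζ.im|) ≤ Real.cos (m * φ) * ζ.im := by
      rw [← abs_mul]
      exact neg_abs_le _
    by_cases h6 : Real.cos (m * φ) = 0
    · rw [h6]
      have := mul_pos hsm hre
      linarith
    · have h7 : 0 < |Real.cos (m * φ)| := abs_pos.mpr h6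
      have h8 := mul_lt_mul_of_pos_left hζ h7
      have h9 := mul_le_mul_of_nonneg_right hC hre.le
      nlinarith
  rw [upr_rot_re, Real.cos_two_mul, Real.sin_two_mul]
  have h10 := Real.sin_sq_add_cos_sq (m * φ)
  have h11 := mul_pos hsm hD
  nlinarith

private lemma upr_conj_re (n : ℕ) (ζ : ℂ) : ((starRingEnd ℂ) (om n) * ζ).re =
    Real.cos (2 * (Real.pi / n)) * ζ.re + Real.sin (2 * (Real.pi / n)) * ζ.im := by
  have e : (starRingEnd ℂ) (om n) = exp (((-(2 * (Real.pi / n)) : ℝ) : ℂ) * I) := by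
    unfold om
    rw [← Complex.exp_conj]
    congr 1
    have e2 : 2 * (Real.pi : ℂ) * I / n = ((2 * (Real.pi / n) : ℝ) : ℂ) * I := by
      push_cast
      ring
    rw [e2, map_mul, Complex.conj_ofReal, Complex.conj_I, Complex.ofReal_neg]
    ring
  rw [e, upr_exp_re, Real.cos_neg, Real.sin_neg]
  ring

theorem dis_max (hn : 3 ≤ n) {ζ : ℂ} (h1 : (om n * ζ).re ≤ ζ.re)
    (h2 : ((starRingEnd ℂ) (om n) * ζ).re ≤ ζ.re) : |ζ.im| ≤ tn n * ζ.re := by
  obtain ⟨hs, hc, ht⟩ := upr_tn hn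
  have h3 := upr_rot_re n 1 ζ
  rw [pow_one, Nat.cast_one, one_mul] at h3
  rw [h3] at h1
  rw [upr_conj_re] at h2
  rw [Real.cos_two_mul, Real.sin_two_mul] at h1 h2
  have h10 := Real.sin_sq_add_cos_sq (Real.pi / n)
  set s := Real.sin (Real.pi / n)
  set c := Real.cos (Real.pi / n)
  have h10' : s ^ 2 * ζ.re + c ^ 2 * ζ.re = ζ.re := by rw [← add_mul, h10, one_mul]
  have h4 : 0 ≤ s * (s * ζ.re + c * ζ.im) := by nlinarith
  have h5 : 0 ≤ s * (s * ζ.re - c * ζ.im) := by nlinarith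
  have h6 : 0 ≤ s * ζ.re + c * ζ.im := nonneg_of_mul_nonneg_right h4 hs
  have h7 : 0 ≤ s * ζ.re - c * ζ.im := nonneg_of_mul_nonneg_right h5 hs
  rw [← ht] at h6 h7
  have h8 : 0 ≤ c * (tn n * ζ.re + ζ.im) := by nlinarith
  have h9 : 0 ≤ c * (tn n * ζ.re - ζ.im) := by nlinarith
  have h11 : 0 ≤ tn n * ζ.re + ζ.im := nonneg_of_mul_nonneg_right h8 hc
  have h12 : 0 ≤ tn n * ζ.re - ζ.im := nonneg_of_mul_nonneg_right h9 hc
  rw [abs_le]
  constructor <;> linarith

/-- the index with the largest real part -/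
theorem up_max (hn : 3 ≤ n) (z : ℂ) : ∃ k < n,
    |((starRingEnd ℂ) (om n ^ k) * z).im| ≤ tn n * ((starRingEnd ℂ) (om n ^ k) * z).re := by
  have hn0 : 0 < n := by omega
  obtain ⟨k, hk, hmax⟩ := Finset.exists_max_image (Finset.range n)
    (fun k => ((starRingEnd ℂ) (om n ^ k) * z).re) ⟨0, Finset.mem_range.mpr hn0⟩
  refine ⟨k, Finset.mem_range.mp hk, ?_⟩
  have hall : ∀ j : ℕ, ((starRingEnd ℂ) (om n ^ j) * z).re ≤ ((starRingEnd ℂ) (om n ^ k) * z).re := by
    intro j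
    have h1 : om n ^ j = om n ^ (j % n) := by
      conv_lhs => rw [← Nat.mod_add_div j n]
      rw [pow_add, pow_mul, om_pow hn0, one_pow, mul_one]
    rw [h1]
    exact hmax _ (Finset.mem_range.mpr (Nat.mod_lt j hn0))
  have hunit : om n * (starRingEnd ℂ) (om n) = 1 := by
    rw [Complex.mul_conj, Complex.normSq_eq_norm_sq, norm_om]
    norm_num
  apply dis_max hn
  · have h2 : om n * ((starRingEnd ℂ) (om n ^ k) * z) = (starRingEnd ℂ) (om n ^ (k + n - 1)) * z := by
      have h3 : om n ^ (k + n - 1) * om n = om n ^ k := by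
        rw [← pow_succ]
        have : k + n - 1 + 1 = k + n := by omega
        rw [this, pow_add, om_pow hn0, mul_one]
      rw [← h3, map_mul]
      linear_combination ((starRingEnd ℂ) (om n ^ (k + n - 1)) * z) * hunit
    rw [h2]
    exact hall _
  · have h2 : (starRingEnd ℂ) (om n) * ((starRingEnd ℂ) (om n ^ k) * z) =
        (starRingEnd ℂ) (om n ^ (k + 1)) * z := by
      rw [pow_succ, map_mul]
      ring
    rw [h2]
    exact hall _

theorem up_bounded (hn : 3 ≤ n) : Bornology.IsBounded (Up n) := by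
  rw [isBounded_iff_forall_norm_le]
  refine ⟨1 + tn n, fun z hz => ?_⟩
  obtain ⟨k, hk, h1⟩ := up_max hn z
  have h2 := hz k hk
  have htn := tn_pos hn
  set ζ := (starRingEnd ℂ) (om n ^ k) * z with hζ
  have h3 : ‖ζ‖ = ‖z‖ := by
    rw [hζ, norm_mul, Complex.norm_conj, norm_pow, norm_om, one_pow, one_mul]
  have h4 : 0 ≤ ζ.re := by
    have := abs_nonneg ζ.im
    by_contra hcon
    have : tn n * ζ.re < 0 := mul_neg_of_pos_of_neg htn (not_le.mp hcon)
    linarith
  have h5 := Complex.norm_le_abs_re_add_abs_im ζ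
  rw [abs_of_nonneg h4] at h5
  have h6 : tn n * ζ.re ≤ tn n * 1 := mul_le_mul_of_nonneg_left h2.le htn.le
  rw [← h3]
  linarith

end Pool.Agent.H37.ST
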